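import Pool.Agent.Lib.P325z.Defs

/-!
Module DelEx (1.8h). Deleting one edge from every short cycle; the deleted edges form a matching.
G = bg f, verts C as in P325L; |verts C| = |C.image fst| + |C.image f| (SelAux.verts_card). Call C bad if
C is nonempty, |C| <= g and |verts C| <= |C|; minimal bad if moreover no proper subset of C is bad.
PROOF. Every bad set contains a minimal bad set (induction on the cardinality). Claim: distinct minimal bad
sets C1, C2 have no common vertex. Let U = C1 ∪ C2, I = C1 ∩ C2. I is a proper subset of C1 (else C1 ⊆ C2, and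
then C1 = C2 by minimality of C2), so I is not bad: I = ∅ or |verts I| >= |I| + 1. If C1, C2 had a common vertex then
in both cases |verts C1 ∩ verts C2| >= |I| + 1 (verts I ⊆ verts C1 ∩ verts C2). verts U = verts C1 ∪ verts C2, so
|verts U| <= |verts C1| + |verts C2| - |I| - 1 <= |C1| + |C2| - |I| - 1 = |U| - 1. But |verts U| <= |C1| + |C2| <= 2 g,
so h gives |U| <= |verts U|: contradiction.
Let Del = image of (the finset of minimal bad sets) under a choice C ↦ an edge of C. e, e' ∈ Del with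
e.1 = e'.1 (or f e = f e'): they come from C, C' with the common vertex inl e.1 (inr (f e)), so C = C' and e = e'. If H
is disjoint from Del, nonempty, |H| <= g and |verts H| <= |H| then H is bad, contains a minimal bad C, whose chosen
edge lies in C ⊆ H and in Del: contradiction.
-/

open scoped BigOperators

namespace Pool.Agent.Lib.P325z

open Pool.Agent.Lib.P325L (bg)

namespace DelExAux

section

variable {E V : Type} [DecidableEq E] [DecidableEq V]

/-- a small nonempty set which touches at most as many vertices as it has edges -/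
def Bad (vs : Finset E → Finset V) (g : ℕ) (C : Finset E) : Prop :=
  C.Nonempty ∧ C.card ≤ g ∧ (vs C).card ≤ C.card

/-- a minimal bad set -/
def MBad (vs : Finset E → Finset V) (g : ℕ) (C : Finset E) : Prop :=
  Bad vs g C ∧ ∀ C' ⊂ C, ¬ Bad vs g C'

variable {vs : Finset E → Finset V} {g : ℕ}

theorem exists_mbad (C : Finset E) (h : Bad vs g C) : ∃ C' ⊆ C, MBad vs g C' := by
  induction C using Finset.strongInduction with
  | H C ih =>
    by_cases hm : ∀ C' ⊂ C, ¬ Bad vs g C'
    · exact ⟨C, Finset.Subset.refl _, h, hm⟩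
    · push Not at hm
      obtain ⟨C', hC', hb⟩ := hm
      obtain ⟨C'', h1, h2⟩ := ih C' hC' hb
      exact ⟨C'', h1.trans hC'.subset, h2⟩

theorem mono (hu : ∀ A B, vs (A ∪ B) = vs A ∪ vs B) {A B : Finset E} (hAB : A ⊆ B) :
    vs A ⊆ vs B := by
  rw [← Finset.union_eq_right.2 hAB, hu]
  exact Finset.subset_union_left

theorem disj (hu : ∀ A B, vs (A ∪ B) = vs A ∪ vs B)
    (h : ∀ C, (vs C).card ≤ 2 * g → C.card ≤ (vs C).card) {C1 C2 : Finset E}
    (h1 : MBad vs g C1) (h2 : MBad vs g C2) (hne : C1 ≠ C2) : Disjoint (vs C1) (vs C2) := by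
  by_contra hd
  have hI : C1 ∩ C2 ⊂ C1 := by
    refine ⟨Finset.inter_subset_left, fun hs => ?_⟩
    have h3 : C1 ⊆ C2 := hs.trans Finset.inter_subset_right
    have h4 : C1 ⊂ C2 := lt_of_le_of_ne h3 hne
    exact h2.2 C1 h4 h1.1
  have h5 : (C1 ∩ C2).card + 1 ≤ (vs C1 ∩ vs C2).card := by
    rcases Finset.eq_empty_or_nonempty (C1 ∩ C2) with h6 | h6
    · rw [h6, Finset.card_empty]
      rw [Finset.disjoint_iff_inter_eq_empty] at hd
      exact Finset.card_pos.2 (Finset.nonempty_iff_ne_empty.2 hd)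
    · have h7 : (C1 ∩ C2).card < (vs (C1 ∩ C2)).card := by
        by_contra h8
        push Not at h8
        exact h1.2 _ hI ⟨h6, (Finset.card_le_card hI.subset).trans h1.1.2.1, h8⟩
      have h9 : vs (C1 ∩ C2) ⊆ vs C1 ∩ vs C2 :=
        Finset.subset_inter (mono hu Finset.inter_subset_left)
          (mono hu Finset.inter_subset_right)
      exact h7.trans_le (Finset.card_le_card h9)
  have h10 := Finset.card_union_add_card_inter (vs C1) (vs C2)
  have h11 := Finset.card_union_add_card_inter C1 C2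
  rw [← hu] at h10
  have h12 := h1.1.2.2
  have h13 := h2.1.2.2
  have h15 := h1.1.2.1
  have h16 := h2.1.2.1
  have h14 := h (C1 ∪ C2) (by omega)
  omega

theorem main [Fintype E] (hu : ∀ A B, vs (A ∪ B) = vs A ∪ vs B)
    (h : ∀ C, (vs C).card ≤ 2 * g → C.card ≤ (vs C).card) :
    ∃ Del : Finset E, (∀ e ∈ Del, ∀ e' ∈ Del, ∀ v ∈ vs {e}, v ∈ vs {e'} → e = e') ∧
      ∀ H : Finset E, Disjoint H Del → H.Nonempty → H.card ≤ g → H.card < (vs H).card := by
  classical
  refine ⟨Finset.univ.filter (fun e => ∃ (C : Finset E) (hC : MBad vs g C),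
    e = hC.1.1.choose), ?_, ?_⟩
  · intro e he e' he' v hv hv'
    obtain ⟨C, hC, rfl⟩ := (Finset.mem_filter.1 he).2
    obtain ⟨C', hC', rfl⟩ := (Finset.mem_filter.1 he').2
    by_cases hne : C = C'
    · subst hne
      rfl
    · exfalso
      have h3 := disj hu h hC hC' hne
      exact (Finset.disjoint_left.1 h3
        (mono hu (Finset.singleton_subset_iff.2 hC.1.1.choose_spec) hv))
        (mono hu (Finset.singleton_subset_iff.2 hC'.1.1.choose_spec) hv')
  · intro H hH hne hg
    by_contra hlt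
    push Not at hlt
    obtain ⟨C, hCH, hC⟩ := exists_mbad H ⟨hne, hg, hlt⟩
    refine Finset.disjoint_left.1 hH (hCH hC.1.1.choose_spec) ?_
    exact Finset.mem_filter.2 ⟨Finset.mem_univ _, C, hC, rfl⟩

end

end DelExAux

theorem del_exists {n Δ : ℕ} (f : Fin n × Fin Δ → Fin n) (g : ℕ)
    (h : ∀ C : Finset (Fin n × Fin Δ), ((bg f).verts C).card ≤ 2 * g →
      C.card ≤ ((bg f).verts C).card) :
    ∃ Del : Finset (Fin n × Fin Δ), (∀ e ∈ Del, ∀ e' ∈ Del, e.1 = e'.1 → e = e') ∧
      (∀ e ∈ Del, ∀ e' ∈ Del, f e = f e' → e = e') ∧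
      ∀ H : Finset (Fin n × Fin Δ), Disjoint H Del → H.Nonempty → H.card ≤ g →
        H.card < ((bg f).verts H).card := by
  have hu : ∀ A B : Finset (Fin n × Fin Δ), (bg f).verts (A ∪ B) =
      (bg f).verts A ∪ (bg f).verts B := by
    intro A B
    ext v
    unfold P325L.Gr.verts
    simp only [Finset.mem_union, Finset.mem_image]
    constructor
    · rintro (⟨e, he | he, h1⟩ | ⟨e, he | he, h1⟩)
      · exact Or.inl (Or.inl ⟨e, he, h1⟩)
      · exact Or.inr (Or.inl ⟨e, he, h1⟩)
      · exact Or.inl (Or.inr ⟨e, he, h1⟩)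
      · exact Or.inr (Or.inr ⟨e, he, h1⟩)
    · rintro ((⟨e, he, h1⟩ | ⟨e, he, h1⟩) | (⟨e, he, h1⟩ | ⟨e, he, h1⟩))
      · exact Or.inl ⟨e, Or.inl he, h1⟩
      · exact Or.inr ⟨e, Or.inl he, h1⟩
      · exact Or.inl ⟨e, Or.inr he, h1⟩
      · exact Or.inr ⟨e, Or.inr he, h1⟩
  obtain ⟨Del, h1, h2⟩ := DelExAux.main hu h
  refine ⟨Del, ?_, ?_, h2⟩
  · intro e he e' he' heq
    refine h1 e he e' he' (Sum.inl e.1) ?_ ?_
    · unfold P325L.Gr.verts bg
      simp
    · unfold P325L.Gr.verts bg
      simp [heq]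
  · intro e he e' he' heq
    refine h1 e he e' he' (Sum.inr (f e)) ?_ ?_
    · unfold P325L.Gr.verts bg
      simp
    · unfold P325L.Gr.verts bg
      simp [heq]

end Pool.Agent.Lib.P325z
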