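import Pool.Agent.Lib.P325z.MixN

/-!
Module MixR (1.2h; black box mix_nat). Converse mixing lemma for real functions.
PROOF. (1) Nonnegative real f, g: apply mix_nat to f_K x = ⌊K f x⌋₊, g_K y = ⌊K g y⌋₊ (K : ℕ, K → ∞), divide by K²
and pass to the limit (⌊K a⌋₊ / K → a for a >= 0: tendsto_nat_floor_mul_div_atTop composed with the cast of ℕ; finite
sums and products of convergent sequences; le_of_tendsto_of_tendsto'): the inequality of mix_nat holds for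
nonnegative real functions. (2) φ = φ⁺ - φ⁻, ψ = ψ⁺ - ψ⁻ (φ⁺ = max φ 0, φ⁻ = max (-φ) 0): with
B(f,g) = ∑_e f g - (Δ/n)(∑ f)(∑ g) bilinear, |B(φ,ψ)| <= sum of four terms
<= c Δ (2 ∑ (φ⁺² + φ⁻²) + 2 ∑ (ψ⁺² + ψ⁻²)) = 2 c Δ (∑ φ² + ∑ ψ²), c = α (2 + log (1/α)). (3) ∑ φ = 0 kills the
second term of B.
-/

open scoped BigOperators

namespace Pool.Agent.Lib.P325z

namespace MixRAux

open Filter Topology

theorem lim_floor (a : ℝ) (ha : 0 ≤ a) :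
    Tendsto (fun K : ℕ => ((⌊a * (K : ℝ)⌋₊ : ℕ) : ℝ) / (K : ℝ)) atTop (𝓝 a) :=
  (tendsto_nat_floor_mul_div_atTop (R := ℝ) ha).comp tendsto_natCast_atTop_atTop

theorem mix_nonneg {n Δ : ℕ} (α : ℝ) (hα : 0 < α) (hα1 : α ≤ 1 / 2)
    (π : Fin Δ → Equiv.Perm (Fin n)) (h : Disc α π) (f g : Fin n → ℝ)
    (hf : ∀ x, 0 ≤ f x) (hg : ∀ x, 0 ≤ g x) :
    |∑ e : Fin n × Fin Δ, f e.1 * g (pf π e) -
        (Δ : ℝ) / n * (∑ x, f x) * (∑ y, g y)| ≤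
      α * (2 + Real.log (1 / α)) * Δ * (∑ x, f x ^ 2 + ∑ y, g y ^ 2) := by
  have key : ∀ K : ℕ,
      |∑ e : Fin n × Fin Δ, (((⌊f e.1 * (K : ℝ)⌋₊ : ℕ) : ℝ) / (K : ℝ)) *
            (((⌊g (pf π e) * (K : ℝ)⌋₊ : ℕ) : ℝ) / (K : ℝ)) -
          (Δ : ℝ) / n * (∑ x, ((⌊f x * (K : ℝ)⌋₊ : ℕ) : ℝ) / (K : ℝ)) *
            (∑ y, ((⌊g y * (K : ℝ)⌋₊ : ℕ) : ℝ) / (K : ℝ))| ≤
        α * (2 + Real.log (1 / α)) * Δ *
          (∑ x, (((⌊f x * (K : ℝ)⌋₊ : ℕ) : ℝ) / (K : ℝ)) ^ 2 +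
            ∑ y, (((⌊g y * (K : ℝ)⌋₊ : ℕ) : ℝ) / (K : ℝ)) ^ 2) := by
    intro K
    have h0 := mix_nat α hα hα1 π h (fun x => ⌊f x * (K : ℝ)⌋₊) (fun y => ⌊g y * (K : ℝ)⌋₊)
    have hK : (0 : ℝ) ≤ ((K : ℝ) * (K : ℝ)) := mul_self_nonneg _
    have h1 := div_le_div_of_nonneg_right h0 hK
    have e1 : ∑ e : Fin n × Fin Δ, (((⌊f e.1 * (K : ℝ)⌋₊ : ℕ) : ℝ) / (K : ℝ)) *
            (((⌊g (pf π e) * (K : ℝ)⌋₊ : ℕ) : ℝ) / (K : ℝ)) =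
        (∑ e : Fin n × Fin Δ, (((⌊f e.1 * (K : ℝ)⌋₊ : ℕ) : ℝ)) *
            (((⌊g (pf π e) * (K : ℝ)⌋₊ : ℕ) : ℝ))) / ((K : ℝ) * (K : ℝ)) := by
      rw [Finset.sum_div]
      exact Finset.sum_congr rfl (fun e _ => div_mul_div_comm _ _ _ _)
    have e2 : ∀ φ : Fin n → ℝ, ∑ x, ((⌊φ x * (K : ℝ)⌋₊ : ℕ) : ℝ) / (K : ℝ) =
        (∑ x, ((⌊φ x * (K : ℝ)⌋₊ : ℕ) : ℝ)) / (K : ℝ) := fun φ => (Finset.sum_div _ _ _).symm
    have e3 : ∀ φ : Fin n → ℝ, ∑ x, (((⌊φ x * (K : ℝ)⌋₊ : ℕ) : ℝ) / (K : ℝ)) ^ 2 =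
        (∑ x, (((⌊φ x * (K : ℝ)⌋₊ : ℕ) : ℝ)) ^ 2) / ((K : ℝ) * (K : ℝ)) := by
      intro φ
      rw [Finset.sum_div]
      refine Finset.sum_congr rfl (fun x _ => ?_)
      rw [div_pow, sq (K : ℝ)]
    rw [e1, e2 f, e2 g, e3 f, e3 g]
    have e4 : ∀ S A B : ℝ, S / ((K : ℝ) * (K : ℝ)) - (Δ : ℝ) / n * (A / (K : ℝ)) * (B / (K : ℝ)) =
        (S - (Δ : ℝ) / n * A * B) / ((K : ℝ) * (K : ℝ)) := by
      intro S A B
      ring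
    rw [e4, abs_div, abs_of_nonneg hK]
    refine h1.trans (le_of_eq ?_)
    rw [mul_div_assoc, add_div]
  have t1 : Tendsto (fun K : ℕ =>
      |∑ e : Fin n × Fin Δ, (((⌊f e.1 * (K : ℝ)⌋₊ : ℕ) : ℝ) / (K : ℝ)) *
            (((⌊g (pf π e) * (K : ℝ)⌋₊ : ℕ) : ℝ) / (K : ℝ)) -
          (Δ : ℝ) / n * (∑ x, ((⌊f x * (K : ℝ)⌋₊ : ℕ) : ℝ) / (K : ℝ)) *
            (∑ y, ((⌊g y * (K : ℝ)⌋₊ : ℕ) : ℝ) / (K : ℝ))|) atTop
      (𝓝 |∑ e : Fin n × Fin Δ, f e.1 * g (pf π e) -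
        (Δ : ℝ) / n * (∑ x, f x) * (∑ y, g y)|) := by
    refine Tendsto.abs (Tendsto.sub ?_ (Tendsto.mul (Tendsto.mul tendsto_const_nhds ?_) ?_))
    · exact tendsto_finsetSum _ (fun e _ => (lim_floor _ (hf _)).mul (lim_floor _ (hg _)))
    · exact tendsto_finsetSum _ (fun x _ => lim_floor _ (hf _))
    · exact tendsto_finsetSum _ (fun x _ => lim_floor _ (hg _))
  have t2 : Tendsto (fun K : ℕ =>
      α * (2 + Real.log (1 / α)) * Δ *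
          (∑ x, (((⌊f x * (K : ℝ)⌋₊ : ℕ) : ℝ) / (K : ℝ)) ^ 2 +
            ∑ y, (((⌊g y * (K : ℝ)⌋₊ : ℕ) : ℝ) / (K : ℝ)) ^ 2)) atTop
      (𝓝 (α * (2 + Real.log (1 / α)) * Δ * (∑ x, f x ^ 2 + ∑ y, g y ^ 2))) := by
    refine Tendsto.mul tendsto_const_nhds (Tendsto.add ?_ ?_)
    · exact tendsto_finsetSum _ (fun x _ => (lim_floor _ (hf _)).pow 2)
    · exact tendsto_finsetSum _ (fun x _ => (lim_floor _ (hg _)).pow 2)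
  exact le_of_tendsto_of_tendsto' t1 t2 key

end MixRAux

theorem mix_real {n Δ : ℕ} (α : ℝ) (hα : 0 < α) (hα1 : α ≤ 1 / 2)
    (π : Fin Δ → Equiv.Perm (Fin n)) (h : Disc α π) (φ ψ : Fin n → ℝ) (hφ : ∑ x, φ x = 0) :
    ∑ e : Fin n × Fin Δ, φ e.1 * ψ (pf π e) ≤
      4 * α * (2 + Real.log (1 / α)) * Δ * ((∑ x, φ x ^ 2 + ∑ y, ψ y ^ 2) / 2) := by
  set c : ℝ := α * (2 + Real.log (1 / α)) * Δ with hc
  have hp : ∀ x : Fin n, 0 ≤ max (φ x) 0 := fun x => le_max_right _ _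
  have hm : ∀ x : Fin n, 0 ≤ max (-φ x) 0 := fun x => le_max_right _ _
  have hp' : ∀ x : Fin n, 0 ≤ max (ψ x) 0 := fun x => le_max_right _ _
  have hm' : ∀ x : Fin n, 0 ≤ max (-ψ x) 0 := fun x => le_max_right _ _
  have A1 := MixRAux.mix_nonneg α hα hα1 π h _ _ hp hp'
  have A2 := MixRAux.mix_nonneg α hα hα1 π h _ _ hp hm'
  have A3 := MixRAux.mix_nonneg α hα hα1 π h _ _ hm hp'
  have A4 := MixRAux.mix_nonneg α hα hα1 π h _ _ hm hm'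
  rw [← hc] at A1 A2 A3 A4
  have dec : ∀ a : ℝ, a = max a 0 - max (-a) 0 := by
    intro a
    rcases le_total a 0 with h1 | h1
    · rw [max_eq_right h1, max_eq_left (by linarith)]; ring
    · rw [max_eq_left h1, max_eq_right (by linarith)]; ring
  have dsq : ∀ a : ℝ, a ^ 2 = max a 0 ^ 2 + max (-a) 0 ^ 2 := by
    intro a
    rcases le_total a 0 with h1 | h1
    · rw [max_eq_right h1, max_eq_left (by linarith)]; ring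
    · rw [max_eq_left h1, max_eq_right (by linarith)]; ring
  have s1 : ∑ x, φ x = ∑ x, max (φ x) 0 - ∑ x, max (-φ x) 0 := by
    rw [← Finset.sum_sub_distrib]; exact Finset.sum_congr rfl (fun x _ => dec _)
  have s2 : ∑ x, φ x ^ 2 = ∑ x, max (φ x) 0 ^ 2 + ∑ x, max (-φ x) 0 ^ 2 := by
    rw [← Finset.sum_add_distrib]; exact Finset.sum_congr rfl (fun x _ => dsq _)
  have s3 : ∑ x, ψ x ^ 2 = ∑ x, max (ψ x) 0 ^ 2 + ∑ x, max (-ψ x) 0 ^ 2 := by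
    rw [← Finset.sum_add_distrib]; exact Finset.sum_congr rfl (fun x _ => dsq _)
  have s4 : ∑ e : Fin n × Fin Δ, φ e.1 * ψ (pf π e) =
      ∑ e : Fin n × Fin Δ, max (φ e.1) 0 * max (ψ (pf π e)) 0
      - ∑ e : Fin n × Fin Δ, max (φ e.1) 0 * max (-ψ (pf π e)) 0
      - ∑ e : Fin n × Fin Δ, max (-φ e.1) 0 * max (ψ (pf π e)) 0
      + ∑ e : Fin n × Fin Δ, max (-φ e.1) 0 * max (-ψ (pf π e)) 0 := by
    rw [← Finset.sum_sub_distrib, ← Finset.sum_sub_distrib, ← Finset.sum_add_distrib]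
    refine Finset.sum_congr rfl (fun e _ => ?_)
    conv_lhs => rw [dec (φ e.1), dec (ψ (pf π e))]
    ring
  rw [s1] at hφ
  have hz : ∀ P Q : ℝ, (Δ : ℝ) / n * (∑ x, max (φ x) 0) * P - (Δ : ℝ) / n * (∑ x, max (φ x) 0) * Q
      - (Δ : ℝ) / n * (∑ x, max (-φ x) 0) * P + (Δ : ℝ) / n * (∑ x, max (-φ x) 0) * Q = 0 := by
    intro P Q
    have : (Δ : ℝ) / n * (∑ x, max (φ x) 0) * P - (Δ : ℝ) / n * (∑ x, max (φ x) 0) * Q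
      - (Δ : ℝ) / n * (∑ x, max (-φ x) 0) * P + (Δ : ℝ) / n * (∑ x, max (-φ x) 0) * Q =
      (Δ : ℝ) / n * (∑ x, max (φ x) 0 - ∑ x, max (-φ x) 0) * (P - Q) := by ring
    rw [this, hφ]; ring
  have hz' := hz (∑ x, max (ψ x) 0) (∑ x, max (-ψ x) 0)
  rw [s4, s2, s3]
  have B1 := (abs_le.mp A1).2
  have B2 := (abs_le.mp A2).1
  have B3 := (abs_le.mp A3).1
  have B4 := (abs_le.mp A4).2
  have e5 : ∀ T : ℝ, 4 * α * (2 + Real.log (1 / α)) * Δ * (T / 2) = 2 * (c * T) := by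
    intro T; rw [hc]; ring
  rw [e5]
  nlinarith [B1, B2, B3, B4, hz']

end Pool.Agent.Lib.P325z
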