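import Pool.Agent.Lib.P325L.Par

/-!
Module NumE (1.5h; black box P325L.par). The parameters. D = ⌈5/d⌉ (so D >= 10), Δ = D^8, d1 = (9Δ)^(-6).
PROOF. (1) 10 <= D, 9 <= d Δ (Δ >= D >= 5/d, and D^7 >= 2), d1 <= 1/2, d1 <= s (d1 <= d: 9Δ >= 1/d).
(2) (8 (1 + log D)/D²) Δ + 2 <= d (Δ - 1): log D <= D/e <= 0.37 D and 1 <= D/10, so 1 + log D <= 0.47 D, the left side is
<= (3.8/D) Δ + 2 and d (Δ - 1) >= (5/D)(Δ - 1) since d >= 5/D. So it suffices that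
(3.8/D) Δ + 2 <= (5/D)(Δ - 1), i.e. 2 D + 5 <= 1.2 Δ: Δ = D^8 >= 10 D. (4 α (2 + log(1/α)) with α = 1/D² is
8 (1 + log D)/D².)
(3) log (1/d1) = 6 log (9Δ) <= 200 log (1/d): D <= 5/d + 1 <= 5.5/d, log D <= log 5.5 + log (1/d) <= 3.5 log (1/d)
(log 2 >= 0.69, log 5.5 <= 1.71: 5.5 < exp 1.71 or 5.5² = 30.25 < 2^5 = 32 so log 5.5 <= 2.5 log 2 <= 2.5 log (1/d):
3.5 log (1/d) exactly), log 9 <= log 16 = 4 log 2 <= 4 log (1/d): log (9Δ) <= (4 + 28) log (1/d) = 32 log (1/d), times 6 =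
192 <= 200.
(4) par s d1 a b0: let Δ1 = ⌈9/d1⌉ = ⌈9 (9Δ)^6⌉ >= 9 (9Δ)^6 and <= 10 (9Δ)^6. Its clause
(2 (9Δ1)^3)^(4 (20 (m+3))) <= n implies the one with Δ (Δ <= Δ1). Its clause 4 g³ (9Δ1)^g <= n Δ1 implies
96 g³ (9Δ)^(3g) <= n: (9Δ1)^g >= 81^g (9Δ)^(6g), n >= 4 g³ 81^g (9Δ)^(6g)/(10 (9Δ)^6) and
4·81^g (9Δ)^(6g - 6) >= 960 (9Δ)^(3g) as g >= 24 (m+3) >= 72 >= 2. The last clause: (2n)^(log(1/s)/log(1/d1)/20000) <= r and
log(1/d1) <= 200 log(1/d) give (2n)^(log(1/s)/log(1/d)/4000000) <= r (2n >= 1).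
-/

open scoped BigOperators

namespace Pool.Agent.Lib.P325z

open Pool.Agent.Lib.P325L

theorem num_D (d : ℝ) (hd : 0 < d) (hd2 : d ≤ 1 / 2) :
    10 ≤ ⌈5 / d⌉₊ ∧ 9 ≤ d * ((⌈5 / d⌉₊ ^ 8 : ℕ) : ℝ) ∧
      4 * (1 / (⌈5 / d⌉₊ : ℝ) ^ 2) * (2 + Real.log (1 / (1 / (⌈5 / d⌉₊ : ℝ) ^ 2))) *
        ((⌈5 / d⌉₊ ^ 8 : ℕ) : ℝ) + 2 ≤ d * (((⌈5 / d⌉₊ ^ 8 : ℕ) : ℝ) - 1) := by
  have h5 : (10 : ℝ) ≤ 5 / d := by
    rw [le_div_iff₀ hd]
    linarith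
  have hDr : 5 / d ≤ (⌈5 / d⌉₊ : ℝ) := Nat.le_ceil _
  have hD10 : (10 : ℝ) ≤ (⌈5 / d⌉₊ : ℝ) := h5.trans hDr
  have hdD : 5 ≤ d * (⌈5 / d⌉₊ : ℝ) := by
    rw [div_le_iff₀ hd] at hDr
    linarith
  refine ⟨by exact_mod_cast hD10, ?_, ?_⟩
  · push_cast
    generalize (⌈5 / d⌉₊ : ℝ) = D at *
    have h7 : (10 : ℝ) ^ 7 ≤ D ^ 7 := pow_le_pow_left₀ (by norm_num) hD10 7
    have h8 : 5 * (10 : ℝ) ^ 7 ≤ (d * D) * D ^ 7 := by
      have : (0 : ℝ) ≤ d * D := by linarith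
      gcongr
    calc (9 : ℝ) ≤ 5 * (10 : ℝ) ^ 7 := by norm_num
      _ ≤ (d * D) * D ^ 7 := h8
      _ = d * D ^ 8 := by ring
  · push_cast
    generalize (⌈5 / d⌉₊ : ℝ) = D at *
    have hD0 : 0 < D := by linarith
    have hlog : Real.log (1 / (1 / D ^ 2)) = 2 * Real.log D := by
      rw [one_div_one_div, Real.log_pow]
      norm_num
    have hl : Real.log D ≤ 0.37 * D := by
      have he := Real.exp_one_gt_d9
      have hep : 0 < Real.exp 1 := Real.exp_pos 1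
      have h1 := Real.log_le_sub_one_of_pos (div_pos hD0 hep)
      rw [Real.log_div hD0.ne' hep.ne', Real.log_exp] at h1
      have h2 : D / Real.exp 1 ≤ 0.37 * D := by
        rw [div_le_iff₀ hep]
        nlinarith
      linarith
    have h7 : (10 : ℝ) ^ 7 ≤ D ^ 7 := pow_le_pow_left₀ (by norm_num) hD10 7
    have hL : 4 * (1 / D ^ 2) * (2 + 2 * Real.log D) * D ^ 8 = 8 * (1 + Real.log D) * D ^ 6 := by
      field_simp
      ring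
    have h6 : 8 * (1 + Real.log D) * D ^ 6 ≤ 3.76 * D ^ 7 := by
      have h61 : 8 * (1 + Real.log D) ≤ 3.76 * D := by linarith
      calc 8 * (1 + Real.log D) * D ^ 6 ≤ 3.76 * D * D ^ 6 := by gcongr
        _ = 3.76 * D ^ 7 := by ring
    have hR : 5 * D ^ 7 - 1 ≤ d * (D ^ 8 - 1) := by
      have h9 : 5 * D ^ 7 ≤ d * D * D ^ 7 := by
        have : (0 : ℝ) ≤ D ^ 7 := by positivity
        gcongr
      have h10 : d * (D ^ 8 - 1) = d * D * D ^ 7 - d := by ring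
      rw [h10]
      linarith
    rw [hlog, hL]
    linarith

theorem par_e (s d a b0 : ℝ) (hd : 0 < d) (hd2 : d ≤ 1 / 2) (hds : d ≤ s) (hs : s < 1)
    (ha : 0 < a) (hb : 0 < b0) (m0 : ℕ) :
    ∃ n0 : ℕ, ∀ n ≥ n0, ∃ m g l0 r v0 : ℕ, 4096 ≤ n ∧ m0 ≤ m ∧ v0 = 6 * (m + 3) * r ∧ 2 ≤ r ∧
      1 ≤ g ∧ g ≤ n ∧ 1 ≤ l0 ∧ 2 * l0 ≤ g ∧ 24 * (m + 3) ≤ g ∧ 9 * (2 * v0) ^ 2 ≤ n ∧
      (2 * (9 * ((⌈5 / d⌉₊ ^ 8 : ℕ) : ℝ)) ^ 3) ^ (4 * (20 * (m + 3))) ≤ (n : ℝ) ∧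
      96 * (g : ℝ) ^ 3 * (9 * ((⌈5 / d⌉₊ ^ 8 : ℕ) : ℝ)) ^ (3 * g) ≤ (n : ℝ) ∧
      (v0 : ℝ) * (s ^ (1 / 8 : ℝ)) ^ l0 ≤ 1 ∧
      (v0 : ℝ) * (a * ((s ^ (1 / 8 : ℝ)) ^ 4) ^ m * v0 +
        b0 * ((m : ℝ) + 1) * (((s ^ (1 / 8 : ℝ)) ^ 4) ^ m * (v0 : ℝ) ^ 2 +
          v0 * (s ^ (1 / 8 : ℝ)) ^ g)) ≤ 1 ∧
      (2 * (n : ℝ)) ^ (Real.log (1 / s) / Real.log (1 / d) / 4000000) ≤ r := by
  obtain ⟨hD10, hdD, -⟩ := num_D d hd hd2
  have hceil : (⌈5 / d⌉₊ : ℝ) ≤ 5.5 / d := by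
    have h1 : (⌈5 / d⌉₊ : ℝ) < 5 / d + 1 := Nat.ceil_lt_add_one (by positivity)
    have h2 : (1 : ℝ) ≤ 0.5 / d := by
      rw [le_div_iff₀ hd]
      linarith
    have h3 : 5 / d + 0.5 / d = 5.5 / d := by
      rw [← add_div]
      norm_num
    linarith
  generalize hDdef : ⌈5 / d⌉₊ = D at *
  have hDr : (10 : ℝ) ≤ (D : ℝ) := by exact_mod_cast hD10
  -- the number `X = 9 D ^ 8`
  obtain ⟨X, hX⟩ : ∃ X : ℕ, X = 9 * D ^ 8 := ⟨_, rfl⟩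
  have hXr : (9 * ((D ^ 8 : ℕ) : ℝ)) = (X : ℝ) := by
    rw [hX]
    push_cast
    ring
  have hD8 : 1 ≤ D ^ 8 := Nat.one_le_pow _ _ (by omega)
  have hX9 : 9 ≤ X := by omega
  have hX9r : (9 : ℝ) ≤ (X : ℝ) := by exact_mod_cast hX9
  have hX0 : (0 : ℝ) < X := by linarith
  have hX6 : (X : ℝ) ≤ (X : ℝ) ^ 6 := by
    calc (X : ℝ) = (X : ℝ) ^ 1 := (pow_one _).symm
      _ ≤ (X : ℝ) ^ 6 := pow_le_pow_right₀ (by linarith) (by norm_num)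
  have hd1 : 0 < 1 / (X : ℝ) ^ 6 := by positivity
  have hd1' : 1 / (X : ℝ) ^ 6 ≤ 1 / 2 := by
    apply one_div_le_one_div_of_le (by norm_num)
    linarith
  have hd1d : 1 / (X : ℝ) ^ 6 ≤ d := by
    rw [div_le_iff₀ (by positivity)]
    have h1 : 1 ≤ d * X := by
      rw [← hXr]
      linarith
    have h2 : d * X ≤ d * (X : ℝ) ^ 6 := by gcongr
    linarith
  obtain ⟨M, hM⟩ : ∃ M : ℕ, M = 9 * X ^ 6 := ⟨_, rfl⟩
  have hceil2 : ⌈9 / (1 / (X : ℝ) ^ 6)⌉₊ = M := by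
    have h1 : 9 / (1 / (X : ℝ) ^ 6) = ((M : ℕ) : ℝ) := by
      rw [hM, div_div_eq_mul_div, div_one]
      push_cast
      ring
    rw [h1, Nat.ceil_natCast]
  have hMr : (M : ℝ) = 9 * (X : ℝ) ^ 6 := by
    rw [hM]
    push_cast
    ring
  have hXM : (X : ℝ) ≤ 9 * (M : ℝ) := by
    rw [hMr]
    nlinarith
  obtain ⟨n0, hn0⟩ := par s (1 / (X : ℝ) ^ 6) a b0 hd1 hd1' (hd1d.trans hds) hs ha hb m0
  refine ⟨n0, fun n hn => ?_⟩
  obtain ⟨m, g, l0, r, v0, h1, h2, h3, h4, h5, h6, h7, h8, h9, h10, h11, h12, h13, h14, h15⟩ :=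
    hn0 n hn
  rw [hceil2] at h11 h12
  refine ⟨m, g, l0, r, v0, h1, h2, h3, h4, h5, h6, h7, h8, h9, h10, ?_, ?_, h13, h14, ?_⟩
  · rw [hXr]
    refine le_trans ?_ h11
    gcongr
  · rw [hXr]
    rw [hMr] at h12
    have hg2 : 2 ≤ g := by omega
    have e1 : (9 * (9 * (X : ℝ) ^ 6)) ^ g = 81 ^ g * (X : ℝ) ^ (6 * g) := by
      rw [show 9 * (9 * (X : ℝ) ^ 6) = 81 * (X : ℝ) ^ 6 by ring, mul_pow, ← pow_mul]
    rw [e1] at h12
    have h81 : (216 : ℝ) ≤ 81 ^ g := by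
      calc (216 : ℝ) ≤ 81 ^ 2 := by norm_num
        _ ≤ 81 ^ g := pow_le_pow_right₀ (by norm_num) hg2
    have hXg : (X : ℝ) ^ (3 * g + 6) ≤ (X : ℝ) ^ (6 * g) :=
      pow_le_pow_right₀ (by linarith) (by omega)
    have h16 : 216 * (X : ℝ) ^ (3 * g + 6) ≤ 81 ^ g * (X : ℝ) ^ (6 * g) := by gcongr
    have h17 : 96 * (g : ℝ) ^ 3 * (X : ℝ) ^ (3 * g) * (9 * (X : ℝ) ^ 6) ≤
        (n : ℝ) * (9 * (X : ℝ) ^ 6) := by
      refine le_trans ?_ h12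
      calc 96 * (g : ℝ) ^ 3 * (X : ℝ) ^ (3 * g) * (9 * (X : ℝ) ^ 6) =
          4 * (g : ℝ) ^ 3 * (216 * (X : ℝ) ^ (3 * g + 6)) := by
            rw [pow_add]
            ring
        _ ≤ 4 * (g : ℝ) ^ 3 * (81 ^ g * (X : ℝ) ^ (6 * g)) := by gcongr
    exact le_of_mul_le_mul_right h17 (by positivity)
  · refine le_trans ?_ h15
    have hs0 : 0 < s := lt_of_lt_of_le hd hds
    have hL2 : Real.log 2 ≤ Real.log (1 / d) := by
      apply Real.log_le_log (by norm_num)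
      rw [le_div_iff₀ hd]
      linarith
    have hl2 : 0 < Real.log 2 := Real.log_pos (by norm_num)
    have hL0 : 0 < Real.log (1 / d) := lt_of_lt_of_le hl2 hL2
    have hS0 : 0 ≤ Real.log (1 / s) := by
      apply Real.log_nonneg
      rw [le_div_iff₀ hs0]
      linarith
    have hlogD : Real.log D ≤ 3.5 * Real.log (1 / d) := by
      have e2 : Real.log D ≤ Real.log (5.5 / d) := Real.log_le_log (by linarith) hceil
      have e3 : Real.log (5.5 / d) = Real.log 5.5 + Real.log (1 / d) := by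
        rw [← Real.log_mul (by norm_num) (by positivity)]
        congr 1
        ring
      have e4 : Real.log 5.5 ≤ 2.5 * Real.log 2 := by
        have e5 : Real.log ((5.5 : ℝ) ^ 2) ≤ Real.log ((2 : ℝ) ^ 5) :=
          Real.log_le_log (by norm_num) (by norm_num)
        rw [Real.log_pow, Real.log_pow] at e5
        push_cast at e5
        linarith
      linarith
    have hlog9 : Real.log 9 ≤ 4 * Real.log (1 / d) := by
      have e5 : Real.log (9 : ℝ) ≤ Real.log ((2 : ℝ) ^ 4) :=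
        Real.log_le_log (by norm_num) (by norm_num)
      rw [Real.log_pow] at e5
      push_cast at e5
      linarith
    have hlogX : Real.log X ≤ 32 * Real.log (1 / d) := by
      have e6 : (X : ℝ) = 9 * (D : ℝ) ^ 8 := by
        rw [hX]
        push_cast
        ring
      rw [e6, Real.log_mul (by norm_num) (by positivity), Real.log_pow]
      push_cast
      linarith
    have hlogd1 : Real.log (1 / (1 / (X : ℝ) ^ 6)) ≤ 200 * Real.log (1 / d) := by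
      rw [one_div_one_div, Real.log_pow]
      push_cast
      linarith
    have hlogd10 : 0 < Real.log (1 / (1 / (X : ℝ) ^ 6)) := by
      apply Real.log_pos
      rw [one_div_one_div]
      linarith
    apply Real.rpow_le_rpow_of_exponent_le
    · have : (4096 : ℝ) ≤ n := by exact_mod_cast h1
      linarith
    · have e7 : Real.log (1 / s) / (200 * Real.log (1 / d)) ≤
          Real.log (1 / s) / Real.log (1 / (1 / (X : ℝ) ^ 6)) :=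
        div_le_div_of_nonneg_left hS0 hlogd10 hlogd1
      have e8 : Real.log (1 / s) / Real.log (1 / d) / 4000000 =
          Real.log (1 / s) / (200 * Real.log (1 / d)) / 20000 := by
        rw [div_div, div_div]
        congr 1
        ring
      rw [e8]
      linarith

end Pool.Agent.Lib.P325z
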