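import Pool.Agent.Lib.P325z.Tail
import Pool.Agent.Lib.P325L.ChBd

/-!
Module DiscC (1.3h; black box tail_one). Union bound over all pairs of sets.
PROOF. Δ = D^8. If S or T is empty then ee = 0, the mean is 0 and the inequality of Disc holds. So a π with
¬ Disc is bad for some nonempty S, T, and by tail_one the number of such π is at most
∑_{S,T nonempty} (n!)^Δ 2 exp (-3(ph S + ph T)) = 2 (n!)^Δ (∑_{a=1}^n choose n a exp (-3 ph a))^2
(group by cardinality: Finset.sum_powersetCard / Finset.sum over a ∈ Icc 1 n of powersetCard a univ).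
choose n a <= exp (ph a): choose n a <= n^a/a! and a^a/a! <= exp a (Real.pow_div_factorial_le_exp), so
choose n a <= (n/a)^a exp a (see P325L ChBd.lean: choose_le). ph n a >= ph n 1 = 1 + log n for 1 <= a <= n
(ph is increasing: a (1 + log (n/a)) - 1 - log n = (a - 1)(1 + log (n/a)) - log a >= (a-1) - log a >= 0 as
log (n/a) >= 0). So each term is <= exp (-2 ph a) <= exp (-2 - 2 log n) <= 1/(4 n^2) (exp 2 >= 4), the sum is
<= n/(4 n^2) <= 1/4 and 2 (1/4)^2 = 1/8.
-/

open scoped BigOperators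

namespace Pool.Agent.Lib.P325z

namespace DiscCAux

theorem choose_le_ph (n a : ℕ) (ha : 1 ≤ a) (han : a ≤ n) :
    (n.choose a : ℝ) ≤ Real.exp (ph n a) := by
  have ha0 : (0 : ℝ) < a := by exact_mod_cast ha
  have hn0 : (0 : ℝ) < n := by exact_mod_cast (le_trans ha han)
  have h1 := Pool.Agent.Lib.P325L.ChBdAux.choose_le n a
  have h2 : Real.exp (ph n a) = Real.exp a * (n : ℝ) ^ a / (a : ℝ) ^ a := by
    unfold ph
    rw [mul_add, mul_one, Real.exp_add, mul_div_assoc, ← div_pow]
    congr 1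
    rw [mul_comm, Real.exp_mul, Real.exp_log (div_pos hn0 ha0), Real.rpow_natCast]
  rw [h2, le_div_iff₀ (pow_pos ha0 a)]
  exact h1

theorem ph_ge (n a : ℕ) (ha : 1 ≤ a) (han : a ≤ n) : 1 + Real.log n ≤ ph n a := by
  have ha0 : (0 : ℝ) < a := by exact_mod_cast ha
  have ha1 : (1 : ℝ) ≤ a := by exact_mod_cast ha
  have hn0 : (0 : ℝ) < n := by exact_mod_cast (le_trans ha han)
  have hL : 0 ≤ Real.log ((n : ℝ) / a) := by
    apply Real.log_nonneg
    rw [le_div_iff₀ ha0, one_mul]
    exact_mod_cast han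
  have h1 : Real.log ((n : ℝ) / a) = Real.log n - Real.log a := Real.log_div hn0.ne' ha0.ne'
  have h2 : Real.log a ≤ a - 1 := Real.log_le_sub_one_of_pos ha0
  have h3 : 0 ≤ ((a : ℝ) - 1) * Real.log ((n : ℝ) / a) := mul_nonneg (by linarith) hL
  unfold ph
  have h4 : Real.log n = Real.log ((n : ℝ) / a) + Real.log a := by linarith
  rw [h4]
  nlinarith

theorem term_le (n a : ℕ) (ha : 1 ≤ a) (han : a ≤ n) :
    (n.choose a : ℝ) * Real.exp (-(3 * ph n a)) ≤ 1 / (4 * (n : ℝ)) := by
  have hn0 : (0 : ℝ) < n := by exact_mod_cast (le_trans ha han)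
  have hn1 : (1 : ℝ) ≤ n := by exact_mod_cast (le_trans ha han)
  have h1 := choose_le_ph n a ha han
  have h2 := ph_ge n a ha han
  calc (n.choose a : ℝ) * Real.exp (-(3 * ph n a))
      ≤ Real.exp (ph n a) * Real.exp (-(3 * ph n a)) :=
        mul_le_mul_of_nonneg_right h1 (Real.exp_pos _).le
    _ = Real.exp (-(2 * ph n a)) := by
        rw [← Real.exp_add]
        congr 1
        ring
    _ ≤ Real.exp (-(2 * (1 + Real.log n))) := Real.exp_le_exp.2 (by linarith)
    _ = 1 / (Real.exp 1 ^ 2 * (n : ℝ) ^ 2) := by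
        rw [Real.exp_neg, one_div]
        congr 1
        have : 2 * (1 + Real.log (n : ℝ)) = (1 + Real.log n) + (1 + Real.log n) := by ring
        rw [this, Real.exp_add, Real.exp_add, Real.exp_log hn0]
        ring
    _ ≤ 1 / (4 * (n : ℝ)) := by
        apply one_div_le_one_div_of_le (by positivity)
        have h5 : (2 : ℝ) ≤ Real.exp 1 := by
          have := Real.add_one_le_exp (1 : ℝ)
          linarith
        have h6 : (4 : ℝ) ≤ Real.exp 1 ^ 2 := by nlinarith
        have h7 : (n : ℝ) ≤ (n : ℝ) ^ 2 := by nlinarith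
        exact mul_le_mul h6 h7 hn0.le (by positivity)

theorem sum_le (n : ℕ) (hn : 1 ≤ n) :
    ∑ S ∈ (Finset.univ : Finset (Finset (Fin n))).filter (fun S => S.Nonempty),
      Real.exp (-(3 * ph n S.card)) ≤ 1 / 4 := by
  classical
  have hn0 : (0 : ℝ) < n := by exact_mod_cast hn
  let f : ℕ → ℝ := fun a => if a = 0 then 0 else Real.exp (-(3 * ph n a))
  have h1 : ∑ S ∈ (Finset.univ : Finset (Finset (Fin n))).filter (fun S => S.Nonempty),
      Real.exp (-(3 * ph n S.card)) = ∑ S ∈ (Finset.univ : Finset (Fin n)).powerset, f S.card := by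
    rw [Finset.powerset_univ, Finset.sum_filter]
    refine Finset.sum_congr rfl fun S _ => ?_
    by_cases hS : S.Nonempty
    · rw [if_pos hS]
      have : S.card ≠ 0 := by
        rw [Finset.card_ne_zero]
        exact hS
      simp only [f]
      rw [if_neg this]
    · rw [if_neg hS]
      have : S.card = 0 := by
        rw [Finset.card_eq_zero]
        exact Finset.not_nonempty_iff_eq_empty.1 hS
      simp only [f]
      rw [if_pos this]
  rw [h1, Finset.sum_powerset_apply_card, Finset.card_univ, Fintype.card_fin, Finset.sum_range_succ']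
  have h2 : n.choose 0 • f 0 = 0 := by simp [f]
  rw [h2, add_zero]
  have h3 : ∀ i ∈ Finset.range n, n.choose (i + 1) • f (i + 1) ≤ 1 / (4 * (n : ℝ)) := by
    intro i hi
    have hi' : i + 1 ≤ n := Finset.mem_range.1 hi
    have : f (i + 1) = Real.exp (-(3 * ph n (i + 1))) := by
      simp only [f]
      rw [if_neg (Nat.succ_ne_zero i)]
    rw [this, nsmul_eq_mul]
    exact term_le n (i + 1) (by omega) hi'
  refine (Finset.sum_le_sum h3).trans ?_
  rw [Finset.sum_const, Finset.card_range, nsmul_eq_mul]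
  apply le_of_eq
  field_simp

theorem disc_empty {n Δ : ℕ} {α : ℝ} (hα : 0 ≤ α) (π : Fin Δ → Equiv.Perm (Fin n))
    (S T : Finset (Fin n)) (h : ¬ (S.Nonempty ∧ T.Nonempty)) :
    |(ee π S T : ℝ) - (Δ : ℝ) * S.card * T.card / n| ≤
      α * Δ * Real.sqrt ((S.card : ℝ) * T.card) := by
  have hee : ee π S T = 0 ∧ ((S.card : ℝ) = 0 ∨ (T.card : ℝ) = 0) := by
    by_cases hS : S.Nonempty
    · have hT : T = ∅ := by
        rw [← Finset.not_nonempty_iff_eq_empty]
        exact fun hT => h ⟨hS, hT⟩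
      subst hT
      refine ⟨?_, Or.inr (by simp)⟩
      unfold ee
      rw [Finset.card_eq_zero, Finset.filter_eq_empty_iff]
      intro e _ he
      exact absurd he.2 (Finset.notMem_empty _)
    · have hS' : S = ∅ := Finset.not_nonempty_iff_eq_empty.1 hS
      subst hS'
      refine ⟨?_, Or.inl (by simp)⟩
      unfold ee
      rw [Finset.card_eq_zero, Finset.filter_eq_empty_iff]
      intro e _ he
      exact absurd he.1 (Finset.notMem_empty _)
  obtain ⟨h1, h2⟩ := hee
  have h3 : (ee π S T : ℝ) - (Δ : ℝ) * S.card * T.card / n = 0 := by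
    rw [h1]
    rcases h2 with h2 | h2 <;> rw [h2] <;> simp
  rw [h3, abs_zero]
  positivity

end DiscCAux

theorem disc_count (n D : ℕ) (hn : 1 ≤ n) (hD : 6 ≤ D) :
    ∃ B : Finset (Fin (D ^ 8) → Equiv.Perm (Fin n)),
      (B.card : ℝ) ≤ (n.factorial : ℝ) ^ (D ^ 8) / 8 ∧ ∀ π, π ∉ B → Disc (1 / (D : ℝ) ^ 2) π := by
  classical
  let P : Finset (Finset (Fin n)) := Finset.univ.filter (fun S => S.Nonempty)
  let bad : Finset (Fin n) → Finset (Fin n) → Finset (Fin (D ^ 8) → Equiv.Perm (Fin n)) :=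
    fun S T => Finset.univ.filter (fun π : Fin (D ^ 8) → Equiv.Perm (Fin n) =>
      1 / (D : ℝ) ^ 2 * ((D ^ 8 : ℕ) : ℝ) * Real.sqrt ((S.card : ℝ) * T.card) <
        |(ee π S T : ℝ) - ((D ^ 8 : ℕ) : ℝ) * S.card * T.card / n|)
  refine ⟨P.biUnion fun S => P.biUnion fun T => bad S T, ?_, ?_⟩
  · have h1 : ((P.biUnion fun S => P.biUnion fun T => bad S T).card : ℝ) ≤
        ∑ S ∈ P, ∑ T ∈ P, ((bad S T).card : ℝ) := by
      have h2 : (P.biUnion fun S => P.biUnion fun T => bad S T).card ≤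
          ∑ S ∈ P, ∑ T ∈ P, (bad S T).card :=
        Finset.card_biUnion_le.trans (Finset.sum_le_sum fun S _ => Finset.card_biUnion_le)
      exact_mod_cast h2
    refine h1.trans ?_
    have h3 : ∀ S ∈ P, ∀ T ∈ P, ((bad S T).card : ℝ) ≤
        (n.factorial : ℝ) ^ (D ^ 8) * 2 *
          (Real.exp (-(3 * ph n S.card)) * Real.exp (-(3 * ph n T.card))) := by
      intro S hS T hT
      have hS' : S.Nonempty := (Finset.mem_filter.1 hS).2
      have hT' : T.Nonempty := (Finset.mem_filter.1 hT).2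
      refine (tail_one n D hn hD S T hS' hT').trans (le_of_eq ?_)
      rw [← Real.exp_add, mul_assoc]
      congr 3
      ring
    refine (Finset.sum_le_sum fun S hS => Finset.sum_le_sum fun T hT => h3 S hS T hT).trans ?_
    have h4 : ∑ S ∈ P, ∑ T ∈ P, (n.factorial : ℝ) ^ (D ^ 8) * 2 *
          (Real.exp (-(3 * ph n S.card)) * Real.exp (-(3 * ph n T.card))) =
        (n.factorial : ℝ) ^ (D ^ 8) * 2 * ((∑ S ∈ P, Real.exp (-(3 * ph n S.card))) *
          ∑ T ∈ P, Real.exp (-(3 * ph n T.card))) := by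
      rw [Finset.sum_mul_sum, Finset.mul_sum]
      refine Finset.sum_congr rfl fun S _ => ?_
      rw [Finset.mul_sum]
    rw [h4]
    have h5 : ∑ S ∈ P, Real.exp (-(3 * ph n S.card)) ≤ 1 / 4 := DiscCAux.sum_le n hn
    have h6 : 0 ≤ ∑ S ∈ P, Real.exp (-(3 * ph n S.card)) :=
      Finset.sum_nonneg fun _ _ => (Real.exp_pos _).le
    have h7 : (∑ S ∈ P, Real.exp (-(3 * ph n S.card))) *
          (∑ T ∈ P, Real.exp (-(3 * ph n T.card))) ≤ 1 / 4 * (1 / 4) :=
      mul_le_mul h5 h5 h6 (by norm_num)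
    have h8 : (0 : ℝ) ≤ (n.factorial : ℝ) ^ (D ^ 8) := by positivity
    nlinarith
  · intro π hπ S T
    by_cases h : S.Nonempty ∧ T.Nonempty
    · by_contra hcon
      apply hπ
      rw [Finset.mem_biUnion]
      refine ⟨S, Finset.mem_filter.2 ⟨Finset.mem_univ _, h.1⟩, ?_⟩
      rw [Finset.mem_biUnion]
      refine ⟨T, Finset.mem_filter.2 ⟨Finset.mem_univ _, h.2⟩, ?_⟩
      refine Finset.mem_filter.2 ⟨Finset.mem_univ _, ?_⟩
      exact not_le.1 hcon
    · exact DiscCAux.disc_empty (by positivity) π S T h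

end Pool.Agent.Lib.P325z
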