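import Pool.Agent.Lib.P325z.TCnt
import Pool.Agent.Lib.P325z.DiscC
import Pool.Agent.Lib.P325L.SpSum

/-!
Module SelC (2h; black boxes cntP, disc_count, P325L.sp_sum). A family of permutations whose graph has no small
dense sets and small discrepancy. Adapt P325L Sel.lean (parts (2), (3), (5); there B2 R N f, SelAux).
PROOF. Δ = D^8. Bad2 π = ∑ over a, b >= 1, a + b = v ∈ [1, R] of |triples n Δ a b (v + v/N + 1) (pf π)|:
∑_π Bad2 π <= (n!)^Δ/4 exactly as in Sel.lean (cntP has the same right side as cnt with n^(nΔ) replaced by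
(n!)^Δ; sp_sum). Bad3 π = ∑ over a, b >= 1, a + b <= 2g of |triples n Δ a b (a + b + 1) (pf π)|: cntP gives
∑_π Bad3 π <= (n!)^Δ (2g)² (9Δ)^(2g+1) (2g+1)/n <= (n!)^Δ 12 g³ (9Δ)^(3g)/n <= (n!)^Δ/8 by hg
((2g+1) <= 3g, 9Δ >= 1, m/n with m = a+b+1 <= 2g+1). disc_count: the set B of π without Disc has at most (n!)^Δ/8
elements. The number of π is (n!)^Δ > (1/4 + 1/8 + 1/8)(n!)^Δ, so some π ∉ B has Bad2 π = 0 and Bad3 π = 0
(natural numbers; indicator of B + Bad2 + Bad3 >= 1 for all π otherwise). Dense sets: if C has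
v = |verts C| <= 2g and |C| >= v + 1, then C is nonempty (v + 1 >= 1), a = |C.image fst|, b = |C.image f| >= 1,
a + b = v (SelAux.verts_card), and a subset of C with v + 1 elements is a triple of Bad3. Sparsity: as in
Sel.lean (5): if N|H| > (N+1)v then |H| >= v + v/N + 1 and there is a triple of Bad2.
-/

open scoped BigOperators

namespace Pool.Agent.Lib.P325z

open Pool.Agent.Lib.P325L (bg)

namespace SelCAux

open Pool.Agent.Lib.P325L (triples sp_sum)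
open Pool.Agent.Lib.P325L.SelAux (B2 verts_card)

theorem sum_B2P (n Δ R N : ℕ) (hn : 4096 ≤ n) (hN1 : 1 ≤ N) (hR : 9 * R ^ 2 ≤ n)
    (hN : (2 * (9 * (Δ : ℝ)) ^ 3) ^ (4 * N) ≤ n) (hΔ : 1 ≤ Δ) :
    (∑ π : Fin Δ → Equiv.Perm (Fin n), ((B2 R N (pf π) : ℕ) : ℝ)) ≤
      (n.factorial : ℝ) ^ Δ * (1 / 4) := by
  have hΔr : (1 : ℝ) ≤ (Δ : ℝ) := by exact_mod_cast hΔ
  have h9 : (1 : ℝ) ≤ 9 * (Δ : ℝ) := by linarith
  have hnr : (0 : ℝ) < (n : ℝ) := by
    have : (4096 : ℝ) ≤ (n : ℝ) := by exact_mod_cast hn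
    linarith
  have hpow : (0 : ℝ) ≤ (n.factorial : ℝ) ^ Δ := by positivity
  have step1 : (∑ π : Fin Δ → Equiv.Perm (Fin n), ((B2 R N (pf π) : ℕ) : ℝ)) =
      ∑ v ∈ Finset.Icc 1 R, ∑ a ∈ Finset.Icc 1 (v - 1), ∑ π : Fin Δ → Equiv.Perm (Fin n),
        ((triples n Δ a (v - a) (v + v / N + 1) (pf π)).card : ℝ) := by
    unfold B2
    push_cast
    rw [Finset.sum_comm]
    refine Finset.sum_congr rfl (fun v _ => ?_)
    rw [Finset.sum_comm]
  rw [step1]
  have step2 : ∀ v ∈ Finset.Icc 1 R,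
      (∑ a ∈ Finset.Icc 1 (v - 1), ∑ π : Fin Δ → Equiv.Perm (Fin n),
        ((triples n Δ a (v - a) (v + v / N + 1) (pf π)).card : ℝ)) ≤
      (n.factorial : ℝ) ^ Δ * ((v : ℝ) * ((9 * (Δ : ℝ)) ^ (3 * v) *
        (3 * (v : ℝ) / n) ^ (v / N + 1))) := by
    intro v hv
    rw [Finset.mem_Icc] at hv
    have hdiv : v / N ≤ v := Nat.div_le_self v N
    have hm3 : v + v / N + 1 ≤ 3 * v := by omega
    have hterm : ∀ a ∈ Finset.Icc 1 (v - 1), (∑ π : Fin Δ → Equiv.Perm (Fin n),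
        ((triples n Δ a (v - a) (v + v / N + 1) (pf π)).card : ℝ)) ≤
        (n.factorial : ℝ) ^ Δ * ((9 * (Δ : ℝ)) ^ (3 * v) *
          (3 * (v : ℝ) / n) ^ (v / N + 1)) := by
      intro a ha
      rw [Finset.mem_Icc] at ha
      have hb : 1 ≤ v - a := by omega
      have hab : a + (v - a) ≤ v + v / N + 1 := by
        have h0 : a + (v - a) = v := by omega
        rw [h0, Nat.add_assoc]
        exact Nat.le_add_right _ _
      refine (cntP n Δ a (v - a) (v + v / N + 1) (by omega) ha.1 hb hab).trans ?_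
      refine mul_le_mul_of_nonneg_left ?_ hpow
      have hexp : v + v / N + 1 - (a + (v - a)) = v / N + 1 := by
        have h0 : a + (v - a) = v := by omega
        rw [h0, Nat.add_assoc, Nat.add_sub_cancel_left]
      rw [hexp]
      have e1 : (9 * (Δ : ℝ)) ^ (v + v / N + 1) ≤ (9 * (Δ : ℝ)) ^ (3 * v) :=
        pow_le_pow_right₀ h9 hm3
      have e2 : (((v + v / N + 1 : ℕ) : ℝ) / n) ^ (v / N + 1) ≤
          (3 * (v : ℝ) / n) ^ (v / N + 1) := by
        refine pow_le_pow_left₀ (by positivity) ?_ _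
        refine div_le_div_of_nonneg_right ?_ hnr.le
        exact_mod_cast hm3
      exact mul_le_mul e1 e2 (by positivity) (by positivity)
    refine (Finset.sum_le_sum hterm).trans ?_
    rw [Finset.sum_const, nsmul_eq_mul, Nat.card_Icc]
    have hc : (((v - 1 + 1 - 1 : ℕ)) : ℝ) ≤ (v : ℝ) := by
      exact_mod_cast (by omega : v - 1 + 1 - 1 ≤ v)
    calc (((v - 1 + 1 - 1 : ℕ)) : ℝ) * ((n.factorial : ℝ) ^ Δ * ((9 * (Δ : ℝ)) ^ (3 * v) *
          (3 * (v : ℝ) / n) ^ (v / N + 1)))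
        ≤ (v : ℝ) * ((n.factorial : ℝ) ^ Δ * ((9 * (Δ : ℝ)) ^ (3 * v) *
          (3 * (v : ℝ) / n) ^ (v / N + 1))) := mul_le_mul_of_nonneg_right hc (by positivity)
      _ = _ := by ring
  refine (Finset.sum_le_sum step2).trans ?_
  rw [← Finset.mul_sum]
  exact mul_le_mul_of_nonneg_left (sp_sum n Δ R N hn hN1 hR hN hΔ) hpow

/-- index set for the small dense sets -/
def I3 (g : ℕ) : Finset (ℕ × ℕ) :=
  (Finset.Icc 1 (2 * g) ×ˢ Finset.Icc 1 (2 * g)).filter (fun q => q.1 + q.2 ≤ 2 * g)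

theorem I3_card (g : ℕ) : (I3 g).card ≤ 4 * g ^ 2 := by
  refine (Finset.card_filter_le _ _).trans ?_
  rw [Finset.card_product, Nat.card_Icc]
  exact le_of_eq (by
    rw [Nat.add_sub_cancel]
    ring)

/-- number of dense triples with at most `2 g` vertices -/
def B3 {n Δ : ℕ} (g : ℕ) (f : Fin n × Fin Δ → Fin n) : ℕ :=
  ∑ q ∈ I3 g, (triples n Δ q.1 q.2 (q.1 + q.2 + 1) f).card

theorem sum_B3P (n Δ g : ℕ) (hn : 1 ≤ n) (hg1 : 1 ≤ g) (hΔ : 1 ≤ Δ)
    (hg : 96 * (g : ℝ) ^ 3 * (9 * (Δ : ℝ)) ^ (3 * g) ≤ n) :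
    (∑ π : Fin Δ → Equiv.Perm (Fin n), ((B3 g (pf π) : ℕ) : ℝ)) ≤
      (n.factorial : ℝ) ^ Δ * (1 / 8) := by
  have hΔr : (1 : ℝ) ≤ (Δ : ℝ) := by exact_mod_cast hΔ
  have h9 : (1 : ℝ) ≤ 9 * (Δ : ℝ) := by linarith
  have hnr : (0 : ℝ) < (n : ℝ) := by exact_mod_cast (by omega : 0 < n)
  have hgr : (1 : ℝ) ≤ (g : ℝ) := by exact_mod_cast hg1
  have hpow : (0 : ℝ) ≤ (n.factorial : ℝ) ^ Δ := by positivity
  have step1 : (∑ π : Fin Δ → Equiv.Perm (Fin n), ((B3 g (pf π) : ℕ) : ℝ)) =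
      ∑ q ∈ I3 g, ∑ π : Fin Δ → Equiv.Perm (Fin n),
        ((triples n Δ q.1 q.2 (q.1 + q.2 + 1) (pf π)).card : ℝ) := by
    unfold B3
    push_cast
    rw [Finset.sum_comm]
  rw [step1]
  have step2 : ∀ q ∈ I3 g, (∑ π : Fin Δ → Equiv.Perm (Fin n),
        ((triples n Δ q.1 q.2 (q.1 + q.2 + 1) (pf π)).card : ℝ)) ≤
      (n.factorial : ℝ) ^ Δ * ((9 * (Δ : ℝ)) ^ (3 * g) * (3 * (g : ℝ) / n)) := by
    intro q hq
    simp only [I3, Finset.mem_filter, Finset.mem_product, Finset.mem_Icc] at hq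
    obtain ⟨⟨⟨ha, -⟩, ⟨hb, -⟩⟩, hab⟩ := hq
    refine (cntP n Δ q.1 q.2 (q.1 + q.2 + 1) hn ha hb (by omega)).trans ?_
    refine mul_le_mul_of_nonneg_left ?_ hpow
    have hexp : q.1 + q.2 + 1 - (q.1 + q.2) = 1 := by omega
    rw [hexp, pow_one]
    have e1 : (9 * (Δ : ℝ)) ^ (q.1 + q.2 + 1) ≤ (9 * (Δ : ℝ)) ^ (3 * g) :=
      pow_le_pow_right₀ h9 (by omega)
    have e2 : (((q.1 + q.2 + 1 : ℕ) : ℝ) / n) ≤ 3 * (g : ℝ) / n := by
      refine div_le_div_of_nonneg_right ?_ hnr.le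
      exact_mod_cast (by omega : q.1 + q.2 + 1 ≤ 3 * g)
    exact mul_le_mul e1 e2 (by positivity) (by positivity)
  refine (Finset.sum_le_sum step2).trans ?_
  rw [Finset.sum_const, nsmul_eq_mul]
  have hc : ((I3 g).card : ℝ) ≤ 4 * (g : ℝ) ^ 2 := by exact_mod_cast I3_card g
  calc ((I3 g).card : ℝ) * ((n.factorial : ℝ) ^ Δ * ((9 * (Δ : ℝ)) ^ (3 * g) *
        (3 * (g : ℝ) / n)))
      ≤ (4 * (g : ℝ) ^ 2) * ((n.factorial : ℝ) ^ Δ * ((9 * (Δ : ℝ)) ^ (3 * g) *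
        (3 * (g : ℝ) / n))) := mul_le_mul_of_nonneg_right hc (by positivity)
    _ = (n.factorial : ℝ) ^ Δ * ((96 * (g : ℝ) ^ 3 * (9 * (Δ : ℝ)) ^ (3 * g)) / n * (1 / 8)) := by
        ring
    _ ≤ (n.factorial : ℝ) ^ Δ * (1 / 8) := by
        refine mul_le_mul_of_nonneg_left ?_ hpow
        have h1 : (96 * (g : ℝ) ^ 3 * (9 * (Δ : ℝ)) ^ (3 * g)) / n ≤ 1 := by
          rw [div_le_one hnr]
          exact hg
        linarith

theorem dense_of_B3 {n Δ : ℕ} (g : ℕ) (f : Fin n × Fin Δ → Fin n) (h : B3 g f = 0)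
    (C : Finset (Fin n × Fin Δ)) (hC : ((bg f).verts C).card ≤ 2 * g) :
    C.card ≤ ((bg f).verts C).card := by
  by_contra hlt
  rw [verts_card] at hlt hC
  have hne : C.Nonempty := by
    rw [← Finset.card_pos]
    omega
  have hA : 1 ≤ (C.image Prod.fst).card := (hne.image _).card_pos
  have hB : 1 ≤ (C.image f).card := (hne.image _).card_pos
  obtain ⟨C', hCC, hCc⟩ := Finset.exists_subset_card_eq
    (show (C.image Prod.fst).card + (C.image f).card + 1 ≤ C.card by omega)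
  have hmem : (C.image Prod.fst, C.image f, C') ∈
      triples n Δ (C.image Prod.fst).card (C.image f).card
        ((C.image Prod.fst).card + (C.image f).card + 1) f := by
    simp only [triples, Finset.mem_filter, Finset.mem_univ, true_and]
    exact ⟨hCc, fun e he => Finset.mem_image_of_mem _ (hCC he),
      fun e he => Finset.mem_image_of_mem _ (hCC he)⟩
  unfold B3 at h
  have hz := Finset.sum_eq_zero_iff.mp h ((C.image Prod.fst).card, (C.image f).card) (by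
    simp only [I3, Finset.mem_filter, Finset.mem_product, Finset.mem_Icc]
    exact ⟨⟨⟨hA, by omega⟩, ⟨hB, by omega⟩⟩, hC⟩)
  rw [Finset.card_eq_zero] at hz
  have hz' : triples n Δ (C.image Prod.fst).card (C.image f).card
        ((C.image Prod.fst).card + (C.image f).card + 1) f = ∅ := hz
  rw [hz'] at hmem
  exact absurd hmem (Finset.notMem_empty _)

theorem sparse_of_B2 {n Δ : ℕ} (R N : ℕ) (f : Fin n × Fin Δ → Fin n) (hf2 : B2 R N f = 0)
    (H : Finset (Fin n × Fin Δ)) (hHR : ((bg f).verts H).card ≤ R) :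
    N * H.card ≤ (N + 1) * ((bg f).verts H).card := by
  by_contra hlt
  have hlt' : (N + 1) * ((bg f).verts H).card < N * H.card := not_le.mp hlt
  rw [verts_card] at hlt' hHR
  set v : ℕ := (H.image Prod.fst).card + (H.image f).card with hv
  have hne : H.Nonempty := by
    rw [← Finset.card_pos]
    by_contra h0
    have : H.card = 0 := by omega
    rw [this] at hlt'
    omega
  have hA : 1 ≤ (H.image Prod.fst).card := (hne.image _).card_pos
  have hB : 1 ≤ (H.image f).card := (hne.image _).card_pos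
  have hcard : v + v / N + 1 ≤ H.card := by
    by_contra h
    have h1 : H.card ≤ v + v / N := by omega
    have h2 : N * H.card ≤ N * (v + v / N) := Nat.mul_le_mul_left N h1
    have h3 : N * (v / N) ≤ v := Nat.mul_div_le v N
    have h4 : N * (v + v / N) = N * v + N * (v / N) := by ring
    have h5 : (N + 1) * v = N * v + v := by ring
    omega
  obtain ⟨C, hCH, hCc⟩ := Finset.exists_subset_card_eq hcard
  have hmem : (H.image Prod.fst, H.image f, C) ∈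
      triples n Δ (H.image Prod.fst).card (v - (H.image Prod.fst).card) (v + v / N + 1) f := by
    simp only [triples, Finset.mem_filter, Finset.mem_univ, true_and]
    refine ⟨by omega, hCc, fun e he => Finset.mem_image_of_mem _ (hCH he),
      fun e he => Finset.mem_image_of_mem _ (hCH he)⟩
  have hz : ∀ v' ∈ Finset.Icc 1 R, ∑ a ∈ Finset.Icc 1 (v' - 1),
      (triples n Δ a (v' - a) (v' + v' / N + 1) f).card = 0 := by
    have := hf2
    unfold B2 at this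
    exact Finset.sum_eq_zero_iff.mp this
  have hz1 := hz v (Finset.mem_Icc.mpr ⟨by omega, hHR⟩)
  have hz2 := Finset.sum_eq_zero_iff.mp hz1 (H.image Prod.fst).card
    (Finset.mem_Icc.mpr ⟨hA, by omega⟩)
  rw [Finset.card_eq_zero] at hz2
  rw [hz2] at hmem
  exact absurd hmem (Finset.notMem_empty _)

theorem card_fam (n Δ : ℕ) : (Fintype.card (Fin Δ → Equiv.Perm (Fin n)) : ℝ) =
    (n.factorial : ℝ) ^ Δ := by
  rw [Fintype.card_fun, Fintype.card_perm, Fintype.card_fin, Fintype.card_fin]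
  push_cast
  rfl

theorem exists_good (n Δ : ℕ) (B : Finset (Fin Δ → Equiv.Perm (Fin n)))
    (hB : (B.card : ℝ) ≤ (n.factorial : ℝ) ^ Δ / 8) (u w : (Fin Δ → Equiv.Perm (Fin n)) → ℕ)
    (hu : (∑ π, ((u π : ℕ) : ℝ)) ≤ (n.factorial : ℝ) ^ Δ * (1 / 4))
    (hw : (∑ π, ((w π : ℕ) : ℝ)) ≤ (n.factorial : ℝ) ^ Δ * (1 / 8)) :
    ∃ π, π ∉ B ∧ u π = 0 ∧ w π = 0 := by
  classical
  by_contra hcon
  push Not at hcon
  have hPpos : (0 : ℝ) < (n.factorial : ℝ) ^ Δ :=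
    pow_pos (by exact_mod_cast Nat.factorial_pos n) _
  have hall : ∀ π : Fin Δ → Equiv.Perm (Fin n), (1 : ℝ) ≤
      (if π ∈ B then (1 : ℝ) else 0) + ((u π : ℕ) : ℝ) + ((w π : ℕ) : ℝ) := by
    intro π
    have hu0 : (0 : ℝ) ≤ ((u π : ℕ) : ℝ) := Nat.cast_nonneg _
    have hw0 : (0 : ℝ) ≤ ((w π : ℕ) : ℝ) := Nat.cast_nonneg _
    by_cases h : π ∈ B
    · rw [if_pos h]
      linarith
    · rw [if_neg h]
      by_cases h2 : u π = 0
      · have h3 : 1 ≤ w π := Nat.one_le_iff_ne_zero.mpr (hcon π h h2)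
        have h4 : (1 : ℝ) ≤ ((w π : ℕ) : ℝ) := by exact_mod_cast h3
        linarith
      · have h3 : 1 ≤ u π := Nat.one_le_iff_ne_zero.mpr h2
        have h4 : (1 : ℝ) ≤ ((u π : ℕ) : ℝ) := by exact_mod_cast h3
        linarith
  have hsum : (n.factorial : ℝ) ^ Δ ≤ ∑ π : Fin Δ → Equiv.Perm (Fin n),
      ((if π ∈ B then (1 : ℝ) else 0) + ((u π : ℕ) : ℝ) + ((w π : ℕ) : ℝ)) := by
    calc (n.factorial : ℝ) ^ Δ = ∑ _π : Fin Δ → Equiv.Perm (Fin n), (1 : ℝ) := by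
          rw [Finset.sum_const, nsmul_eq_mul, mul_one, Finset.card_univ, card_fam]
      _ ≤ _ := Finset.sum_le_sum (fun π _ => hall π)
  rw [Finset.sum_add_distrib, Finset.sum_add_distrib] at hsum
  have h1 : (∑ π : Fin Δ → Equiv.Perm (Fin n), (if π ∈ B then (1 : ℝ) else 0)) = (B.card : ℝ) := by
    rw [Finset.sum_ite_mem, Finset.univ_inter, Finset.sum_const, nsmul_eq_mul, mul_one]
  rw [h1] at hsum
  linarith

end SelCAux

theorem selC (n D g R N : ℕ) (hD : 6 ≤ D) (hn : 4096 ≤ n) (hN1 : 1 ≤ N) (hR : 9 * R ^ 2 ≤ n)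
    (hg1 : 1 ≤ g) (hN : (2 * (9 * ((D ^ 8 : ℕ) : ℝ)) ^ 3) ^ (4 * N) ≤ n)
    (hg : 96 * (g : ℝ) ^ 3 * (9 * ((D ^ 8 : ℕ) : ℝ)) ^ (3 * g) ≤ n) :
    ∃ π : Fin (D ^ 8) → Equiv.Perm (Fin n), Disc (1 / (D : ℝ) ^ 2) π ∧
      (∀ C : Finset (Fin n × Fin (D ^ 8)), ((bg (pf π)).verts C).card ≤ 2 * g →
        C.card ≤ ((bg (pf π)).verts C).card) ∧
      ∀ H : Finset (Fin n × Fin (D ^ 8)), ((bg (pf π)).verts H).card ≤ R →
        N * H.card ≤ (N + 1) * ((bg (pf π)).verts H).card := by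
  have hD8 : 1 ≤ D ^ 8 := Nat.one_le_pow _ _ (by omega)
  obtain ⟨B, hB, hBd⟩ := disc_count n D (by omega) hD
  obtain ⟨π, h1, h2, h3⟩ := SelCAux.exists_good n (D ^ 8) B hB
    (fun π => Pool.Agent.Lib.P325L.SelAux.B2 R N (pf π)) (fun π => SelCAux.B3 g (pf π))
    (SelCAux.sum_B2P n (D ^ 8) R N hn hN1 hR hN hD8)
    (SelCAux.sum_B3P n (D ^ 8) g (by omega) hg1 hD8 hg)
  exact ⟨π, hBd π h1, fun C hC => SelCAux.dense_of_B3 g (pf π) h3 C hC,
    fun H hH => SelCAux.sparse_of_B2 R N (pf π) h2 H hH⟩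

end Pool.Agent.Lib.P325z
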