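import Pool.Agent.Lib.P325z.Defs
import Pool.Agent.Lib.P325x.Defs

/-!
Module Spec (1.5h). The second eigenvalue after deleting a matching Del.
PROOF. Write sums over all edges e : Fin n × Fin Δ and over E' = complement of Del (the subtype {e // e ∉ Del}:
Finset.sum_subtype / Finset.sum_subtype_of_mem, ∑_{E'} = ∑_E - ∑_Del). P = ∑_x φ x ^2, Q = ∑_y ψ y^2 with
φ = f, ψ = g. For any u : Fin n → ℝ: ∑_E u e.1 = Δ ∑_x u x and ∑_E u (pf π e) = Δ ∑_y u y (each π j is a bijection: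
Equiv.sum_comp). As Del meets every left (right) vertex at most once: ∑_{e ∈ Del} |u e.1| <= ∑_x |u x|,
∑_{e ∈ Del} u e.1 ^2 <= ∑_x u x^2, same on the right (Finset.sum_le_sum_of_injOn / sum over the image).
Let c = (∑ φ)/n, c' = (∑ ψ)/n (n >= 1, else trivial: no edges). The hypothesis ∑_{E'} φ = 0 gives
Δ n c = ∑_E φ = ∑_Del φ, |Δ n c| <= ∑ |φ| <= sqrt(n P); in the same way |Δ n c'| <= sqrt(n Q). So
|c c'| n Δ <= sqrt(P Q)/Δ <= (P + Q)/2. ∑_E φ ψ = ∑_E (φ - c) ψ + c ∑_E ψ, the first sum is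
<= μ0 Δ ((∑(φ-c)²) + Q)/2 <= μ0 Δ (P + Q)/2 by h (∑ (φ - c) = 0, ∑ (φ-c)² <= P, μ0 >= 0), the second is c Δ n c'
<= (P+Q)/2. -∑_Del φ ψ <= ∑_Del (φ² + ψ²)/2 <= (P+Q)/2. Total ∑_{E'} φ ψ <= (μ0 Δ + 2)(P+Q)/2
<= μ (Δ - 1)(P + Q)/2, and ∑_{E'} φ² = Δ P - ∑_Del φ² >= (Δ - 1) P, same for Q; μ >= 0 (from hμ, Δ >= 2).
-/

open scoped BigOperators

namespace Pool.Agent.Lib.P325z

open Pool.Agent.Lib.P325x (Game)

theorem spec {n Δ : ℕ} {Ω : Type} (π : Fin Δ → Equiv.Perm (Fin n)) (μ0 μ : ℝ) (hμ0 : 0 ≤ μ0)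
    (h : ∀ φ ψ : Fin n → ℝ, ∑ x, φ x = 0 → ∑ e : Fin n × Fin Δ, φ e.1 * ψ (pf π e) ≤
      μ0 * Δ * ((∑ x, φ x ^ 2 + ∑ y, ψ y ^ 2) / 2))
    (Del : Finset (Fin n × Fin Δ)) (h1 : ∀ e ∈ Del, ∀ e' ∈ Del, e.1 = e'.1 → e = e')
    (h2 : ∀ e ∈ Del, ∀ e' ∈ Del, pf π e = pf π e' → e = e') (hΔ : 2 ≤ Δ)
    (hμ : μ0 * Δ + 2 ≤ μ * ((Δ : ℝ) - 1)) (p : {e : Fin n × Fin Δ // e ∉ Del} → Equiv.Perm Ω) :
    (Game.mk (fun e : {e : Fin n × Fin Δ // e ∉ Del} => e.1.1) (fun e => pf π e.1) p).SecondEigenvalueLE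
      μ := by
  intro f g hf hg
  change ∑ e : {e : Fin n × Fin Δ // e ∉ Del}, f e.1.1 = 0 at hf
  change ∑ e : {e : Fin n × Fin Δ // e ∉ Del}, g (pf π e.1) = 0 at hg
  change ∑ e : {e : Fin n × Fin Δ // e ∉ Del}, f e.1.1 * g (pf π e.1) ≤
    μ * ((∑ e : {e : Fin n × Fin Δ // e ∉ Del}, f e.1.1 ^ 2 +
      ∑ e : {e : Fin n × Fin Δ // e ∉ Del}, g (pf π e.1) ^ 2) / 2)
  have hsub : ∀ F : Fin n × Fin Δ → ℝ, ∑ e : {e : Fin n × Fin Δ // e ∉ Del}, F e.1 =
      ∑ e, F e - ∑ e ∈ Del, F e := by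
    intro F
    have ha : ∑ e : {e : Fin n × Fin Δ // e ∉ Del}, F e.1 = ∑ e ∈ Delᶜ, F e := by
      refine (Finset.sum_subtype (Delᶜ) (fun x => ?_) F).symm
      simp
    rw [ha, eq_sub_iff_add_eq, Finset.sum_compl_add_sum]
  have hA : ∀ u : Fin n → ℝ, ∑ e : Fin n × Fin Δ, u e.1 = Δ * ∑ x, u x := by
    intro u
    rw [Fintype.sum_prod_type]
    simp [Finset.mul_sum]
  have hB : ∀ u : Fin n → ℝ, ∑ e : Fin n × Fin Δ, u (pf π e) = Δ * ∑ x, u x := by
    intro u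
    rw [Fintype.sum_prod_type_right]
    have : ∀ j : Fin Δ, ∑ i : Fin n, u (pf π (i, j)) = ∑ x, u x := by
      intro j
      exact Equiv.sum_comp (π j) u
    simp only [this]
    simp
  have hC : ∀ u : Fin n → ℝ, (∀ x, 0 ≤ u x) → ∑ e ∈ Del, u e.1 ≤ ∑ x, u x := by
    intro u hu
    have : ∑ e ∈ Del, u e.1 = ∑ x ∈ Del.image Prod.fst, u x := by
      rw [Finset.sum_image]
      intro e he e' he' hee
      exact h1 e he e' he' hee
    rw [this]
    exact Finset.sum_le_sum_of_subset_of_nonneg (Finset.subset_univ _) (fun x _ _ => hu x)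
  have hD : ∀ u : Fin n → ℝ, (∀ x, 0 ≤ u x) → ∑ e ∈ Del, u (pf π e) ≤ ∑ x, u x := by
    intro u hu
    have : ∑ e ∈ Del, u (pf π e) = ∑ x ∈ Del.image (pf π), u x := by
      rw [Finset.sum_image]
      intro e he e' he' hee
      exact h2 e he e' he' hee
    rw [this]
    exact Finset.sum_le_sum_of_subset_of_nonneg (Finset.subset_univ _) (fun x _ _ => hu x)
  have hΔR : (2 : ℝ) ≤ Δ := by exact_mod_cast hΔ
  set P : ℝ := ∑ x, f x ^ 2 with hP
  set Q : ℝ := ∑ y, g y ^ 2 with hQ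
  have hP0 : 0 ≤ P := Finset.sum_nonneg (fun x _ => sq_nonneg _)
  have hQ0 : 0 ≤ Q := Finset.sum_nonneg (fun x _ => sq_nonneg _)
  rw [hsub (fun e => f e.1), hA] at hf
  rw [hsub (fun e => g (pf π e)), hB] at hg
  set S : ℝ := ∑ x, f x with hS
  set T : ℝ := ∑ y, g y with hT
  -- Cauchy-Schwarz
  have hcs : ∀ u : Fin n → ℝ, (∑ x, |u x|) ^ 2 ≤ n * ∑ x, u x ^ 2 := by
    intro u
    have := sq_sum_le_card_mul_sum_sq (s := (Finset.univ : Finset (Fin n))) (f := fun x => |u x|)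
    simpa [sq_abs] using this
  have hfS : (Δ * S) ^ 2 ≤ n * P := by
    have e1 : |(Δ : ℝ) * S| ≤ ∑ x, |f x| := by
      have : (Δ : ℝ) * S = ∑ e ∈ Del, f e.1 := by linarith
      rw [this]
      exact (Finset.abs_sum_le_sum_abs _ _).trans (hC (fun x => |f x|) (fun x => abs_nonneg _))
    calc (Δ * S) ^ 2 = |(Δ : ℝ) * S| ^ 2 := (sq_abs _).symm
      _ ≤ (∑ x, |f x|) ^ 2 := pow_le_pow_left₀ (abs_nonneg _) e1 2
      _ ≤ n * P := hcs f
  have hgT : (Δ * T) ^ 2 ≤ n * Q := by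
    have e1 : |(Δ : ℝ) * T| ≤ ∑ x, |g x| := by
      have : (Δ : ℝ) * T = ∑ e ∈ Del, g (pf π e) := by linarith
      rw [this]
      exact (Finset.abs_sum_le_sum_abs _ _).trans (hD (fun x => |g x|) (fun x => abs_nonneg _))
    calc (Δ * T) ^ 2 = |(Δ : ℝ) * T| ^ 2 := (sq_abs _).symm
      _ ≤ (∑ x, |g x|) ^ 2 := pow_le_pow_left₀ (abs_nonneg _) e1 2
      _ ≤ n * Q := hcs g
  -- the main term
  have hmain : ∑ e : Fin n × Fin Δ, f e.1 * g (pf π e) ≤ (μ0 * Δ + 1) * ((P + Q) / 2) := by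
    rcases Nat.eq_zero_or_pos n with hn | hn
    · subst hn
      have : ∑ e : Fin 0 × Fin Δ, f e.1 * g (pf π e) = 0 := by
        apply Finset.sum_eq_zero
        intro e _
        exact e.1.elim0
      rw [this]
      positivity
    · have hnR : (0 : ℝ) < n := by exact_mod_cast hn
      set c : ℝ := S / n with hc
      have hsum0 : ∑ x, (f x - c) = 0 := by
        rw [Finset.sum_sub_distrib]
        simp only [Finset.sum_const, Finset.card_univ, Fintype.card_fin, nsmul_eq_mul]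
        rw [hc, mul_div_cancel₀ _ hnR.ne']
        linarith
      have hsq : ∑ x, (f x - c) ^ 2 ≤ P := by
        have e1 : ∑ x, (f x - c) ^ 2 = P - n * c ^ 2 := by
          have : ∀ x, (f x - c) ^ 2 = f x ^ 2 - 2 * c * f x + c ^ 2 := by
            intro x
            ring
          simp only [this, Finset.sum_add_distrib, Finset.sum_sub_distrib, ← Finset.mul_sum,
            Finset.sum_const, Finset.card_univ, Fintype.card_fin, nsmul_eq_mul]
          rw [← hP, ← hS]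
          have : S = n * c := by
            rw [hc, mul_div_cancel₀ _ hnR.ne']
          rw [this]
          ring
        rw [e1]
        have : 0 ≤ n * c ^ 2 := by positivity
        linarith
      have e2 : ∑ e : Fin n × Fin Δ, f e.1 * g (pf π e) =
          ∑ e : Fin n × Fin Δ, (f e.1 - c) * g (pf π e) + c * (Δ * T) := by
        rw [← hB g, Finset.mul_sum, ← Finset.sum_add_distrib]
        apply Finset.sum_congr rfl
        intro e _
        ring
      have e3 := h (fun x => f x - c) g hsum0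
      have e4 : μ0 * Δ * ((∑ x, (f x - c) ^ 2 + ∑ y, g y ^ 2) / 2) ≤
          μ0 * Δ * ((P + Q) / 2) := by
        apply mul_le_mul_of_nonneg_left _ (by positivity)
        rw [← hQ]
        linarith
      have e5 : c * (Δ * T) ≤ (P + Q) / 2 := by
        have e6 : (Δ * S) * (Δ * T) ≤ n * ((P + Q) / 2) := by
          nlinarith [sq_nonneg ((Δ : ℝ) * S - Δ * T)]
        have e7 : c * (Δ * T) = ((Δ * S) * (Δ * T)) / (Δ * n) := by
          rw [hc]
          field_simp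
        rw [e7, div_le_iff₀ (by positivity)]
        calc (Δ * S) * (Δ * T) ≤ n * ((P + Q) / 2) := e6
          _ ≤ (P + Q) / 2 * (Δ * n) := by
            have : 0 ≤ (n : ℝ) * ((P + Q) / 2) := by positivity
            nlinarith
      rw [e2]
      have e8 : (μ0 * Δ + 1) * ((P + Q) / 2) = μ0 * Δ * ((P + Q) / 2) + (P + Q) / 2 := by ring
      rw [e8]
      linarith
  have hdel : -∑ e ∈ Del, f e.1 * g (pf π e) ≤ (P + Q) / 2 := by
    rw [← Finset.sum_neg_distrib]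
    calc ∑ e ∈ Del, -(f e.1 * g (pf π e)) ≤ ∑ e ∈ Del, (f e.1 ^ 2 + g (pf π e) ^ 2) / 2 := by
          apply Finset.sum_le_sum
          intro e _
          nlinarith [sq_nonneg (f e.1 + g (pf π e))]
      _ = (∑ e ∈ Del, f e.1 ^ 2 + ∑ e ∈ Del, g (pf π e) ^ 2) / 2 := by
          rw [← Finset.sum_div, Finset.sum_add_distrib]
      _ ≤ (P + Q) / 2 := by
          have a1 := hC (fun x => f x ^ 2) (fun x => sq_nonneg _)
          have a2 := hD (fun x => g x ^ 2) (fun x => sq_nonneg _)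
          rw [← hP] at a1
          rw [← hQ] at a2
          linarith
  have hμnn : 0 ≤ μ := by
    by_contra hneg
    push Not at hneg
    have : 0 ≤ μ0 * Δ := by positivity
    nlinarith
  rw [hsub (fun e => f e.1 * g (pf π e)), hsub (fun e => f e.1 ^ 2),
    hsub (fun e => g (pf π e) ^ 2), hA (fun x => f x ^ 2), hB (fun x => g x ^ 2), ← hP, ← hQ]
  have a1 := hC (fun x => f x ^ 2) (fun x => sq_nonneg _)
  have a2 := hD (fun x => g x ^ 2) (fun x => sq_nonneg _)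
  rw [← hP] at a1
  rw [← hQ] at a2
  have hlow : (μ0 * Δ + 2) * ((P + Q) / 2) ≤ μ * ((Δ : ℝ) - 1) * ((P + Q) / 2) :=
    mul_le_mul_of_nonneg_right hμ (by positivity)
  have hup : μ * ((Δ : ℝ) - 1) * ((P + Q) / 2) ≤
      μ * ((Δ * P - ∑ e ∈ Del, f e.1 ^ 2 + (Δ * Q - ∑ e ∈ Del, g (pf π e) ^ 2)) / 2) := by
    rw [mul_assoc]
    apply mul_le_mul_of_nonneg_left _ hμnn
    linarith
  have e9 : (μ0 * Δ + 2) * ((P + Q) / 2) = (μ0 * Δ + 1) * ((P + Q) / 2) + (P + Q) / 2 := by ring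
  linarith

end Pool.Agent.Lib.P325z
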