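import Pool.Agent.Lib.P325L.Main
import Pool.Agent.Lib.P325z.Spec
import Pool.Agent.Lib.P325z.MixR
import Pool.Agent.Lib.P325z.DelEx
import Pool.Agent.Lib.P325z.SelC
import Pool.Agent.Lib.P325z.NumE

/-!
Module MainED: Sherali-Adams solutions on bounded degree expanders, i.e. mainE with a bound for the degrees. Sherali-Adams solutions of linear degree on unique games whose graph has a small second
eigenvalue. The proof follows P325L Main.lean; the graph is given by random permutations and the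
deleted edges form a matching.
-/

open scoped BigOperators

namespace Pool.Agent.Lib.P325z

open Pool.Agent.Lib.P325L Pool.Agent.Lib.P325L.MainAux

theorem mainED (s d : ℝ) (hd : 0 < d) (hd2 : d ≤ 1 / 2) (hds : d ≤ s) (hs : s < 1) (k : ℕ)
    (hk : 36 ≤ (k : ℝ) * d ^ 2) :
    ∃ n0 : ℕ, ∀ n ≥ n0, ∃ (ι : Type) (_ : Fintype ι) (src dst : ι → Fin n)
      (b : ι → ZMod k) (r : ℕ)
      (E : ((Fin n ⊕ Fin n → ZMod k) → ℝ) →ₗ[ℝ] ℝ), Nonempty ι ∧
      (2 * (n : ℝ)) ^ (Real.log (1 / s) / Real.log (1 / d) / 4000000) ≤ r ∧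
      (Pool.Agent.Lib.P325x.Game.mk src dst (fun e => Equiv.addRight (b e))).value ≤ d ∧
      (Pool.Agent.Lib.P325x.Game.mk src dst (fun e => Equiv.addRight (b e))).SecondEigenvalueLE d ∧
      (∀ v, (Finset.univ.filter (fun e => src e = v)).card ≤ ⌈5 / d⌉₊ ^ 8) ∧
      (∀ v, (Finset.univ.filter (fun e => dst e = v)).card ≤ ⌈5 / d⌉₊ ^ 8) ∧
      Pool.Agent.Lib.P325h.IsLocalExpectation r E ∧
      (∀ e, s ≤ E (fun z => if z (Sum.inl (src e)) + b e = z (Sum.inr (dst e)) then 1 else 0)) ∧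
      s ≤ E (fun z => (Pool.Agent.Lib.P325x.Game.mk src dst (fun e => Equiv.addRight (b e))).satFrac
        (fun u => z (Sum.inl u)) (fun w => z (Sum.inr w))) := by
  classical
  have hs0 : 0 < s := hd.trans_le hds
  have hk0 : k ≠ 0 := by
    rintro rfl
    norm_num at hk
  have : NeZero k := ⟨hk0⟩
  have hkpos : (0 : ℝ) < k := by exact_mod_cast Nat.pos_of_ne_zero hk0
  set u : ℝ := s ^ (1 / 8 : ℝ) with hu
  have hu0 : 0 < u := Real.rpow_pos_of_pos hs0 _
  have hu1 : u < 1 := Real.rpow_lt_one hs0.le hs (by norm_num)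
  have hu8 : u ^ 8 = s := by
    rw [hu, ← Real.rpow_natCast, ← Real.rpow_mul hs0.le]
    norm_num
  have h1u : 0 < 1 - u := by linarith
  have hα8 : 0 < 1 - u ^ 8 := by rw [hu8]; linarith
  set α : ℝ := u ^ 8 / (1 - u ^ 8) with hα
  have hα0 : 0 < α := div_pos (by positivity) hα8
  have hu42 : u ^ 4 < u ^ 2 := pow_lt_pow_right_of_lt_one₀ hu0 hu1 (by norm_num)
  have hε : 0 < (u ^ 2 - u ^ 4) / α := div_pos (by linarith) hα0
  obtain ⟨m0, hm0⟩ := csum (u ^ 4) _ (by positivity) (pow_lt_one₀ hu0.le hu1 (by norm_num)) hε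
  have hu1u : 0 < u * (1 - u) := mul_pos hu0 h1u
  have ha : 0 < 8 * α * k * (α / (u * (1 - u))) := by positivity
  have hb : 0 < 4 * (k : ℝ) ^ 2 * u ^ 2 * (α ^ 2 / (u * (1 - u)) ^ 2 + 1 / (1 - u)) := by
    positivity
  obtain ⟨n0, hn0⟩ := par_e s d _ _ hd hd2 hds hs ha hb m0
  refine ⟨n0, fun n hn => ?_⟩
  obtain ⟨m, g, l0, r, v0, c1, c2, c3, c4, c5, c6, c7, c8, c9, c10, c11, c12, c13, c14, c15⟩ :=
    hn0 n hn
  rw [← hu] at c13 c14
  obtain ⟨hD10, hΔ9, hgap⟩ := num_D d hd hd2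
  set Dd : ℕ := ⌈5 / d⌉₊ with hDd
  have hΔ2 : 2 ≤ Dd ^ 8 := by
    calc 2 ≤ 10 ^ 8 := by norm_num
      _ ≤ Dd ^ 8 := Nat.pow_le_pow_left hD10 8
  have hsel := fun m g v0 h1 h2 h3 h4 h5 h6 h7 =>
    selC n Dd g (2 * v0) (20 * (m + 3)) h1 h2 h3 h4 h5 h6 h7
  set Δ : ℕ := Dd ^ 8 with hΔ
  obtain ⟨c, p, hcp⟩ := coef m
  have hQ : u ^ 4 + u ^ 8 / (1 - u ^ 8) * ∑ j ∈ Finset.range (m + 1), c j * (u ^ 4) ^ j ≤
      u ^ 2 := by
    have h1 := hm0 m c2 c hcp.nonneg hcp.le
    rw [le_div_iff₀ hα0] at h1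
    rw [← hα]
    nlinarith
  obtain ⟨π, hdisc, hdense, hspar⟩ := hsel m g v0 (by omega) c1 (by omega) c10 c5 c11 c12
  obtain ⟨Del, hm1, hm2, hgir⟩ := del_exists (pf π) g hdense
  set f : Fin n × Fin Δ → Fin n := pf π with hf
  have hspa : ∀ H : Finset (Fin n × Fin Δ), ((bg f).verts H).card ≤ 2 * v0 →
      (20 * (m + 3)) * H.card ≤ (20 * (m + 3) + 1) * ((bg f).verts H).card := hspar
  have hDeln : Del.card ≤ n := by
    have h1 : (Del.image Prod.fst).card = Del.card :=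
      Finset.card_image_of_injOn fun e he e' he' h => hm1 e he e' he' h
    rw [← h1]
    calc (Del.image Prod.fst).card ≤ (Finset.univ : Finset (Fin n)).card :=
          Finset.card_le_card (Finset.subset_univ _)
      _ = n := by simp
  have hDel : 2 * Del.card ≤ n * Δ := by
    calc 2 * Del.card ≤ 2 * n := by omega
      _ = n * 2 := by ring
      _ ≤ n * Δ := Nat.mul_le_mul_left _ hΔ2
  have hΔ1 : 1 ≤ Δ := by omega
  obtain ⟨b, hb'⟩ := sound n Δ k d (by omega) hd (by linarith) hk hΔ9 f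
  have hG : (rg f Del).Girth g := by
    intro H hH hc
    have h1 := hgir (H.map (Function.Embedding.subtype _)) (disj Del H) (by simpa using hH)
      (by rw [Finset.card_map]; exact hc)
    rw [verts_map, Finset.card_map] at h1
    exact h1
  have hS : (rg f Del).Sparse (2 * v0) (20 * (m + 3)) := by
    intro H hH
    have h1 := hspa (H.map (Function.Embedding.subtype _)) (by rw [verts_map]; exact hH)
    rw [verts_map, Finset.card_map] at h1
    exact h1
  obtain ⟨X, _, _, D, hD⟩ := tag_ex (ZMod k) m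
    (Fintype.card {e : Fin n × Fin Δ // e ∉ Del} + 1)
  have hcard : (Fintype.card (ZMod k) : ℝ) = k := by rw [ZMod.card]
  obtain ⟨L, L1, L2, L3, L4⟩ := fam D hD (rg f Del) (fun e => b e.1) c p hcp g (2 * v0)
    (20 * (m + 3)) r l0 v0 hG hS le_rfl c9 c4 c3 rfl c7 c8 u hu0 hu1 c13 hQ _ _ _ rfl rfl rfl
    (by
      rw [hcard]
      exact small hα0 hu0 hu1 (Nat.cast_nonneg _) (by positivity) (Nat.cast_nonneg _)
        (by positivity) c14)
  obtain ⟨E, hE, hEL⟩ := ext_local r L L1 L2 L3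
  have hedge : ∀ e : {e : Fin n × Fin Δ // e ∉ Del},
      s ≤ E (fun z => if z (Sum.inl e.1.1) + b e.1 = z (Sum.inr (f e.1)) then 1 else 0) := by
    intro e
    have h1 : (fun z : Fin n ⊕ Fin n → ZMod k =>
        if z (Sum.inl e.1.1) + b e.1 = z (Sum.inr (f e.1)) then (1 : ℝ) else 0) =
        fun z => if z ((rg f Del).tgt e) = z ((rg f Del).src e) + b e.1 then 1 else 0 := by
      funext z
      exact if_congr eq_comm rfl rfl
    rw [h1, hEL {(rg f Del).src e, (rg f Del).tgt e} _ (Finset.card_le_two.trans c4) ?_, L4 e,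
      hu8, hcard]
    · rw [le_div_iff₀ hkpos]
      nlinarith
    · intro x y hxy
      have h2 := hxy ((rg f Del).src e) (by simp)
      have h3 := hxy ((rg f Del).tgt e) (by simp)
      simp only [h2, h3]
  have hnΔ : (0 : ℝ) < (n : ℝ) * Δ := by
    have h1 : 0 < n := by omega
    have h2 : (0 : ℝ) < n := by exact_mod_cast h1
    have h3 : (0 : ℝ) < Δ := by exact_mod_cast hΔ1
    positivity
  have hcpos : (0 : ℝ) < (Fintype.card {e : Fin n × Fin Δ // e ∉ Del} : ℝ) := by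
    have hDel' : 2 * (Del.card : ℝ) ≤ (n : ℝ) * Δ := by exact_mod_cast hDel
    rw [card_sub Del hDel]
    linarith
  refine ⟨{e : Fin n × Fin Δ // e ∉ Del}, inferInstance, fun e => e.1.1, fun e => f e.1,
    fun e => b e.1, r, E, ?_, c15, ?_, ?_, ?_, ?_, hE, hedge, ?_⟩
  · rw [← Fintype.card_pos_iff]
    exact_mod_cast hcpos
  · exact val_le f Del b d hd.le hDel hcpos hb'
  · have hD0 : (0 : ℝ) < Dd := by exact_mod_cast (by omega : 0 < Dd)
    have hD10' : (10 : ℝ) ≤ Dd := by exact_mod_cast hD10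
    have hα1 : 0 < 1 / (Dd : ℝ) ^ 2 := by positivity
    have hα2 : 1 / (Dd : ℝ) ^ 2 ≤ 1 / 2 := by
      apply one_div_le_one_div_of_le (by norm_num)
      nlinarith
    have hlog : 0 ≤ Real.log (1 / (1 / (Dd : ℝ) ^ 2)) := by
      apply Real.log_nonneg
      rw [one_div_one_div]
      nlinarith
    exact spec π (4 * (1 / (Dd : ℝ) ^ 2) * (2 + Real.log (1 / (1 / (Dd : ℝ) ^ 2)))) d
      (by positivity) (fun φ ψ hφ => mix_real _ hα1 hα2 π hdisc φ ψ hφ) Del hm1 hm2 hΔ2 hgap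
      (fun e => Equiv.addRight (b e.1))
  · intro v
    have h1 : Function.Injective
        (fun e : {e : {e : Fin n × Fin Δ // e ∉ Del} // e.1.1 = v} => e.1.1.2) := by
      rintro ⟨⟨⟨a, j⟩, h⟩, ha⟩ ⟨⟨⟨a', j'⟩, h'⟩, ha'⟩ hj
      simp only at ha ha' hj
      subst ha ha' hj
      rfl
    have h2 := Fintype.card_le_of_injective _ h1
    rw [Fintype.card_subtype, Fintype.card_fin] at h2
    exact h2
  · intro v
    have h1 : Function.Injective
        (fun e : {e : {e : Fin n × Fin Δ // e ∉ Del} // f e.1 = v} => e.1.1.2) := by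
      rintro ⟨⟨⟨a, j⟩, h⟩, ha⟩ ⟨⟨⟨a', j'⟩, h'⟩, ha'⟩ hj
      simp only at ha ha' hj
      subst hj
      have h3 : π j a = π j a' := ha.trans ha'.symm
      have h4 : a = a' := (π j).injective h3
      subst h4
      rfl
    have h2 := Fintype.card_le_of_injective _ h1
    rw [Fintype.card_subtype, Fintype.card_fin] at h2
    exact h2
  · have h1 : (fun z : Fin n ⊕ Fin n → ZMod k =>
        (Pool.Agent.Lib.P325x.Game.mk (fun e : {e : Fin n × Fin Δ // e ∉ Del} => e.1.1)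
          (fun e => f e.1) (fun e => Equiv.addRight (b e.1))).satFrac
          (fun u => z (Sum.inl u)) (fun w => z (Sum.inr w))) =
        (1 / (Fintype.card {e : Fin n × Fin Δ // e ∉ Del} : ℝ)) •
          ∑ e : {e : Fin n × Fin Δ // e ∉ Del}, (fun z : Fin n ⊕ Fin n → ZMod k =>
            if z (Sum.inl e.1.1) + b e.1 = z (Sum.inr (f e.1)) then (1 : ℝ) else 0) := by
      funext z
      rw [Pi.smul_apply, Finset.sum_apply, smul_eq_mul, sat_eq]
      ring
    rw [h1, map_smul, map_sum, smul_eq_mul, one_div, inv_mul_eq_div, le_div_iff₀ hcpos]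
    have h2 : ∑ _e : {e : Fin n × Fin Δ // e ∉ Del}, s ≤
        ∑ e : {e : Fin n × Fin Δ // e ∉ Del}, E (fun z : Fin n ⊕ Fin n → ZMod k =>
            if z (Sum.inl e.1.1) + b e.1 = z (Sum.inr (f e.1)) then (1 : ℝ) else 0) :=
      Finset.sum_le_sum fun e _ => hedge e
    rw [Finset.sum_const, Finset.card_univ, nsmul_eq_mul] at h2
    linarith

end Pool.Agent.Lib.P325z
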