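import Pool.Agent.Lib.P325L.Sel

/-!
P325z: linear programs for unique games on expanders. Definitions.
The base graph is given by `Δ` permutations of `Fin n`: the edge `(i, j)` joins `i` on the left to
`π j i` on the right.
-/

open scoped BigOperators

namespace Pool.Agent.Lib.P325z

/-- The map of edges to right ends of a family of permutations. -/
def pf {n Δ : ℕ} (π : Fin Δ → Equiv.Perm (Fin n)) : Fin n × Fin Δ → Fin n := fun e => π e.2 e.1

/-- The number of edges from `S` to `T`. -/
def ee {n Δ : ℕ} (π : Fin Δ → Equiv.Perm (Fin n)) (S T : Finset (Fin n)) : ℕ :=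
  (Finset.univ.filter (fun e : Fin n × Fin Δ => e.1 ∈ S ∧ pf π e ∈ T)).card

/-- Discrepancy: the number of edges between any two sets is close to its mean. -/
def Disc {n Δ : ℕ} (α : ℝ) (π : Fin Δ → Equiv.Perm (Fin n)) : Prop :=
  ∀ S T : Finset (Fin n), |(ee π S T : ℝ) - (Δ : ℝ) * S.card * T.card / n| ≤
    α * Δ * Real.sqrt ((S.card : ℝ) * T.card)

end Pool.Agent.Lib.P325z
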