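import Pool.Agent.Lib.P325z.MainPE
import Pool.Agent.Lib.P325cv.Fin

/-!
No convex program with few constraints of small dimension for unique games on graphs with second
eigenvalue at most `δ`.
-/

open scoped BigOperators

namespace Pool.Agent.Lib.P325z

open Pool.Agent.Lib.P325x (Game)

theorem mainCvE (s δ : ℝ) (hδ : 0 < δ) (hδ2 : δ ≤ 1 / 2) (hδs : δ ≤ s) (hs : s < 1)
    (k : ℕ) (hk : 36 ≤ (k : ℝ) * δ ^ 2) :
    ∃ N0 : ℕ, ∀ N ≥ N0, ∀ (Y : Type) [AddCommGroup Y] [Module ℝ Y] (R D : ℕ)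
      (A : Fin R → Y →ₗ[ℝ] (Fin D → ℝ)) (C : Fin R → Set (Fin D → ℝ))
      (pt : (Fin N ⊕ Fin N → ZMod k) → Y),
      (R : ℝ) ≤ Real.exp ((2 * (N : ℝ)) ^ (Real.log (1 / s) / Real.log (1 / δ) / 260000000)) →
      (D : ℝ) ≤ (2 * (N : ℝ)) ^ (Real.log (1 / s) / Real.log (1 / δ) / 260000000) →
      (∀ j, Convex ℝ (C j)) → (∀ z j, A j (pt z) ∈ C j) →
      ∃ (ι : Type) (_ : Fintype ι) (src dst : ι → Fin N) (b : ι → ZMod k), Nonempty ι ∧
        (Game.mk src dst (fun e => Equiv.addRight (b e))).value ≤ δ ∧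
        (Game.mk src dst (fun e => Equiv.addRight (b e))).SecondEigenvalueLE δ ∧
        ∀ (w : Y →ₗ[ℝ] ℝ) (w0 : ℝ),
          (∀ z, w (pt z) + w0 = (Game.mk src dst (fun e => Equiv.addRight (b e))).satFrac
            (fun u => z (Sum.inl u)) (fun u => z (Sum.inr u))) →
          ∃ y, (∀ j, A j y ∈ C j) ∧ s < w y + w0 := by
  have hs0 : 0 < s := lt_of_lt_of_le hδ hδs
  have hk0 : k ≠ 0 := by
    rintro rfl
    norm_num at hk
  have hs11 : Real.sqrt s < 1 := by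
    rw [Real.sqrt_lt' one_pos]; simpa using hs
  have hss1 : s ≤ Real.sqrt s := by
    have h1 := Real.mul_self_sqrt hs0.le
    have h2 := Real.sqrt_pos.2 hs0
    nlinarith
  obtain ⟨N1, hN1⟩ := mainPE (Real.sqrt s) δ hδ hδ2 (hδs.trans hss1) hs11 k hk
  obtain ⟨N0, hN0⟩ := Pool.Agent.Lib.P325cv.convex_of_lp 60000000 (by norm_num)
    (fun _ _ _ _ G => G.SecondEigenvalueLE δ) s δ hδ hδ2 hδs hs k hk0 ⟨N1, hN1⟩
  have e : (13 / 3 * 60000000 : ℝ) = 260000000 := by norm_num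
  refine ⟨N0, fun N hN Y _ _ R D A C pt hR hD hC hpt =>
    hN0 N hN Y R D A C pt (by rw [e]; exact hR) (by rw [e]; exact hD) hC hpt⟩

end Pool.Agent.Lib.P325z
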