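import Pool.Agent.Lib.P325x.Defs
import Pool.Agent.Lib.P325h.Defs
import Pool.Agent.Lib.P325z.MainE
import Pool.Agent.Lib.P325z.GameE
import Pool.Agent.Lib.P325P.Rank
import Pool.Agent.Lib.P325P.EsSat
import Pool.Agent.Lib.P325P.ParaP

/-!
Assembly: no linear program of size `exp (N ^ (c x))` for unique games on graphs with second
eigenvalue at most `δ`.
-/

open scoped BigOperators

namespace Pool.Agent.Lib.P325z

open Pool.Agent.Lib.P325x (Game)
open Pool.Agent.Lib.P325h (IsLocalExpectation)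
open Pool.Agent.Lib.P325P (paraP rank es es_sat)

theorem mainPE (s δ : ℝ) (hδ : 0 < δ) (hδ2 : δ ≤ 1 / 2) (hδs : δ ≤ s) (hs : s < 1)
    (k : ℕ) (hk : 36 ≤ (k : ℝ) * δ ^ 2) :
    ∃ N0 : ℕ, ∀ N ≥ N0, ∀ (Y : Type) [AddCommGroup Y] [Module ℝ Y] (R : ℕ)
      (A : Fin R → Y →ₗ[ℝ] ℝ) (c : Fin R → ℝ) (pt : (Fin N ⊕ Fin N → ZMod k) → Y),
      (R : ℝ) ≤ Real.exp ((2 * (N : ℝ)) ^ (Real.log (1 / s) / Real.log (1 / δ) / 60000000)) →
      (∀ z j, A j (pt z) ≤ c j) →
      ∃ (ι : Type) (_ : Fintype ι) (src dst : ι → Fin N) (b : ι → ZMod k), Nonempty ι ∧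
        (Game.mk src dst (fun e => Equiv.addRight (b e))).value ≤ δ ∧
        (Game.mk src dst (fun e => Equiv.addRight (b e))).SecondEigenvalueLE δ ∧
        ∀ (w : Y →ₗ[ℝ] ℝ) (w0 : ℝ),
          (∀ z, w (pt z) + w0 = (Game.mk src dst (fun e => Equiv.addRight (b e))).satFrac
            (fun u => z (Sum.inl u)) (fun u => z (Sum.inr u))) →
          ∃ y, (∀ j, A j y ≤ c j) ∧ s < w y + w0 := by
  have hs0 : 0 < s := lt_of_lt_of_le hδ hδs
  have hk0 : k ≠ 0 := by
    rintro rfl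
    norm_num at hk
  haveI : NeZero k := ⟨hk0⟩
  have hk1 : 1 ≤ k := Nat.one_le_iff_ne_zero.2 hk0
  -- the base instance has completeness `√s`
  set s1 : ℝ := Real.sqrt s with hs1
  have hs10 : 0 < s1 := Real.sqrt_pos.2 hs0
  have hs11 : s1 < 1 := by
    rw [hs1, Real.sqrt_lt' one_pos]; simpa using hs
  have hss1 : s < s1 := by
    rw [hs1, Real.lt_sqrt hs0.le]
    nlinarith
  have hδs1 : δ ≤ s1 := hδs.trans hss1.le
  have hD : 0 < Real.log (1 / δ) := by
    apply Real.log_pos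
    rw [lt_div_iff₀ hδ]
    linarith
  have hX : 0 < Real.log (1 / s) := by
    apply Real.log_pos
    rw [lt_div_iff₀ hs0]
    linarith
  have hX1 : Real.log (1 / s1) = Real.log (1 / s) / 2 := by
    rw [hs1, one_div, one_div, Real.log_inv, Real.log_inv, Real.log_sqrt hs0.le]
    ring
  have hle : Real.log (1 / s) ≤ Real.log (1 / δ) := by
    apply Real.log_le_log (by positivity)
    exact one_div_le_one_div_of_le hδ hδs
  set x : ℝ := Real.log (1 / s) / Real.log (1 / δ) with hx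
  have hx0 : 0 < x := div_pos hX hD
  have hx1 : x ≤ 1 := (div_le_one hD).2 hle
  obtain ⟨n0, hn0⟩ := mainE s1 δ hδ hδ2 hδs1 hs11 k hk
  set e : ℝ := Real.log (1 / s1) / Real.log (1 / δ) / 4000000 with he
  have hex : e = x / 8000000 := by
    rw [he, hX1, hx]
    ring
  have he0 : 0 < e := by rw [hex]; positivity
  have he4 : e ≤ 1 / 4 := by rw [hex]; linarith
  have hη : 0 < s1 - s := by linarith
  obtain ⟨N0, hN0⟩ := paraP e (s1 - s) he0 he4 hη k n0 hk1
  refine ⟨max N0 1, fun N hN Y _ _ R A c pt hR hpt => ?_⟩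
  obtain ⟨n, r, τ, hn, hn1, hnN, hr2, hr0, hrN, hτ, herr, hT, hγ⟩ :=
    hN0 N (le_trans (le_max_left _ _) hN)
  have hN1 : 1 ≤ N := le_trans (le_max_right _ _) hN
  obtain ⟨ι, hι, src, dst, b, r0, E, hne, hdeg, hval, heig, hE, -, hsat⟩ := hn0 n hn
  have hrr : r ≤ r0 := hr0 r0 (by simpa using hdeg)
  have hEr : IsLocalExpectation r E :=
    ⟨hE.one, fun f D hD hf h0 => hE.nonneg f D (hD.trans hrr) hf h0⟩
  haveI : Nonempty (Fin (n ^ 5)) := ⟨⟨0, by positivity⟩⟩
  -- either an instance exists, or there is a short decomposition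
  by_contra hno
  have hno' : ¬ ∃ src' dst' : ι → Fin N,
      (Game.mk src' dst' (fun e => Equiv.addRight (b e))).value ≤ δ ∧
      (Game.mk src' dst' (fun e => Equiv.addRight (b e))).SecondEigenvalueLE δ ∧
      ∀ (w : Y →ₗ[ℝ] ℝ) (w0 : ℝ),
        (∀ z, w (pt z) + w0 = (Game.mk src' dst' (fun e => Equiv.addRight (b e))).satFrac
          (fun i => z (Sum.inl i)) (fun i => z (Sum.inr i))) →
        ∃ y, (∀ j, A j y ≤ c j) ∧ s < w y + w0 := by
    rintro ⟨src', dst', h1, h2, h3⟩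
    exact hno ⟨ι, hι, src', dst', b, hne, h1, h2, h3⟩
  obtain ⟨I, hI, u, v, hcard, hu, hv, hdec⟩ :=
    gameE hnN s δ δ src dst b hval heig R A c pt hpt hno'
  set F : (Fin n ⊕ Fin n → ZMod k) → ℝ := fun z =>
    s - (Game.mk src dst (fun e => Equiv.addRight (b e))).satFrac
      (fun i => z (Sum.inl i)) (fun i => z (Sum.inr i)) with hF
  have hF1 : ∀ y, F y ≤ 1 := by
    intro y
    have h1 : 0 ≤ (Game.mk src dst (fun e => Equiv.addRight (b e))).satFrac
        (fun i => y (Sum.inl i)) (fun i => y (Sum.inr i)) := by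
      unfold Game.satFrac
      exact div_nonneg (Nat.cast_nonneg _) (Nat.cast_nonneg _)
    show s - _ ≤ 1
    linarith
  have hFr : ∀ T : Finset (Fin n ⊕ Fin n), r < T.card → ∀ y, es T F y = 0 :=
    fun T hT' y => es_sat src dst b s T (by omega) y
  have hcardV : (Fintype.card (Fin n ⊕ Fin n) : ℝ) = 2 * (n : ℝ) := by
    rw [Fintype.card_sum, Fintype.card_fin]
    push_cast
    ring
  have hcardK : ((Fintype.card (Fin (n ^ 5)) : ℕ) : ℝ) = (n : ℝ) ^ 5 := by
    rw [Fintype.card_fin]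
    push_cast
    ring
  have hcardO : ((Fintype.card (ZMod k) : ℕ) : ℝ) = (k : ℝ) := by
    rw [ZMod.card]
  have key := rank hEr F hF1 hFr u v hu hv (fun z x => hdec z x) τ
    ((r : ℝ) * Real.log k + Real.log (1 / τ)) hτ
    (by intro j hj; rw [hcardK]; exact hT j hj)
    (by rw [hcardO])
    (by rw [hcardK, hcardO, hcardV]; exact hγ)
  rw [hcardO, hcardV, hcard] at key
  -- the objective of `F`
  have hEF : E F ≤ s - s1 := by
    have h1 : F = (fun _ => s) - fun z =>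
        (Game.mk src dst (fun e => Equiv.addRight (b e))).satFrac
          (fun i => z (Sum.inl i)) (fun i => z (Sum.inr i)) := rfl
    have h2 : (fun _ : Fin n ⊕ Fin n → ZMod k => s) = s • fun _ => (1 : ℝ) := by
      ext z; simp
    rw [h1, map_sub, h2, map_smul, hE.one, smul_eq_mul, mul_one]
    linarith
  have hRr : ((R + 1 : ℕ) : ℝ) ≤ Real.exp r + 1 := by
    push_cast
    have h1 : (2 * (N : ℝ)) ^ (x / 60000000) ≤ (2 * (N : ℝ)) ^ (e / 7) := by
      apply Real.rpow_le_rpow_of_exponent_le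
      · have : (1 : ℝ) ≤ N := by exact_mod_cast hN1
        linarith
      · rw [hex]
        linarith
    have h2 : Real.exp ((2 * (N : ℝ)) ^ (x / 60000000)) ≤ Real.exp r :=
      Real.exp_le_exp.2 (h1.trans hrN)
    linarith
  have herr0 : 0 ≤ 2 * ((2 * (k : ℝ) * (2 * (n : ℝ) + 1)) ^ r * τ) +
      Real.exp (-(2 * (r : ℝ))) := by positivity
  have h3 : ((R + 1 : ℕ) : ℝ) * (2 * ((2 * (k : ℝ) * (2 * (n : ℝ) + 1)) ^ r * τ) +
      Real.exp (-(2 * (r : ℝ)))) < s1 - s :=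
    lt_of_le_of_lt (mul_le_mul_of_nonneg_right hRr herr0) herr
  linarith

end Pool.Agent.Lib.P325z
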