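import Pool.Agent.Lib.P325z.PCnt

/-!
Module Mgf (1.2h; black box perms_card). Exponential moments of the number of edges from S to T.
PROOF of mgf0. With E = S ×ˢ univ (|E| = |S| Δ), (1 + x)^(ee π S T) = ∏_{e ∈ E} (1 + x [pf π e ∈ T])
= ∑_{C ⊆ E} x^|C| [∀ e ∈ C, pf π e ∈ T] (Finset.prod_one_add or prod_add). Sum over π, perms_card with B = T:
<= ∑_{C ⊆ E} x^|C| (|T|/n)^|C| (n!)^Δ = (n!)^Δ (1 + x |T|/n)^|E| (Finset.sum_pow_mul_eq_add_pow or
prod_one_add again).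
mgf_up: 1 + u <= exp u, and (exp u)^(|S| Δ) = exp (|S| Δ u).
mgf_low: ee π S T + ee π S Tᶜ = |S| Δ. With x = y/(1-y) >= 0, 1 + x = (1-y)⁻¹:
(1-y)^(ee π S T) = (1-y)^(|S|Δ) (1+x)^(ee π S Tᶜ). mgf0 for Tᶜ, |Tᶜ| = n - |T|:
∑_π (1-y)^(ee π S T) <= (n!)^Δ ((1-y)(1 + x (n-|T|)/n))^(|S|Δ) and (1-y)(1 + x(1-p)) = 1 - y + y(1-p) = 1 - y p
with p = |T|/n. 1 - y p <= exp (-y p), 0 <= 1 - y p.
-/

open scoped BigOperators

namespace Pool.Agent.Lib.P325z

namespace MgfAux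

theorem ee_eq {n Δ : ℕ} (π : Fin Δ → Equiv.Perm (Fin n)) (S T : Finset (Fin n)) :
    ee π S T = ((S ×ˢ (Finset.univ : Finset (Fin Δ))).filter (fun e => pf π e ∈ T)).card := by
  unfold ee
  congr 1
  ext e
  simp [Finset.mem_product]

theorem pow_ee {n Δ : ℕ} (π : Fin Δ → Equiv.Perm (Fin n)) (S T : Finset (Fin n)) (x : ℝ) :
    (1 + x) ^ (ee π S T) = ∑ C ∈ (S ×ˢ (Finset.univ : Finset (Fin Δ))).powerset,
      ∏ e ∈ C, (if pf π e ∈ T then x else 0) := by
  rw [ee_eq, ← Finset.prod_const, Finset.prod_filter]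
  have h1 : ∀ e ∈ S ×ˢ (Finset.univ : Finset (Fin Δ)), (if pf π e ∈ T then 1 + x else 1) =
      1 + (if pf π e ∈ T then x else 0) := by
    intro e _
    split_ifs
    · rfl
    · rw [add_zero]
  rw [Finset.prod_congr rfl h1, Finset.prod_one_add]

theorem prod_ind {n Δ : ℕ} (π : Fin Δ → Equiv.Perm (Fin n)) (T : Finset (Fin n)) (x : ℝ)
    (C : Finset (Fin n × Fin Δ)) :
    ∏ e ∈ C, (if pf π e ∈ T then x else 0) =
      if π ∈ Finset.univ.filter (fun π : Fin Δ → Equiv.Perm (Fin n) => ∀ e ∈ C, pf π e ∈ T) then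
        x ^ C.card else 0 := by
  by_cases h : ∀ e ∈ C, pf π e ∈ T
  · rw [if_pos (Finset.mem_filter.2 ⟨Finset.mem_univ _, h⟩), ← Finset.prod_const]
    exact Finset.prod_congr rfl fun e he => if_pos (h e he)
  · rw [if_neg (fun h' => h (Finset.mem_filter.1 h').2)]
    push Not at h
    obtain ⟨e, he, h'⟩ := h
    exact Finset.prod_eq_zero he (if_neg h')

theorem mgf0 {n Δ : ℕ} (S T : Finset (Fin n)) (x : ℝ) (hx : 0 ≤ x) :
    ∑ π : Fin Δ → Equiv.Perm (Fin n), (1 + x) ^ (ee π S T) ≤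
      (n.factorial : ℝ) ^ Δ * (1 + x * ((T.card : ℝ) / n)) ^ (S.card * Δ) := by
  simp only [pow_ee]
  rw [Finset.sum_comm]
  have h1 : ∀ C ∈ (S ×ˢ (Finset.univ : Finset (Fin Δ))).powerset,
      ∑ π : Fin Δ → Equiv.Perm (Fin n), ∏ e ∈ C, (if pf π e ∈ T then x else 0) ≤
      (n.factorial : ℝ) ^ Δ * ∏ _e ∈ C, (x * ((T.card : ℝ) / n)) := by
    intro C _
    simp only [prod_ind]
    rw [Finset.sum_ite_mem, Finset.univ_inter, Finset.sum_const, nsmul_eq_mul]
    have h2 := mul_le_mul_of_nonneg_right (perms_card T C) (pow_nonneg hx C.card)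
    refine h2.trans (le_of_eq ?_)
    rw [Finset.prod_const, mul_pow]
    ring
  refine (Finset.sum_le_sum h1).trans (le_of_eq ?_)
  rw [← Finset.mul_sum, ← Finset.prod_one_add, Finset.prod_const, Finset.card_product, Finset.card_univ,
    Fintype.card_fin]

theorem ee_compl {n Δ : ℕ} (π : Fin Δ → Equiv.Perm (Fin n)) (S T : Finset (Fin n)) :
    ee π S T + ee π S Tᶜ = S.card * Δ := by
  rw [ee_eq, ee_eq]
  have h := Finset.card_filter_add_card_filter_not (s := S ×ˢ (Finset.univ : Finset (Fin Δ)))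
    (fun e => pf π e ∈ T)
  rw [Finset.card_product, Finset.card_univ, Fintype.card_fin] at h
  simp only [Finset.mem_compl]
  exact h

end MgfAux

open MgfAux

theorem mgf_up {n Δ : ℕ} (hn : 1 ≤ n) (S T : Finset (Fin n)) (x : ℝ) (hx : 0 ≤ x) :
    ∑ π : Fin Δ → Equiv.Perm (Fin n), (1 + x) ^ (ee π S T) ≤
      (n.factorial : ℝ) ^ Δ * Real.exp (x * ((Δ : ℝ) * S.card * T.card / n)) := by
  refine (mgf0 S T x hx).trans (mul_le_mul_of_nonneg_left ?_ (by positivity))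
  have h1 : 1 + x * ((T.card : ℝ) / n) ≤ Real.exp (x * ((T.card : ℝ) / n)) := by
    have := Real.add_one_le_exp (x * ((T.card : ℝ) / n))
    linarith
  calc (1 + x * ((T.card : ℝ) / n)) ^ (S.card * Δ)
      ≤ Real.exp (x * ((T.card : ℝ) / n)) ^ (S.card * Δ) :=
        pow_le_pow_left₀ (by positivity) h1 _
    _ = Real.exp (x * ((Δ : ℝ) * S.card * T.card / n)) := by
        rw [← Real.exp_nat_mul]
        congr 1
        push_cast
        ring

theorem mgf_low {n Δ : ℕ} (hn : 1 ≤ n) (S T : Finset (Fin n)) (y : ℝ) (hy : 0 ≤ y) (hy1 : y < 1) :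
    ∑ π : Fin Δ → Equiv.Perm (Fin n), (1 - y) ^ (ee π S T) ≤
      (n.factorial : ℝ) ^ Δ * Real.exp (-(y * ((Δ : ℝ) * S.card * T.card / n))) := by
  have hy2 : 0 < 1 - y := by linarith
  have hnr : (0 : ℝ) < n := by exact_mod_cast hn
  have hx : 0 ≤ y / (1 - y) := div_nonneg hy hy2.le
  have hx1 : 1 + y / (1 - y) = (1 - y)⁻¹ := by
    field_simp
    ring
  have h1 : ∀ π : Fin Δ → Equiv.Perm (Fin n), (1 - y) ^ (ee π S T) =
      (1 - y) ^ (S.card * Δ) * (1 + y / (1 - y)) ^ (ee π S Tᶜ) := by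
    intro π
    rw [hx1, ← ee_compl π S T, pow_add, inv_pow, mul_assoc, mul_inv_cancel₀ (pow_ne_zero _ hy2.ne'),
      mul_one]
  simp only [h1]
  rw [← Finset.mul_sum]
  have h2 := mgf0 (Δ := Δ) S Tᶜ (y / (1 - y)) hx
  have hc : ((Tᶜ.card : ℕ) : ℝ) / n = 1 - (T.card : ℝ) / n := by
    rw [Finset.card_compl, Fintype.card_fin, Nat.cast_sub (by simpa using Finset.card_le_univ T)]
    field_simp
  have hp : (T.card : ℝ) / n ≤ 1 := by
    rw [div_le_one hnr]
    exact_mod_cast (by simpa using Finset.card_le_univ T)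
  have hp0 : 0 ≤ (T.card : ℝ) / n := by positivity
  rw [hc] at h2
  calc (1 - y) ^ (S.card * Δ) * ∑ π : Fin Δ → Equiv.Perm (Fin n), (1 + y / (1 - y)) ^ (ee π S Tᶜ)
      ≤ (1 - y) ^ (S.card * Δ) * ((n.factorial : ℝ) ^ Δ *
          (1 + y / (1 - y) * (1 - (T.card : ℝ) / n)) ^ (S.card * Δ)) :=
        mul_le_mul_of_nonneg_left h2 (by positivity)
    _ = (n.factorial : ℝ) ^ Δ * (1 - y * ((T.card : ℝ) / n)) ^ (S.card * Δ) := by
        rw [mul_left_comm, ← mul_pow]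
        congr 2
        field_simp
        ring
    _ ≤ (n.factorial : ℝ) ^ Δ * Real.exp (-(y * ((T.card : ℝ) / n))) ^ (S.card * Δ) := by
        refine mul_le_mul_of_nonneg_left (pow_le_pow_left₀ ?_ ?_ _) (by positivity)
        · nlinarith
        · have := Real.add_one_le_exp (-(y * ((T.card : ℝ) / n)))
          linarith
    _ = (n.factorial : ℝ) ^ Δ * Real.exp (-(y * ((Δ : ℝ) * S.card * T.card / n))) := by
        rw [← Real.exp_nat_mul]
        congr 2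
        push_cast
        ring

end Pool.Agent.Lib.P325z
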