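import Pool.Agent.Lib.P325z.Defs

/-!
Module MixN (1.8h). Converse mixing lemma for nonnegative integer valued functions.
PROOF. For s, t : ℕ let F s = {x | s < f x}, G t = {y | t < g y} (Finsets), f x = ∑_{s < M} [s < f x] for any
M >= all values, same for g. With Bil(S,T) = ee π S T - Δ|S||T|/n, the left side is |∑_{s,t<M} Bil(F s, G t)|
(expand both sums; ee π S T = ∑_e [e.1 ∈ S][pf π e ∈ T]). Bounds: |Bil(S,T)| <= α Δ sqrt(|S||T|) (Disc), and
|Bil(S,T)| <= Δ |S|, <= Δ |T| (0 <= ee <= Δ|S|, ee <= Δ|T| as e ↦ (pf π e, e.2) is injective, and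
0 <= Δ|S||T|/n <= Δ|S|, Δ|T|; if n = 0 everything is 0). Put a = s+1, b = t+1.
Pairs with b <= α a: bound Δ |F s|; for fixed s their number is <= α a. ∑_s (s+1)|F s| = ∑_x f x (f x + 1)/2
<= ∑ f². So they contribute <= Δ α ∑ f². Pairs with a <= α b: <= Δ α ∑ g². Other pairs (α a < b, α b < a):
α Δ sqrt(|F||G|) <= α Δ (|F s| a/b + |G t| b/a)/2 (AM-GM), and for fixed a the sum of 1/b over integers b >= 1
with α a < b < a/α is <= 1 + log ((a/α)/(α a)) = 1 + 2 log (1/α) (1/b <= log (b/(b-1)) for the b >= 2 after the first one;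
first term <= 1). So they contribute <= α Δ (1 + 2 log (1/α)) (∑ f² + ∑ g²)/2. Total
<= α Δ (3/2 + log (1/α)) (∑ f² + ∑ g²).
-/

open scoped BigOperators

namespace Pool.Agent.Lib.P325z

private theorem ind_sum {k M : ℕ} (h : k ≤ M) :
    (k : ℝ) = ∑ s ∈ Finset.range M, if s < k then (1 : ℝ) else 0 := by
  rw [← Finset.sum_filter]
  have h1 : (Finset.range M).filter (fun s => s < k) = Finset.range k := by
    ext s
    simp only [Finset.mem_filter, Finset.mem_range]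
    omega
  rw [h1, Finset.sum_const, Finset.card_range, nsmul_eq_mul, mul_one]

private theorem sq_sum (k : ℕ) : ∑ s ∈ Finset.range k, ((s : ℝ) + 1) ≤ (k : ℝ) ^ 2 := by
  induction k with
  | zero => simp
  | succ k ih =>
    rw [Finset.sum_range_succ]
    push_cast
    nlinarith [(Nat.cast_nonneg k : (0 : ℝ) ≤ (k : ℝ))]

private theorem lev {n M : ℕ} (f : Fin n → ℕ) (hM : ∀ x, f x ≤ M) (w : ℕ → ℝ) :
    ∑ s ∈ Finset.range M, w s * ((Finset.univ.filter (fun x => s < f x)).card : ℝ) =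
      ∑ x, ∑ s ∈ Finset.range (f x), w s := by
  have h1 : ∀ s ∈ Finset.range M, w s * ((Finset.univ.filter (fun x => s < f x)).card : ℝ) =
      ∑ x, if s < f x then w s else 0 := by
    intro s _
    rw [← Finset.sum_filter, Finset.sum_const, nsmul_eq_mul, mul_comm]
  rw [Finset.sum_congr rfl h1, Finset.sum_comm]
  refine Finset.sum_congr rfl fun x _ => ?_
  rw [← Finset.sum_filter]
  congr 1
  ext s
  simp only [Finset.mem_filter, Finset.mem_range]
  have := hM x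
  omega

private theorem lev_one {n M : ℕ} (f : Fin n → ℕ) (hM : ∀ x, f x ≤ M) :
    ∑ s ∈ Finset.range M, ((Finset.univ.filter (fun x => s < f x)).card : ℝ) =
      ∑ x, (f x : ℝ) := by
  have h := lev f hM (fun _ => 1)
  simp only [one_mul, Finset.sum_const, Finset.card_range, nsmul_eq_mul, mul_one] at h
  exact h

private theorem lev_two {n M : ℕ} (f : Fin n → ℕ) (hM : ∀ x, f x ≤ M) :
    ∑ s ∈ Finset.range M, ((s : ℝ) + 1) *
      ((Finset.univ.filter (fun x => s < f x)).card : ℝ) ≤ ∑ x, (f x : ℝ) ^ 2 := by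
  rw [lev f hM (fun s => (s : ℝ) + 1)]
  exact Finset.sum_le_sum fun x _ => sq_sum (f x)

private theorem cnt_le {α : ℝ} (hα : 0 < α) (M : ℕ) (a : ℝ) (ha : 0 ≤ a) :
    (((Finset.range M).filter (fun t : ℕ => (t : ℝ) + 1 ≤ α * a)).card : ℝ) ≤ α * a := by
  have h0 : 0 ≤ α * a := mul_nonneg hα.le ha
  have h1 : (Finset.range M).filter (fun t : ℕ => (t : ℝ) + 1 ≤ α * a) ⊆
      Finset.range ⌊α * a⌋₊ := by
    intro t ht
    rw [Finset.mem_filter] at ht
    rw [Finset.mem_range]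
    have h2 : t + 1 ≤ ⌊α * a⌋₊ := by
      rw [Nat.le_floor_iff h0]
      push_cast
      exact ht.2
    omega
  have h2 := Finset.card_le_card h1
  rw [Finset.card_range] at h2
  calc (((Finset.range M).filter (fun t : ℕ => (t : ℝ) + 1 ≤ α * a)).card : ℝ)
      ≤ (⌊α * a⌋₊ : ℝ) := by exact_mod_cast h2
    _ ≤ α * a := Nat.floor_le h0

private theorem har_aux {A : ℝ} (hA : 0 < A) (m : ℕ) :
    ∑ t ∈ Finset.range m, (if A < (t : ℝ) + 1 then 1 / ((t : ℝ) + 1) else 0) ≤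
      if A < (m : ℝ) then 1 + Real.log (m / A) else 0 := by
  induction m with
  | zero =>
    rw [Finset.sum_range_zero, if_neg]
    push_cast
    linarith
  | succ m ih =>
    rw [Finset.sum_range_succ]
    push_cast
    have hm1 : (0 : ℝ) < (m : ℝ) + 1 := by positivity
    by_cases h1 : A < (m : ℝ)
    · rw [if_pos h1] at ih
      have h2 : A < (m : ℝ) + 1 := by linarith
      rw [if_pos h2, if_pos h2]
      have hm : (0 : ℝ) < m := lt_trans hA h1
      have h3 : Real.log ((m : ℝ) / (m + 1)) ≤ (m : ℝ) / (m + 1) - 1 :=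
        Real.log_le_sub_one_of_pos (by positivity)
      rw [Real.log_div hm.ne' hm1.ne'] at h3
      have h4 : (m : ℝ) / (m + 1) - 1 = - (1 / ((m : ℝ) + 1)) := by
        field_simp
        ring
      rw [Real.log_div hm.ne' hA.ne'] at ih
      rw [Real.log_div hm1.ne' hA.ne']
      linarith
    · rw [if_neg h1] at ih
      by_cases h2 : A < (m : ℝ) + 1
      · rw [if_pos h2, if_pos h2]
        have h3 : 0 ≤ Real.log (((m : ℝ) + 1) / A) := by
          refine Real.log_nonneg ?_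
          rw [le_div_iff₀ hA]
          linarith
        have h4 : 1 / ((m : ℝ) + 1) ≤ 1 := by
          rw [div_le_one hm1]
          have : (0 : ℝ) ≤ m := Nat.cast_nonneg m
          linarith
        linarith
      · rw [if_neg h2, if_neg h2]
        linarith

private theorem har {α : ℝ} (hα : 0 < α) (hα1 : α ≤ 1 / 2) (M : ℕ) (a : ℝ) (ha : 0 < a) :
    ∑ t ∈ Finset.range M, (if α * a < (t : ℝ) + 1 ∧ α * ((t : ℝ) + 1) < a then
      1 / ((t : ℝ) + 1) else 0) ≤ 1 + 2 * Real.log (1 / α) := by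
  have hL : 0 ≤ Real.log (1 / α) := by
    refine Real.log_nonneg ?_
    rw [le_div_iff₀ hα]
    linarith
  have hA : 0 < α * a := mul_pos hα ha
  set m := ⌊a / α⌋₊ with hm
  have h1 : ∑ t ∈ Finset.range M, (if α * a < (t : ℝ) + 1 ∧ α * ((t : ℝ) + 1) < a then
      1 / ((t : ℝ) + 1) else 0) ≤
        ∑ t ∈ Finset.range m, (if α * a < (t : ℝ) + 1 then 1 / ((t : ℝ) + 1) else 0) := by
    rw [← Finset.sum_filter, ← Finset.sum_filter]
    refine Finset.sum_le_sum_of_subset_of_nonneg ?_ fun t _ _ => by positivity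
    intro t ht
    rw [Finset.mem_filter] at ht ⊢
    refine ⟨?_, ht.2.1⟩
    rw [Finset.mem_range]
    have h2 : t + 1 ≤ m := by
      rw [hm, Nat.le_floor_iff (by positivity), le_div_iff₀ hα]
      push_cast
      linarith [ht.2.2]
    omega
  refine h1.trans ((har_aux hA m).trans ?_)
  by_cases h2 : α * a < (m : ℝ)
  · rw [if_pos h2]
    have hm0 : (0 : ℝ) < m := lt_trans hA h2
    have h3 : (m : ℝ) ≤ a / α := Nat.floor_le (by positivity)
    have h4 : (m : ℝ) / (α * a) ≤ (1 / α) ^ 2 := by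
      rw [div_le_iff₀ hA]
      have h5 : (1 / α) ^ 2 * (α * a) = a / α := by
        field_simp
      rw [h5]
      exact h3
    have h5 : Real.log ((m : ℝ) / (α * a)) ≤ Real.log ((1 / α) ^ 2) :=
      Real.log_le_log (by positivity) h4
    rw [Real.log_pow] at h5
    push_cast at h5
    linarith
  · rw [if_neg h2]
    linarith

private theorem part_one {α Δ Q : ℝ} (hα : 0 < α) (hΔ : 0 ≤ Δ) (M : ℕ) (φ : ℕ → ℝ)
    (hφ : ∀ s, 0 ≤ φ s) (hQ : ∑ s ∈ Finset.range M, ((s : ℝ) + 1) * φ s ≤ Q) :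
    ∑ s ∈ Finset.range M, ∑ t ∈ Finset.range M,
      (if (t : ℝ) + 1 ≤ α * ((s : ℝ) + 1) then Δ * φ s else 0) ≤ α * Δ * Q := by
  have h1 : ∀ s ∈ Finset.range M, ∑ t ∈ Finset.range M,
      (if (t : ℝ) + 1 ≤ α * ((s : ℝ) + 1) then Δ * φ s else 0) ≤
        α * Δ * (((s : ℝ) + 1) * φ s) := by
    intro s _
    rw [← Finset.sum_filter, Finset.sum_const, nsmul_eq_mul]
    have h2 := cnt_le hα M ((s : ℝ) + 1) (by positivity)
    have h3 : 0 ≤ Δ * φ s := mul_nonneg hΔ (hφ s)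
    calc _ ≤ α * ((s : ℝ) + 1) * (Δ * φ s) := mul_le_mul_of_nonneg_right h2 h3
      _ = α * Δ * (((s : ℝ) + 1) * φ s) := by ring
  refine (Finset.sum_le_sum h1).trans ?_
  rw [← Finset.mul_sum]
  exact mul_le_mul_of_nonneg_left hQ (mul_nonneg hα.le hΔ)

private theorem part_two {α Δ Q : ℝ} (hα : 0 < α) (hα1 : α ≤ 1 / 2) (hΔ : 0 ≤ Δ) (M : ℕ)
    (φ : ℕ → ℝ) (hφ : ∀ s, 0 ≤ φ s)
    (hQ : ∑ s ∈ Finset.range M, ((s : ℝ) + 1) * φ s ≤ Q) :
    ∑ s ∈ Finset.range M, ∑ t ∈ Finset.range M,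
      (if α * ((s : ℝ) + 1) < (t : ℝ) + 1 ∧ α * ((t : ℝ) + 1) < (s : ℝ) + 1 then
        α * Δ / 2 * (((s : ℝ) + 1) * φ s) * (1 / ((t : ℝ) + 1)) else 0) ≤
      α * Δ / 2 * (1 + 2 * Real.log (1 / α)) * Q := by
  have hL : 0 ≤ Real.log (1 / α) := by
    refine Real.log_nonneg ?_
    rw [le_div_iff₀ hα]
    linarith
  have h1 : ∀ s ∈ Finset.range M, ∑ t ∈ Finset.range M,
      (if α * ((s : ℝ) + 1) < (t : ℝ) + 1 ∧ α * ((t : ℝ) + 1) < (s : ℝ) + 1 then
        α * Δ / 2 * (((s : ℝ) + 1) * φ s) * (1 / ((t : ℝ) + 1)) else 0) ≤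
      α * Δ / 2 * (1 + 2 * Real.log (1 / α)) * (((s : ℝ) + 1) * φ s) := by
    intro s _
    have h2 := har hα hα1 M ((s : ℝ) + 1) (by positivity)
    have h3 : 0 ≤ α * Δ / 2 * (((s : ℝ) + 1) * φ s) := by
      have := hφ s
      positivity
    have h4 : ∑ t ∈ Finset.range M,
      (if α * ((s : ℝ) + 1) < (t : ℝ) + 1 ∧ α * ((t : ℝ) + 1) < (s : ℝ) + 1 then
        α * Δ / 2 * (((s : ℝ) + 1) * φ s) * (1 / ((t : ℝ) + 1)) else 0) =
        α * Δ / 2 * (((s : ℝ) + 1) * φ s) * ∑ t ∈ Finset.range M,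
          (if α * ((s : ℝ) + 1) < (t : ℝ) + 1 ∧ α * ((t : ℝ) + 1) < (s : ℝ) + 1 then
            1 / ((t : ℝ) + 1) else 0) := by
      rw [Finset.mul_sum]
      refine Finset.sum_congr rfl fun t _ => ?_
      split_ifs
      · rfl
      · rw [mul_zero]
    rw [h4]
    calc _ ≤ α * Δ / 2 * (((s : ℝ) + 1) * φ s) * (1 + 2 * Real.log (1 / α)) :=
          mul_le_mul_of_nonneg_left h2 h3
      _ = _ := by ring
  refine (Finset.sum_le_sum h1).trans ?_
  rw [← Finset.mul_sum]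
  refine mul_le_mul_of_nonneg_left hQ ?_
  positivity

private theorem ee_le_left {n Δ : ℕ} (π : Fin Δ → Equiv.Perm (Fin n)) (S T : Finset (Fin n)) :
    ee π S T ≤ Δ * S.card := by
  unfold ee
  have h1 : (Finset.univ.filter (fun e : Fin n × Fin Δ => e.1 ∈ S ∧ pf π e ∈ T)) ⊆
      S ×ˢ (Finset.univ : Finset (Fin Δ)) := by
    intro e he
    rw [Finset.mem_filter] at he
    exact Finset.mem_product.2 ⟨he.2.1, Finset.mem_univ _⟩
  refine (Finset.card_le_card h1).trans ?_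
  rw [Finset.card_product, Finset.card_univ, Fintype.card_fin, mul_comm]

private theorem ee_le_right {n Δ : ℕ} (π : Fin Δ → Equiv.Perm (Fin n)) (S T : Finset (Fin n)) :
    ee π S T ≤ Δ * T.card := by
  unfold ee
  have h1 : (Finset.univ.filter (fun e : Fin n × Fin Δ => e.1 ∈ S ∧ pf π e ∈ T)).card ≤
      (T ×ˢ (Finset.univ : Finset (Fin Δ))).card := by
    refine Finset.card_le_card_of_injOn (fun e => (pf π e, e.2)) ?_ ?_
    · intro e he
      have he' := (Finset.mem_filter.1 (Finset.mem_coe.1 he)).2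
      exact Finset.mem_coe.2 (Finset.mem_product.2 ⟨he'.2, Finset.mem_univ _⟩)
    · rintro ⟨i, j⟩ _ ⟨i', j'⟩ _ h
      simp only [Prod.mk.injEq, pf] at h
      obtain ⟨h2, h3⟩ := h
      subst h3
      have h4 := (π j).injective h2
      rw [h4]
  refine h1.trans ?_
  rw [Finset.card_product, Finset.card_univ, Fintype.card_fin, mul_comm]

private theorem amgm (a b P Q c : ℝ) (ha : 0 < a) (hb : 0 < b) (hP : 0 ≤ P) (hQ : 0 ≤ Q)
    (hc : 0 ≤ c) :
    c * Real.sqrt (P * Q) ≤ c / 2 * (a * P) * (1 / b) + c / 2 * (b * Q) * (1 / a) := by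
  have h1 : Real.sqrt (P * Q) ≤ (a * P / b + b * Q / a) / 2 := by
    refine Real.sqrt_le_iff.2 ⟨by positivity, ?_⟩
    have h2 : P * Q = (a * P / b) * (b * Q / a) := by
      field_simp
    rw [h2]
    nlinarith [sq_nonneg (a * P / b - b * Q / a)]
  have h3 := mul_le_mul_of_nonneg_left h1 hc
  refine h3.trans (le_of_eq ?_)
  ring

private theorem sum_four (M : ℕ) (B U1 U2 U3 U4 : ℕ → ℕ → ℝ)
    (h : ∀ s t, |B s t| ≤ U1 s t + U2 s t + U3 s t + U4 s t) :
    |∑ s ∈ Finset.range M, ∑ t ∈ Finset.range M, B s t| ≤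
      ∑ s ∈ Finset.range M, ∑ t ∈ Finset.range M, U1 s t +
      ∑ s ∈ Finset.range M, ∑ t ∈ Finset.range M, U2 s t +
      ∑ s ∈ Finset.range M, ∑ t ∈ Finset.range M, U3 s t +
      ∑ s ∈ Finset.range M, ∑ t ∈ Finset.range M, U4 s t := by
  refine (Finset.abs_sum_le_sum_abs _ _).trans ?_
  rw [← Finset.sum_add_distrib, ← Finset.sum_add_distrib, ← Finset.sum_add_distrib]
  refine Finset.sum_le_sum fun s _ => ?_
  refine (Finset.abs_sum_le_sum_abs _ _).trans ?_
  rw [← Finset.sum_add_distrib, ← Finset.sum_add_distrib, ← Finset.sum_add_distrib]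
  exact Finset.sum_le_sum fun t _ => h s t

private theorem fin_aux (a L D A B : ℝ) (ha : 0 ≤ a) (hD : 0 ≤ D) (hA : 0 ≤ A) (hB : 0 ≤ B) :
    a * D * A + a * D * B + a * D / 2 * (1 + 2 * L) * A + a * D / 2 * (1 + 2 * L) * B ≤
      a * (2 + L) * D * (A + B) := by
  have h1 : 0 ≤ a * D / 2 * (A + B) := by positivity
  have h2 : a * (2 + L) * D * (A + B) =
      (a * D * A + a * D * B + a * D / 2 * (1 + 2 * L) * A + a * D / 2 * (1 + 2 * L) * B) +
        a * D / 2 * (A + B) := by ring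
  rw [h2]
  linarith

theorem mix_nat {n Δ : ℕ} (α : ℝ) (hα : 0 < α) (hα1 : α ≤ 1 / 2)
    (π : Fin Δ → Equiv.Perm (Fin n)) (h : Disc α π) (f g : Fin n → ℕ) :
    |∑ e : Fin n × Fin Δ, (f e.1 : ℝ) * (g (pf π e) : ℝ) -
        (Δ : ℝ) / n * (∑ x, (f x : ℝ)) * (∑ y, (g y : ℝ))| ≤
      α * (2 + Real.log (1 / α)) * Δ * (∑ x, (f x : ℝ) ^ 2 + ∑ y, (g y : ℝ) ^ 2) := by
  set M : ℕ := ∑ x, f x + ∑ y, g y with hMd
  have hMf : ∀ x, f x ≤ M := fun x => by
    have := Finset.single_le_sum (f := f) (fun i _ => Nat.zero_le _) (Finset.mem_univ x)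
    omega
  have hMg : ∀ y, g y ≤ M := fun y => by
    have := Finset.single_le_sum (f := g) (fun i _ => Nat.zero_le _) (Finset.mem_univ y)
    omega
  set F : ℕ → Finset (Fin n) := fun s => Finset.univ.filter (fun x => s < f x) with hF
  set G : ℕ → Finset (Fin n) := fun t => Finset.univ.filter (fun y => t < g y) with hG
  have hL : 0 ≤ Real.log (1 / α) := by
    refine Real.log_nonneg ?_
    rw [le_div_iff₀ hα]
    linarith
  have hΔ : (0 : ℝ) ≤ Δ := Nat.cast_nonneg Δ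
  -- expansion
  have hE : ∑ e : Fin n × Fin Δ, (f e.1 : ℝ) * (g (pf π e) : ℝ) =
      ∑ s ∈ Finset.range M, ∑ t ∈ Finset.range M, (ee π (F s) (G t) : ℝ) := by
    have h1 : ∀ e : Fin n × Fin Δ, (f e.1 : ℝ) * (g (pf π e) : ℝ) =
        ∑ s ∈ Finset.range M, ∑ t ∈ Finset.range M,
          if s < f e.1 ∧ t < g (pf π e) then (1 : ℝ) else 0 := by
      intro e
      rw [ind_sum (hMf e.1), ind_sum (hMg (pf π e)), Finset.sum_mul_sum]
      refine Finset.sum_congr rfl fun s _ => Finset.sum_congr rfl fun t _ => ?_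
      by_cases h2 : s < f e.1
      · by_cases h3 : t < g (pf π e)
        · rw [if_pos h2, if_pos h3, if_pos ⟨h2, h3⟩, mul_one]
        · rw [if_neg h3, if_neg (show ¬ (s < f e.1 ∧ t < g (pf π e)) from fun h4 => h3 h4.2),
            mul_zero]
      · rw [if_neg h2, if_neg (show ¬ (s < f e.1 ∧ t < g (pf π e)) from fun h4 => h2 h4.1),
          zero_mul]
    rw [Finset.sum_congr rfl fun e _ => h1 e, Finset.sum_comm]
    refine Finset.sum_congr rfl fun s _ => ?_
    rw [Finset.sum_comm]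
    refine Finset.sum_congr rfl fun t _ => ?_
    rw [← Finset.sum_filter, Finset.sum_const, nsmul_eq_mul, mul_one]
    unfold ee
    congr 2
    ext e
    simp only [hF, hG, Finset.mem_filter, Finset.mem_univ, true_and]
  have hP : (Δ : ℝ) / n * (∑ x, (f x : ℝ)) * (∑ y, (g y : ℝ)) =
      ∑ s ∈ Finset.range M, ∑ t ∈ Finset.range M,
        (Δ : ℝ) * (F s).card * (G t).card / n := by
    rw [← lev_one f hMf, ← lev_one g hMg, mul_assoc, Finset.sum_mul_sum, Finset.mul_sum]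
    refine Finset.sum_congr rfl fun s _ => ?_
    rw [Finset.mul_sum]
    refine Finset.sum_congr rfl fun t _ => ?_
    simp only [hF, hG]
    ring
  rw [hE, hP, ← Finset.sum_sub_distrib]
  have hS : ∑ s ∈ Finset.range M, (∑ t ∈ Finset.range M, (ee π (F s) (G t) : ℝ) -
      ∑ t ∈ Finset.range M, (Δ : ℝ) * (F s).card * (G t).card / n) =
      ∑ s ∈ Finset.range M, ∑ t ∈ Finset.range M,
        ((ee π (F s) (G t) : ℝ) - (Δ : ℝ) * (F s).card * (G t).card / n) := by
    refine Finset.sum_congr rfl fun s _ => ?_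
    rw [Finset.sum_sub_distrib]
  rw [hS]
  -- pointwise bounds
  have hcard : ∀ S : Finset (Fin n), (S.card : ℝ) ≤ n := fun S => by
    have := Finset.card_le_univ S
    rw [Fintype.card_fin] at this
    exact_mod_cast this
  have hb1 : ∀ S T : Finset (Fin n),
      |(ee π S T : ℝ) - (Δ : ℝ) * S.card * T.card / n| ≤ Δ * S.card := by
    intro S T
    have h1 : (ee π S T : ℝ) ≤ Δ * S.card := by exact_mod_cast ee_le_left π S T
    have h2 : (0 : ℝ) ≤ ee π S T := Nat.cast_nonneg _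
    have h3 : (0 : ℝ) ≤ (Δ : ℝ) * S.card * T.card / n := by positivity
    have h4 : (Δ : ℝ) * S.card * T.card / n ≤ Δ * S.card :=
      div_le_of_le_mul₀ (Nat.cast_nonneg n) (by positivity)
        (mul_le_mul_of_nonneg_left (hcard T) (by positivity))
    rw [abs_le]
    constructor <;> linarith
  have hb2 : ∀ S T : Finset (Fin n),
      |(ee π S T : ℝ) - (Δ : ℝ) * S.card * T.card / n| ≤ Δ * T.card := by
    intro S T
    have h1 : (ee π S T : ℝ) ≤ Δ * T.card := by exact_mod_cast ee_le_right π S T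
    have h2 : (0 : ℝ) ≤ ee π S T := Nat.cast_nonneg _
    have h3 : (0 : ℝ) ≤ (Δ : ℝ) * S.card * T.card / n := by positivity
    have h4 : (Δ : ℝ) * S.card * T.card / n ≤ Δ * T.card := by
      refine div_le_of_le_mul₀ (Nat.cast_nonneg n) (by positivity) ?_
      have h5 : (Δ : ℝ) * S.card * T.card = Δ * T.card * S.card := by ring
      rw [h5]
      exact mul_le_mul_of_nonneg_left (hcard S) (by positivity)
    rw [abs_le]
    constructor <;> linarith
  -- the four parts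
  set U1 : ℕ → ℕ → ℝ := fun s t =>
    if (t : ℝ) + 1 ≤ α * ((s : ℝ) + 1) then (Δ : ℝ) * ((F s).card : ℝ) else 0 with hU1
  set U2 : ℕ → ℕ → ℝ := fun s t =>
    if (s : ℝ) + 1 ≤ α * ((t : ℝ) + 1) then (Δ : ℝ) * ((G t).card : ℝ) else 0 with hU2
  set U3 : ℕ → ℕ → ℝ := fun s t =>
    if α * ((s : ℝ) + 1) < (t : ℝ) + 1 ∧ α * ((t : ℝ) + 1) < (s : ℝ) + 1 then
      α * Δ / 2 * (((s : ℝ) + 1) * ((F s).card : ℝ)) * (1 / ((t : ℝ) + 1)) else 0 with hU3
  set U4 : ℕ → ℕ → ℝ := fun s t =>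
    if α * ((t : ℝ) + 1) < (s : ℝ) + 1 ∧ α * ((s : ℝ) + 1) < (t : ℝ) + 1 then
      α * Δ / 2 * (((t : ℝ) + 1) * ((G t).card : ℝ)) * (1 / ((s : ℝ) + 1)) else 0 with hU4
  have hU1n : ∀ s t, 0 ≤ U1 s t := fun s t => by
    simp only [hU1]
    split_ifs <;> positivity
  have hU2n : ∀ s t, 0 ≤ U2 s t := fun s t => by
    simp only [hU2]
    split_ifs <;> positivity
  have hU3n : ∀ s t, 0 ≤ U3 s t := fun s t => by
    simp only [hU3]
    split_ifs <;> positivity
  have hU4n : ∀ s t, 0 ≤ U4 s t := fun s t => by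
    simp only [hU4]
    split_ifs <;> positivity
  have hpt : ∀ s t, |(ee π (F s) (G t) : ℝ) - (Δ : ℝ) * (F s).card * (G t).card / n| ≤
      U1 s t + U2 s t + U3 s t + U4 s t := by
    intro s t
    by_cases h1 : (t : ℝ) + 1 ≤ α * ((s : ℝ) + 1)
    · have h2 : U1 s t = Δ * ((F s).card : ℝ) := by
        simp only [hU1]
        rw [if_pos h1]
      have := hb1 (F s) (G t)
      linarith [hU2n s t, hU3n s t, hU4n s t]
    by_cases h2 : (s : ℝ) + 1 ≤ α * ((t : ℝ) + 1)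
    · have h3 : U2 s t = Δ * ((G t).card : ℝ) := by
        simp only [hU2]
        rw [if_pos h2]
      have := hb2 (F s) (G t)
      linarith [hU1n s t, hU3n s t, hU4n s t]
    rw [not_le] at h1 h2
    have h3 : U3 s t = α * Δ / 2 * (((s : ℝ) + 1) * ((F s).card : ℝ)) * (1 / ((t : ℝ) + 1)) := by
      simp only [hU3]
      rw [if_pos ⟨h1, h2⟩]
    have h4 : U4 s t = α * Δ / 2 * (((t : ℝ) + 1) * ((G t).card : ℝ)) * (1 / ((s : ℝ) + 1)) := by
      simp only [hU4]
      rw [if_pos ⟨h2, h1⟩]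
    have h5 := h (F s) (G t)
    have h6 := amgm ((s : ℝ) + 1) ((t : ℝ) + 1) ((F s).card : ℝ) ((G t).card : ℝ) (α * Δ)
      (by positivity) (by positivity) (Nat.cast_nonneg _) (Nat.cast_nonneg _) (by positivity)
    rw [← h3, ← h4] at h6
    linarith [hU1n s t, hU2n s t]
  -- sums
  have hQf := lev_two f hMf
  have hQg := lev_two g hMg
  have s1 : ∑ s ∈ Finset.range M, ∑ t ∈ Finset.range M, U1 s t ≤
      α * Δ * ∑ x, (f x : ℝ) ^ 2 :=
    part_one hα hΔ M (fun s => ((F s).card : ℝ)) (fun s => Nat.cast_nonneg _) hQf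
  have s2 : ∑ s ∈ Finset.range M, ∑ t ∈ Finset.range M, U2 s t ≤
      α * Δ * ∑ y, (g y : ℝ) ^ 2 := by
    rw [Finset.sum_comm]
    exact part_one hα hΔ M (fun t => ((G t).card : ℝ)) (fun t => Nat.cast_nonneg _) hQg
  have s3 : ∑ s ∈ Finset.range M, ∑ t ∈ Finset.range M, U3 s t ≤
      α * Δ / 2 * (1 + 2 * Real.log (1 / α)) * ∑ x, (f x : ℝ) ^ 2 :=
    part_two hα hα1 hΔ M (fun s => ((F s).card : ℝ)) (fun s => Nat.cast_nonneg _) hQf
  have s4 : ∑ s ∈ Finset.range M, ∑ t ∈ Finset.range M, U4 s t ≤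
      α * Δ / 2 * (1 + 2 * Real.log (1 / α)) * ∑ y, (g y : ℝ) ^ 2 := by
    rw [Finset.sum_comm]
    exact part_two hα hα1 hΔ M (fun t => ((G t).card : ℝ)) (fun t => Nat.cast_nonneg _) hQg
  have hfin := sum_four M
    (fun s t => (ee π (F s) (G t) : ℝ) - (Δ : ℝ) * (F s).card * (G t).card / n) U1 U2 U3 U4 hpt
  refine hfin.trans ((add_le_add (add_le_add (add_le_add s1 s2) s3) s4).trans ?_)
  exact fin_aux α (Real.log (1 / α)) Δ _ _ hα.le hΔ
    (Finset.sum_nonneg fun x _ => sq_nonneg _) (Finset.sum_nonneg fun x _ => sq_nonneg _)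

end Pool.Agent.Lib.P325z
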