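import Pool.Agent.Lib.P325z.Defs

/-!
Module PCnt (1.3h). Permutations that map a set C into a set B.
PROOF of perm_card, by induction on C. Let G(C) = {π | ∀ i ∈ C, π i ∈ B}, b = |B|, c = |C|, i0 ∉ C. If G(C)
is empty so is G(insert i0 C). Otherwise c <= b (a π ∈ G(C) maps C injectively into B), c < n (i0 ∉ C).
For v ∉ C let G_v = {π ∈ G(C) | π v ∈ B}. For v ∉ C the map π ↦ π * swap i0 v is a bijection of G_i0 with
G_v (swap i0 v fixes C pointwise). For π ∈ G(C): #{v | π v ∈ B} = b (π is a bijection), and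
#{v ∈ C | π v ∈ B} = c, so #{v ∉ C | π v ∈ B} = b - c. Double counting: (n - c) |G_i0| = (b - c) |G(C)|, hence
|G(insert i0 C)| = |G_i0| = (b-c)/(n-c) |G(C)| <= (b/n) |G(C)| as b <= n. Base: |Perm (Fin n)| = n!.
perms_card: {π : Fin Δ → Perm | ∀ e ∈ C, π e.2 e.1 ∈ B} is the product (Fintype.piFinset) over j of the sets
{σ | ∀ i ∈ C_j, σ i ∈ B}, C_j = {i | (i, j) ∈ C} (as a Finset: (C.filter (·.2 = j)).image Prod.fst), and
∑_j |C_j| = |C|. Products of the bounds.
-/

open scoped BigOperators

namespace Pool.Agent.Lib.P325z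

namespace PCntAux

/-- the permutations mapping `C` into `B` -/
def G {n : ℕ} (B C : Finset (Fin n)) : Finset (Equiv.Perm (Fin n)) :=
  Finset.univ.filter (fun π : Equiv.Perm (Fin n) => ∀ i ∈ C, π i ∈ B)

theorem mem_G {n : ℕ} {B C : Finset (Fin n)} {π : Equiv.Perm (Fin n)} :
    π ∈ G B C ↔ ∀ i ∈ C, π i ∈ B := by
  unfold G
  rw [Finset.mem_filter]
  exact ⟨fun h => h.2, fun h => ⟨Finset.mem_univ _, h⟩⟩

theorem card_swap {n : ℕ} (B C : Finset (Fin n)) {i0 v : Fin n} (hi : i0 ∉ C) (hv : v ∉ C) :
    ((G B C).filter (fun π => π v ∈ B)).card = (G B (insert i0 C)).card := by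
  refine Finset.card_bij (fun π _ => π * Equiv.swap i0 v) ?_ ?_ ?_
  · intro π hπ
    obtain ⟨h1, h2⟩ := Finset.mem_filter.1 hπ
    rw [mem_G] at h1 ⊢
    intro i hi'
    rcases Finset.mem_insert.1 hi' with h | h
    · subst h
      rw [Equiv.Perm.mul_apply, Equiv.swap_apply_left]
      exact h2
    · rw [Equiv.Perm.mul_apply, Equiv.swap_apply_of_ne_of_ne]
      · exact h1 i h
      · rintro rfl
        exact hi h
      · rintro rfl
        exact hv h
  · intro a _ b _ h
    exact mul_right_cancel h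
  · intro π hπ
    rw [mem_G] at hπ
    refine ⟨π * Equiv.swap i0 v, ?_, ?_⟩
    · rw [Finset.mem_filter, mem_G]
      refine ⟨fun i h => ?_, ?_⟩
      · rw [Equiv.Perm.mul_apply, Equiv.swap_apply_of_ne_of_ne]
        · exact hπ i (Finset.mem_insert_of_mem h)
        · rintro rfl
          exact hi h
        · rintro rfl
          exact hv h
      · rw [Equiv.Perm.mul_apply, Equiv.swap_apply_right]
        exact hπ i0 (Finset.mem_insert_self _ _)
    · rw [mul_assoc, Equiv.swap_mul_self, mul_one]

theorem count_v {n : ℕ} (B C : Finset (Fin n)) {π : Equiv.Perm (Fin n)} (hπ : π ∈ G B C) :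
    C.card + (Cᶜ.filter (fun v => π v ∈ B)).card = B.card := by
  have h1 : (Finset.univ.filter (fun v => π v ∈ B)).card = B.card := by
    have h : Finset.univ.filter (fun v => π v ∈ B) = B.map π.symm.toEmbedding := by
      ext v
      rw [Finset.mem_filter, Finset.mem_map_equiv]
      simp
    rw [h, Finset.card_map]
  rw [← h1]
  have h2 : C.filter (fun v => π v ∈ B) = C := by
    rw [Finset.filter_eq_self]
    exact mem_G.1 hπ
  have h3 : (Finset.univ : Finset (Fin n)) = C ∪ Cᶜ := (Finset.union_compl C).symm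
  rw [h3, Finset.filter_union, Finset.card_union_of_disjoint, h2]
  exact Finset.disjoint_filter_filter disjoint_compl_right

theorem double {n : ℕ} (B C : Finset (Fin n)) {i0 : Fin n} (hi : i0 ∉ C) :
    (Cᶜ).card * (G B (insert i0 C)).card + C.card * (G B C).card = B.card * (G B C).card := by
  have h1 : ∑ v ∈ Cᶜ, ((G B C).filter (fun π => π v ∈ B)).card
      = ∑ π ∈ G B C, (Cᶜ.filter (fun v => π v ∈ B)).card := by
    simp only [Finset.card_filter]
    exact Finset.sum_comm
  have h2 : ∑ v ∈ Cᶜ, ((G B C).filter (fun π => π v ∈ B)).card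
      = (Cᶜ).card * (G B (insert i0 C)).card := by
    rw [Finset.sum_congr rfl (fun v hv => card_swap B C hi (Finset.mem_compl.1 hv)),
      Finset.sum_const, smul_eq_mul]
  rw [← h2, h1]
  have h3 : C.card * (G B C).card = ∑ _π ∈ G B C, C.card := by
    rw [Finset.sum_const, smul_eq_mul, mul_comm]
  have h4 : B.card * (G B C).card = ∑ _π ∈ G B C, B.card := by
    rw [Finset.sum_const, smul_eq_mul, mul_comm]
  rw [h3, h4, ← Finset.sum_add_distrib]
  refine Finset.sum_congr rfl fun π hπ => ?_
  rw [add_comm]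
  exact count_v B C hπ

end PCntAux

open PCntAux in
theorem perm_card {n : ℕ} (B C : Finset (Fin n)) :
    ((Finset.univ.filter (fun π : Equiv.Perm (Fin n) => ∀ i ∈ C, π i ∈ B)).card : ℝ) ≤
      ((B.card : ℝ) / n) ^ C.card * (n.factorial : ℝ) := by
  change ((G B C).card : ℝ) ≤ _
  induction C using Finset.induction_on with
  | empty =>
    rw [Finset.card_empty, pow_zero, one_mul]
    have h : (G B ∅).card ≤ n.factorial := by
      calc (G B ∅).card ≤ (Finset.univ : Finset (Equiv.Perm (Fin n))).card :=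
            Finset.card_le_card (Finset.filter_subset _ _)
        _ = n.factorial := by rw [Finset.card_univ, Fintype.card_perm, Fintype.card_fin]
    exact_mod_cast h
  | insert i0 C hi ih =>
    rw [Finset.card_insert_of_notMem hi, pow_succ]
    have hd := double B C hi
    have hc : C.card + (Cᶜ).card = n := by
      rw [Finset.card_add_card_compl, Fintype.card_fin]
    have hn0 : 0 < n := i0.pos
    have hcc : 0 < (Cᶜ).card := Finset.card_pos.2 ⟨i0, Finset.mem_compl.2 hi⟩
    have hb : B.card ≤ n := by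
      have := Finset.card_le_univ B
      rwa [Fintype.card_fin] at this
    have hd' : ((Cᶜ).card : ℝ) * (G B (insert i0 C)).card + C.card * (G B C).card
        = B.card * (G B C).card := by exact_mod_cast hd
    have hc' : (C.card : ℝ) + ((Cᶜ).card : ℝ) = n := by exact_mod_cast hc
    have hn' : (0 : ℝ) < n := by exact_mod_cast hn0
    have hcc' : (0 : ℝ) < ((Cᶜ).card : ℝ) := by exact_mod_cast hcc
    have hb' : (B.card : ℝ) ≤ n := by exact_mod_cast hb
    have hg : (0 : ℝ) ≤ (G B C).card := Nat.cast_nonneg _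
    have hC0 : (0 : ℝ) ≤ C.card := Nat.cast_nonneg _
    have key : ((G B (insert i0 C)).card : ℝ) ≤ (B.card : ℝ) / n * (G B C).card := by
      rw [div_mul_eq_mul_div, le_div_iff₀ hn']
      have h5 : ((Cᶜ).card : ℝ) * ((G B (insert i0 C)).card * n)
          ≤ ((Cᶜ).card : ℝ) * (B.card * (G B C).card) := by
        have h6 : ((Cᶜ).card : ℝ) * (G B (insert i0 C)).card
            = (B.card - C.card) * (G B C).card := by linarith
        have h7 : ((Cᶜ).card : ℝ) * ((G B (insert i0 C)).card * n)
            = (B.card - C.card) * (G B C).card * n := by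
          rw [← mul_assoc, h6]
        rw [h7]
        have h8 : ((B.card : ℝ) - C.card) * n ≤ ((Cᶜ).card : ℝ) * B.card := by
          have h9 : (C.card : ℝ) * B.card ≤ C.card * n := mul_le_mul_of_nonneg_left hb' hC0
          have h10 : ((Cᶜ).card : ℝ) = n - C.card := by linarith
          rw [h10]
          nlinarith
        nlinarith [mul_le_mul_of_nonneg_right h8 hg]
      exact le_of_mul_le_mul_left h5 hcc'
    calc ((G B (insert i0 C)).card : ℝ) ≤ (B.card : ℝ) / n * (G B C).card := key
      _ ≤ (B.card : ℝ) / n * (((B.card : ℝ) / n) ^ C.card * (n.factorial : ℝ)) :=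
          mul_le_mul_of_nonneg_left ih (by positivity)
      _ = ((B.card : ℝ) / n) ^ C.card * ((B.card : ℝ) / n) * (n.factorial : ℝ) := by ring

theorem perms_card {n Δ : ℕ} (B : Finset (Fin n)) (C : Finset (Fin n × Fin Δ)) :
    ((Finset.univ.filter (fun π : Fin Δ → Equiv.Perm (Fin n) => ∀ e ∈ C, pf π e ∈ B)).card : ℝ) ≤
      ((B.card : ℝ) / n) ^ C.card * (n.factorial : ℝ) ^ Δ := by
  classical
  set Cj : Fin Δ → Finset (Fin n) := fun j => (C.filter (fun e => e.2 = j)).image Prod.fst with hCj
  have h1 : Finset.univ.filter (fun π : Fin Δ → Equiv.Perm (Fin n) => ∀ e ∈ C, pf π e ∈ B)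
      = Fintype.piFinset (fun j => Finset.univ.filter
          (fun π : Equiv.Perm (Fin n) => ∀ i ∈ Cj j, π i ∈ B)) := by
    ext π
    rw [Finset.mem_filter, Fintype.mem_piFinset]
    constructor
    · rintro ⟨-, h⟩ j
      rw [Finset.mem_filter]
      refine ⟨Finset.mem_univ _, fun i hi => ?_⟩
      obtain ⟨e, he, hei⟩ := Finset.mem_image.1 hi
      obtain ⟨he1, he2⟩ := Finset.mem_filter.1 he
      have h2 := h e he1
      unfold pf at h2
      rw [he2, hei] at h2
      exact h2
    · intro h
      refine ⟨Finset.mem_univ _, fun e he => ?_⟩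
      exact (Finset.mem_filter.1 (h e.2)).2 e.1
        (Finset.mem_image.2 ⟨e, Finset.mem_filter.2 ⟨he, rfl⟩, rfl⟩)
  have h2 : ∑ j, (Cj j).card = C.card := by
    rw [Finset.card_eq_sum_card_fiberwise (f := Prod.snd) (t := Finset.univ)
      (fun _ _ => Finset.mem_coe.2 (Finset.mem_univ _))]
    refine Finset.sum_congr rfl fun j _ => ?_
    refine Finset.card_image_of_injOn ?_
    intro a ha b hb hab
    have ha' := (Finset.mem_filter.1 (Finset.mem_coe.1 ha)).2
    have hb' := (Finset.mem_filter.1 (Finset.mem_coe.1 hb)).2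
    exact Prod.ext hab (ha'.trans hb'.symm)
  rw [h1, Fintype.card_piFinset, Nat.cast_prod]
  calc ∏ j, ((Finset.univ.filter
          (fun π : Equiv.Perm (Fin n) => ∀ i ∈ Cj j, π i ∈ B)).card : ℝ)
      ≤ ∏ j : Fin Δ, (((B.card : ℝ) / n) ^ (Cj j).card * (n.factorial : ℝ)) :=
        Finset.prod_le_prod (fun j _ => Nat.cast_nonneg _) (fun j _ => perm_card B (Cj j))
    _ = ((B.card : ℝ) / n) ^ C.card * (n.factorial : ℝ) ^ Δ := by
        rw [Finset.prod_mul_distrib, Finset.prod_pow_eq_pow_sum, h2, Finset.prod_const,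
          Finset.card_univ, Fintype.card_fin]

end Pool.Agent.Lib.P325z
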