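import Pool.Agent.Lib.P325z.PCnt
import Pool.Agent.Lib.P325L.ChBd

/-!
Module TCnt (1h; black boxes perms_card, P325L.ch_bd). Counting dense triples over families of
permutations: the same bound as P325L.cnt (Pool/Agent/Lib/P325L/Cnt.lean), whose proof is to be adapted.
PROOF. Exchange the sums: ∑_π |triples n Δ a b m (pf π)| = ∑ over (A, B, C) with |A| = a, |B| = b, |C| = m,
C ⊆ A × univ of #{π | ∀ e ∈ C, pf π e ∈ B} <= ∑ (b/n)^m (n!)^Δ. The number of such (A, B, C) is
choose n a * choose n b * choose (aΔ) m (in Cnt.lean: private lemmas filter_card, filter_C; copy them).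
Then ch_bd.
-/

open scoped BigOperators

namespace Pool.Agent.Lib.P325z

open Pool.Agent.Lib.P325L (triples)

private theorem filter_card (α : Type) [Fintype α] [DecidableEq α] (b : ℕ) :
    (Finset.univ.filter (fun B : Finset α => B.card = b)).card = (Fintype.card α).choose b := by
  have h : (Finset.univ.filter (fun B : Finset α => B.card = b)) =
      Finset.powersetCard b Finset.univ := by
    ext B
    simp [Finset.mem_powersetCard]
  rw [h, Finset.card_powersetCard, Finset.card_univ]

private theorem filter_C (n Δ m : ℕ) (A : Finset (Fin n)) :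
    (Finset.univ.filter (fun C : Finset (Fin n × Fin Δ) => C.card = m ∧ ∀ e ∈ C, e.1 ∈ A)).card =
      (A.card * Δ).choose m := by
  classical
  have h : (Finset.univ.filter
      (fun C : Finset (Fin n × Fin Δ) => C.card = m ∧ ∀ e ∈ C, e.1 ∈ A)) =
      Finset.powersetCard m (A ×ˢ (Finset.univ : Finset (Fin Δ))) := by
    ext C
    rw [Finset.mem_filter, Finset.mem_powersetCard]
    constructor
    · rintro ⟨-, h1, h2⟩
      exact ⟨fun e he => Finset.mem_product.2 ⟨h2 e he, Finset.mem_univ _⟩, h1⟩
    · rintro ⟨h1, h2⟩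
      exact ⟨Finset.mem_univ _, h2, fun e he => (Finset.mem_product.1 (h1 he)).1⟩
  rw [h, Finset.card_powersetCard, Finset.card_product]
  simp

private theorem sum_T (n Δ a b m : ℕ) (K : ℝ) :
    (∑ T : Finset (Fin n) × Finset (Fin n) × Finset (Fin n × Fin Δ),
      if T.1.card = a then (if T.2.1.card = b then
        (if (T.2.2.card = m ∧ ∀ e ∈ T.2.2, e.1 ∈ T.1) then K else 0) else 0) else 0) =
      (n.choose a : ℝ) * ((n.choose b : ℝ) * (((a * Δ).choose m : ℝ) * K)) := by
  classical
  simp_rw [Fintype.sum_prod_type]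
  have hBsum : ∀ A : Finset (Fin n), (∑ B : Finset (Fin n), ∑ C : Finset (Fin n × Fin Δ),
      if A.card = a then (if B.card = b then
        (if (C.card = m ∧ ∀ e ∈ C, e.1 ∈ A) then K else 0)
        else 0) else 0) = if A.card = a then
        (n.choose b : ℝ) * (((a * Δ).choose m : ℝ) * K) else 0 := by
    intro A
    by_cases hA : A.card = a
    · rw [if_pos hA]
      have h1 : ∀ B : Finset (Fin n), (∑ C : Finset (Fin n × Fin Δ),
          if A.card = a then (if B.card = b then
          (if (C.card = m ∧ ∀ e ∈ C, e.1 ∈ A) then K else 0)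
          else 0) else 0) = if B.card = b then
            ((a * Δ).choose m : ℝ) * K else 0 := by
        intro B
        by_cases hB : B.card = b
        · have hK : ((A.card * Δ).choose m : ℝ) * K = ∑ C : Finset (Fin n × Fin Δ),
              if (C.card = m ∧ ∀ e ∈ C, e.1 ∈ A) then K else 0 := by
            rw [← Finset.sum_filter, Finset.sum_const, filter_C, nsmul_eq_mul]
          rw [if_pos hB, ← hA, hK]
          refine Finset.sum_congr rfl fun C _ => ?_
          rw [if_pos rfl, if_pos hB]
        · rw [if_neg hB]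
          refine Finset.sum_eq_zero fun C _ => ?_
          rw [if_neg hB, ite_self]
      rw [Finset.sum_congr rfl fun B _ => h1 B, ← Finset.sum_filter, Finset.sum_const,
        filter_card, Fintype.card_fin, nsmul_eq_mul]
    · rw [if_neg hA]
      refine Finset.sum_eq_zero fun B _ => Finset.sum_eq_zero fun C _ => ?_
      rw [if_neg hA]
  rw [Finset.sum_congr rfl fun A _ => hBsum A, ← Finset.sum_filter, Finset.sum_const,
    filter_card, Fintype.card_fin, nsmul_eq_mul]

private theorem cntP_le (n Δ a b m : ℕ) :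
    (∑ π : Fin Δ → Equiv.Perm (Fin n), ((triples n Δ a b m (pf π)).card : ℝ)) ≤
      (n.choose a : ℝ) * ((n.choose b : ℝ) * (((a * Δ).choose m : ℝ) *
        (((b : ℝ) / n) ^ m * (n.factorial : ℝ) ^ Δ))) := by
  classical
  rw [← sum_T]
  unfold triples
  simp_rw [Finset.card_filter, Nat.cast_sum]
  rw [Finset.sum_comm]
  refine Finset.sum_le_sum fun T _ => ?_
  obtain ⟨A, B, C⟩ := T
  by_cases hA : A.card = a
  · by_cases hB : B.card = b
    · by_cases hC : C.card = m ∧ ∀ e ∈ C, e.1 ∈ A
      · rw [if_pos hA, if_pos hB, if_pos hC]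
        have h1 := perms_card (Δ := Δ) B C
        rw [Finset.card_filter, hB, hC.1, Nat.cast_sum] at h1
        refine le_trans (le_of_eq ?_) h1
        refine Finset.sum_congr rfl fun f _ => ?_
        by_cases hf : ∀ e ∈ C, pf f e ∈ B
        · rw [if_pos hf, if_pos ⟨hA, hB, hC.1, hC.2, hf⟩]
        · rw [if_neg hf, if_neg (fun h => hf h.2.2.2.2)]
      · rw [if_pos hA, if_pos hB, if_neg hC]
        refine le_of_eq (Finset.sum_eq_zero fun f _ => ?_)
        rw [if_neg (fun h => hC ⟨h.2.2.1, h.2.2.2.1⟩), Nat.cast_zero]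
    · rw [if_pos hA, if_neg hB]
      refine le_of_eq (Finset.sum_eq_zero fun f _ => ?_)
      rw [if_neg (fun h => hB h.2.1), Nat.cast_zero]
  · rw [if_neg hA]
    refine le_of_eq (Finset.sum_eq_zero fun f _ => ?_)
    rw [if_neg (fun h => hA h.1), Nat.cast_zero]

theorem cntP (n Δ a b m : ℕ) (hn : 1 ≤ n) (ha : 1 ≤ a) (hb : 1 ≤ b) (hab : a + b ≤ m) :
    (∑ π : Fin Δ → Equiv.Perm (Fin n), ((triples n Δ a b m (pf π)).card : ℝ)) ≤
      (n.factorial : ℝ) ^ Δ * ((9 * (Δ : ℝ)) ^ m * ((m : ℝ) / n) ^ (m - (a + b))) := by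
  refine le_trans (cntP_le n Δ a b m) ?_
  have h := P325L.ch_bd n Δ a b m hn ha hb hab
  refine le_trans (le_of_eq ?_) (mul_le_mul_of_nonneg_left h
    (by positivity : (0 : ℝ) ≤ (n.factorial : ℝ) ^ Δ))
  ring

end Pool.Agent.Lib.P325z
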