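import Mathlib

/-!
Module TailNum: real inequalities for the tails.
-/

namespace Pool.Agent.Lib.P325z

theorem up_ineq (r : ℝ) (hr : 0 ≤ r) :
    r - (1 + r) * Real.log (1 + r) ≤ -(r / 2 * Real.log (1 + r)) := by
  have h1 := Real.le_log_one_add_of_nonneg hr
  have h2 : 0 < r + 2 := by linarith
  have h3 : r = (1 + r / 2) * (2 * r / (r + 2)) := by
    field_simp
    ring
  have h4 : (1 + r / 2) * (2 * r / (r + 2)) ≤ (1 + r / 2) * Real.log (1 + r) :=
    mul_le_mul_of_nonneg_left h1 (by linarith)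
  have h5 : r ≤ (1 + r / 2) * Real.log (1 + r) := by
    calc r = (1 + r / 2) * (2 * r / (r + 2)) := h3
      _ ≤ _ := h4
  nlinarith

theorem low_ineq (r : ℝ) (hr : 0 ≤ r) (hr1 : r ≤ 1) :
    -(r / (1 + r)) + (1 - r) * Real.log (1 + r) ≤ -(r / 2 * Real.log (1 + r)) := by
  have h0 : 0 < 1 + r := by linarith
  have h1 : Real.log (1 + r) ≤ ((1 + r) - (1 + r)⁻¹) / 2 := by
    rw [← Real.sinh_log h0]
    exact Real.self_le_sinh_iff.2 (Real.log_nonneg (by linarith))
  have h2 : (1 - r / 2) * Real.log (1 + r) ≤ (1 - r / 2) * (((1 + r) - (1 + r)⁻¹) / 2) :=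
    mul_le_mul_of_nonneg_left h1 (by linarith)
  have h3 : (1 - r / 2) * (((1 + r) - (1 + r)⁻¹) / 2) = r / (1 + r) - r ^ 3 / (4 * (1 + r)) := by
    field_simp
    ring
  have h4 : 0 ≤ r ^ 3 / (4 * (1 + r)) := by positivity
  nlinarith

namespace TailNumAux

theorem phi_mono {c A n : ℝ} (hc : 0 < c) (hcA : c ≤ A) (hAn : A ≤ n) :
    c * (1 + Real.log (n / c)) ≤ A * (1 + Real.log (n / A)) := by
  have hA : 0 < A := lt_of_lt_of_le hc hcA
  have hn : 0 < n := lt_of_lt_of_le hA hAn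
  have h1 : Real.log (n / c) = Real.log (n / A) + Real.log (A / c) := by
    rw [← Real.log_mul (by positivity) (by positivity)]
    congr 1
    field_simp
  have h2 : Real.log (A / c) ≤ A / c - 1 := Real.log_le_sub_one_of_pos (by positivity)
  have h3 : 0 ≤ Real.log (n / A) := Real.log_nonneg (by rw [le_div_iff₀ hA]; linarith)
  have h4 : c * Real.log (A / c) ≤ c * (A / c - 1) := mul_le_mul_of_nonneg_left h2 hc.le
  have h5 : c * (A / c - 1) = A - c := by field_simp
  have h6 : c * Real.log (n / A) ≤ A * Real.log (n / A) := mul_le_mul_of_nonneg_right hcA h3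
  rw [h1]
  nlinarith

/-- the case `c ≤ A` -/
theorem core (D A c n : ℝ) (hD : 6 ≤ D) (hc : 1 ≤ c) (hcA : c ≤ A) (hAn : A ≤ n)
    (hmin : D ^ 6 * Real.sqrt (A * c) ≤ D ^ 8 * c) :
    3 * (A * (1 + Real.log (n / A)) + c * (1 + Real.log (n / c))) ≤
      D ^ 6 * Real.sqrt (A * c) / 2 * Real.log (1 + n / (D ^ 2 * Real.sqrt (A * c))) := by
  have hc0 : 0 < c := by linarith
  have hA : 0 < A := by linarith
  have hn : 0 < n := by linarith
  have hD0 : 0 < D := by linarith
  set q : ℝ := Real.sqrt (A * c) with hq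
  have hq0 : 0 < q := Real.sqrt_pos.2 (by positivity)
  have hqq : q * q = A * c := Real.mul_self_sqrt (by positivity)
  have hqA : q ≤ A := by
    rw [hq, Real.sqrt_le_left hA.le]
    nlinarith
  have hqc : q ≤ D ^ 2 * c := by
    have h1 : D ^ 6 * q ≤ D ^ 6 * (D ^ 2 * c) := by
      calc D ^ 6 * q ≤ D ^ 8 * c := hmin
        _ = D ^ 6 * (D ^ 2 * c) := by ring
    exact le_of_mul_le_mul_left h1 (by positivity)
  have hAq : A ≤ D ^ 2 * q := by
    have h1 : c * A ≤ c * (D ^ 2 * q) := by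
      calc c * A = q * q := by rw [hqq]; ring
        _ ≤ D ^ 2 * c * q := mul_le_mul_of_nonneg_right hqc hq0.le
        _ = c * (D ^ 2 * q) := by ring
    exact le_of_mul_le_mul_left h1 hc0
  set y : ℝ := n / A with hy
  have hy1 : 1 ≤ y := by rw [hy, le_div_iff₀ hA]; linarith
  have hD2 : 1 ≤ D ^ 2 := by nlinarith
  have hD36 : 36 ≤ D ^ 2 := by nlinarith
  have hD20 : 0 < D ^ 2 := by positivity
  -- concavity
  have h1 : Real.log (1 + y) ≤ D ^ 2 * Real.log (1 + y / D ^ 2) := by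
    have hs : (-1 : ℝ) ≤ y / D ^ 2 := by
      have : 0 ≤ y / D ^ 2 := by positivity
      linarith
    have h2 := one_add_mul_self_le_rpow_one_add hs hD2
    have h3 : D ^ 2 * (y / D ^ 2) = y := by field_simp
    rw [h3] at h2
    have h4 : 0 < 1 + y / D ^ 2 := by positivity
    rw [← Real.log_rpow h4]
    exact Real.log_le_log (by linarith) h2
  have h2 : y / D ^ 2 ≤ n / (D ^ 2 * q) := by
    rw [hy, div_div]
    apply div_le_div_of_nonneg_left hn.le (by positivity)
    nlinarith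
  have h3 : Real.log (1 + y / D ^ 2) ≤ Real.log (1 + n / (D ^ 2 * q)) :=
    Real.log_le_log (by positivity) (by linarith)
  have hl : 0 ≤ Real.log (1 + y) := Real.log_nonneg (by linarith)
  have hl2 : 1 / 2 ≤ Real.log (1 + y) := by
    have h5 : Real.log 2 ≤ Real.log (1 + y) := Real.log_le_log (by norm_num) (by linarith)
    have h6 : 0.6931471803 < Real.log 2 := Real.log_two_gt_d9
    linarith
  have hl3 : Real.log y ≤ Real.log (1 + y) := Real.log_le_log (by linarith) (by linarith)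
  have hR : 18 * A * Real.log (1 + y) ≤ D ^ 6 * q / 2 * Real.log (1 + n / (D ^ 2 * q)) := by
    have h7 : Real.log (1 + y) ≤ D ^ 2 * Real.log (1 + n / (D ^ 2 * q)) :=
      h1.trans (mul_le_mul_of_nonneg_left h3 hD20.le)
    have h8 : D ^ 6 * q / 2 * Real.log (1 + n / (D ^ 2 * q)) =
        D ^ 4 * q / 2 * (D ^ 2 * Real.log (1 + n / (D ^ 2 * q))) := by ring
    rw [h8]
    have h9 : 18 * A ≤ D ^ 4 * q / 2 := by
      have h10 : 36 * A ≤ D ^ 2 * (D ^ 2 * q) := by
        calc 36 * A ≤ D ^ 2 * A := mul_le_mul_of_nonneg_right hD36 hA.le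
          _ ≤ D ^ 2 * (D ^ 2 * q) := mul_le_mul_of_nonneg_left hAq hD20.le
      nlinarith
    calc 18 * A * Real.log (1 + y) ≤ D ^ 4 * q / 2 * Real.log (1 + y) :=
          mul_le_mul_of_nonneg_right h9 hl
      _ ≤ _ := mul_le_mul_of_nonneg_left h7 (by positivity)
  have hL : 3 * (A * (1 + Real.log y) + c * (1 + Real.log (n / c))) ≤
      18 * A * Real.log (1 + y) := by
    have h11 := phi_mono hc0 hcA hAn
    have h12 : A * (1 + Real.log y) ≤ A * (3 * Real.log (1 + y)) :=
      mul_le_mul_of_nonneg_left (by linarith) hA.le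
    rw [← hy] at h11
    linarith
  exact hL.trans hR

end TailNumAux

theorem tail_num (D a b n : ℝ) (hD : 6 ≤ D) (ha : 1 ≤ a) (hb : 1 ≤ b) (han : a ≤ n) (hbn : b ≤ n)
    (hmin : D ^ 6 * Real.sqrt (a * b) ≤ D ^ 8 * min a b) :
    3 * (a * (1 + Real.log (n / a)) + b * (1 + Real.log (n / b))) ≤
      D ^ 6 * Real.sqrt (a * b) / 2 * Real.log (1 + n / (D ^ 2 * Real.sqrt (a * b))) := by
  rcases le_total b a with h | h
  · rw [min_eq_right h] at hmin
    exact TailNumAux.core D a b n hD hb h han hmin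
  · rw [min_eq_left h, mul_comm a b] at hmin
    rw [mul_comm a b, add_comm (a * _)]
    exact TailNumAux.core D b a n hD ha h hbn hmin

end Pool.Agent.Lib.P325z
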