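import Pool.Agent.Lib.P325z.Mgf
import Pool.Agent.Lib.P325z.TailNum

/-!
Module Tail (1.8h; black boxes mgf_up, mgf_low, up_ineq, low_ineq, tail_num). The tail for one pair of sets.
Δ = D^8, α = 1/D^2, a = |S| >= 1, b = |T| >= 1, M = Δ a b/n (mean), t = α Δ sqrt(ab) = D^6 sqrt(ab), r = t/M
= n/(D^2 sqrt(ab)). X = ee π S T. Trivially 0 <= X <= Δ min(a,b) (X <= |S| Δ since the edges are in S × univ;
X <= |T| Δ since e ↦ (pf π e, e.2) is injective) and M <= Δ min(a,b) (a, b <= n).
CASE t >= Δ min(a,b): |X - M| <= Δ min(a,b) <= t, so no π is bad. CASE t < Δ min(a,b): tail_num applies. Upper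
tail: if X > M + t then (1+r)^X >= (1+r)^(M+t) (rpow), so by mgf_up with x = r (Markov):
#{π | X > M + t} (1+r)^(M+t) <= (n!)^Δ exp (r M), r M = t, (M+t) = M (1+r):
# <= (n!)^Δ exp (M (r - (1+r) log (1+r))) <= (n!)^Δ exp (-(M r/2) log (1+r)) = (n!)^Δ exp (-(t/2) log (1+r)).
Lower tail: X < M - t needs t < M, r < 1. With 1 - y = 1/(1+r), y = r/(1+r): (1-y)^X >= (1-y)^(M-t) (as X < M - t,
0 < 1-y <= 1), so # (1+r)^(-(M-t)) <= (n!)^Δ exp (-y M), # <= (n!)^Δ exp (M (-(r/(1+r)) + (1-r) log (1+r)))
<= (n!)^Δ exp (-(t/2) log (1+r)) by low_ineq. Sum of both and tail_num.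
-/

open scoped BigOperators

namespace Pool.Agent.Lib.P325z

/-- `x (1 + log (n / x))` -/
noncomputable def ph (n : ℕ) (x : ℕ) : ℝ := (x : ℝ) * (1 + Real.log ((n : ℝ) / x))

namespace TailAux

theorem ee_le_left {n Δ : ℕ} (π : Fin Δ → Equiv.Perm (Fin n)) (S T : Finset (Fin n)) :
    ee π S T ≤ S.card * Δ := by
  have h : Finset.univ.filter (fun e : Fin n × Fin Δ => e.1 ∈ S ∧ pf π e ∈ T) ⊆
      S ×ˢ (Finset.univ : Finset (Fin Δ)) := by
    intro e he
    rw [Finset.mem_filter] at he
    rw [Finset.mem_product]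
    exact ⟨he.2.1, Finset.mem_univ _⟩
  have h2 := Finset.card_le_card h
  rw [Finset.card_product, Finset.card_univ, Fintype.card_fin] at h2
  exact h2

theorem ee_le_right {n Δ : ℕ} (π : Fin Δ → Equiv.Perm (Fin n)) (S T : Finset (Fin n)) :
    ee π S T ≤ T.card * Δ := by
  have h2 : (Finset.univ.filter (fun e : Fin n × Fin Δ => e.1 ∈ S ∧ pf π e ∈ T)).card ≤
      (T ×ˢ (Finset.univ : Finset (Fin Δ))).card := by
    refine Finset.card_le_card_of_injOn (fun e => (pf π e, e.2)) ?_ ?_
    · intro e he
      have he' := Finset.mem_coe.1 he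
      rw [Finset.mem_filter] at he'
      rw [Finset.mem_coe, Finset.mem_product]
      exact ⟨he'.2.2, Finset.mem_univ _⟩
    · intro e _ e' _ h
      simp only [Prod.mk.injEq] at h
      obtain ⟨h1, h3⟩ := h
      unfold pf at h1
      rw [h3] at h1
      exact Prod.ext ((π e'.2).injective h1) h3
  rw [Finset.card_product, Finset.card_univ, Fintype.card_fin] at h2
  exact h2

/-- Markov's inequality in the form used below -/
theorem markov {ι : Type} [Fintype ι] (U : Finset ι) (g : ι → ℝ) (hg : ∀ i, 0 ≤ g i) {c R : ℝ}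
    (hU : ∀ i ∈ U, Real.exp c ≤ g i) (hR : ∑ i, g i ≤ R) :
    (U.card : ℝ) ≤ R * Real.exp (-c) := by
  have h1 : (U.card : ℝ) * Real.exp c ≤ R := by
    calc (U.card : ℝ) * Real.exp c = ∑ _i ∈ U, Real.exp c := by
          rw [Finset.sum_const, nsmul_eq_mul]
      _ ≤ ∑ i ∈ U, g i := Finset.sum_le_sum hU
      _ ≤ ∑ i, g i := Finset.sum_le_sum_of_subset_of_nonneg (Finset.subset_univ U)
          fun i _ _ => hg i
      _ ≤ R := hR
  rw [Real.exp_neg, ← div_eq_mul_inv, le_div_iff₀ (Real.exp_pos c)]
  exact h1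

end TailAux

open TailAux

theorem tail_one (n D : ℕ) (hn : 1 ≤ n) (hD : 6 ≤ D) (S T : Finset (Fin n)) (hS : S.Nonempty)
    (hT : T.Nonempty) :
    ((Finset.univ.filter (fun π : Fin (D ^ 8) → Equiv.Perm (Fin n) =>
      1 / (D : ℝ) ^ 2 * ((D ^ 8 : ℕ) : ℝ) * Real.sqrt ((S.card : ℝ) * T.card) <
        |(ee π S T : ℝ) - ((D ^ 8 : ℕ) : ℝ) * S.card * T.card / n|)).card : ℝ) ≤
      (n.factorial : ℝ) ^ (D ^ 8) * (2 * Real.exp (-(3 * (ph n S.card + ph n T.card)))) := by
  classical
  set a : ℝ := (S.card : ℝ) with ha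
  set b : ℝ := (T.card : ℝ) with hb
  set Dl : ℝ := ((D ^ 8 : ℕ) : ℝ) with hDl
  have hDr : (6 : ℝ) ≤ D := by exact_mod_cast hD
  have hD0 : (0 : ℝ) < D := by linarith
  have hDl' : Dl = (D : ℝ) ^ 8 := by rw [hDl]; push_cast; ring
  have hn1 : (1 : ℝ) ≤ n := by exact_mod_cast hn
  have hn0 : (0 : ℝ) < n := by linarith
  have ha1 : 1 ≤ a := by
    rw [ha]
    exact_mod_cast hS.card_pos
  have hb1 : 1 ≤ b := by
    rw [hb]
    exact_mod_cast hT.card_pos
  have han : a ≤ n := by
    rw [ha]
    have := Finset.card_le_univ S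
    rw [Fintype.card_fin] at this
    exact_mod_cast this
  have hbn : b ≤ n := by
    rw [hb]
    have := Finset.card_le_univ T
    rw [Fintype.card_fin] at this
    exact_mod_cast this
  have hab : 0 < a * b := by positivity
  set q : ℝ := Real.sqrt (a * b) with hq
  have hq0 : 0 < q := Real.sqrt_pos.2 hab
  have hqq : q * q = a * b := Real.mul_self_sqrt hab.le
  set M : ℝ := Dl * a * b / n with hM
  have hM0 : 0 ≤ M := by rw [hM, hDl']; positivity
  set t : ℝ := 1 / (D : ℝ) ^ 2 * Dl * q with ht
  have ht' : t = (D : ℝ) ^ 6 * q := by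
    rw [ht, hDl']
    field_simp
  have ht0 : 0 < t := by rw [ht']; positivity
  set r : ℝ := n / ((D : ℝ) ^ 2 * q) with hr
  have hr0 : 0 < r := by positivity
  have hMr : M * r = t := by
    rw [hM, hr, ht', hDl']
    field_simp
    rw [sq, hqq]
  have hXa : ∀ π : Fin (D ^ 8) → Equiv.Perm (Fin n), (ee π S T : ℝ) ≤ Dl * a := by
    intro π
    have h := ee_le_left π S T
    rw [hDl, ha, mul_comm]
    exact_mod_cast h
  have hXb : ∀ π : Fin (D ^ 8) → Equiv.Perm (Fin n), (ee π S T : ℝ) ≤ Dl * b := by
    intro π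
    have h := ee_le_right π S T
    rw [hDl, hb, mul_comm]
    exact_mod_cast h
  have hDl0 : 0 < Dl := by rw [hDl']; positivity
  have hMa : M ≤ Dl * a := by
    rw [hM, div_le_iff₀ hn0]
    exact mul_le_mul_of_nonneg_left hbn (by positivity)
  have hMb : M ≤ Dl * b := by
    rw [hM, div_le_iff₀ hn0]
    have : Dl * a * b = Dl * b * a := by ring
    rw [this]
    exact mul_le_mul_of_nonneg_left han (by positivity)
  have hfac : (0 : ℝ) < (n.factorial : ℝ) ^ (D ^ 8) := by positivity
  rcases le_or_gt (Dl * min a b) t with hcase | hcase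
  · have hemp : Finset.univ.filter (fun π : Fin (D ^ 8) → Equiv.Perm (Fin n) =>
        t < |(ee π S T : ℝ) - M|) = ∅ := by
      rw [Finset.filter_eq_empty_iff]
      intro π _
      rw [not_lt]
      refine le_trans ?_ hcase
      have h1 : (ee π S T : ℝ) ≤ Dl * min a b := by
        rcases min_choice a b with h | h
        · rw [h]; exact hXa π
        · rw [h]; exact hXb π
      have h2 : M ≤ Dl * min a b := by
        rcases min_choice a b with h | h
        · rw [h]; exact hMa
        · rw [h]; exact hMb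
      have h3 : (0 : ℝ) ≤ (ee π S T : ℝ) := Nat.cast_nonneg _
      rw [abs_le]
      constructor <;> linarith
    rw [hemp, Finset.card_empty, Nat.cast_zero]
    positivity
  · set Lg : ℝ := Real.log (1 + r) with hLg
    have hLg0 : 0 ≤ Lg := Real.log_nonneg (by linarith)
    have hexpL : Real.exp Lg = 1 + r := Real.exp_log (by linarith)
    have hnum : 3 * (ph n S.card + ph n T.card) ≤ t / 2 * Lg := by
      have h := tail_num D a b n hDr ha1 hb1 han hbn (by
        rw [← hq, ← ht', ← hDl']
        exact hcase.le)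
      rw [← hq, ← ht', ← hr, ← hLg] at h
      exact h
    set U := Finset.univ.filter (fun π : Fin (D ^ 8) → Equiv.Perm (Fin n) =>
      M + t < (ee π S T : ℝ)) with hU
    set L := Finset.univ.filter (fun π : Fin (D ^ 8) → Equiv.Perm (Fin n) =>
      (ee π S T : ℝ) < M - t) with hL
    have hsub : Finset.univ.filter (fun π : Fin (D ^ 8) → Equiv.Perm (Fin n) =>
        t < |(ee π S T : ℝ) - M|) ⊆ U ∪ L := by
      intro π hπ
      rw [Finset.mem_filter] at hπ
      rw [Finset.mem_union, hU, hL, Finset.mem_filter, Finset.mem_filter]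
      rcases lt_abs.1 hπ.2 with h | h
      · left
        exact ⟨Finset.mem_univ _, by linarith⟩
      · right
        exact ⟨Finset.mem_univ _, by linarith⟩
    have hUc : (U.card : ℝ) ≤ (n.factorial : ℝ) ^ (D ^ 8) * Real.exp (-(t / 2 * Lg)) := by
      have h1 := markov U (fun π => (1 + r) ^ (ee π S T)) (fun π => by positivity)
        (c := (M + t) * Lg) (fun π hπ => by
          rw [hU, Finset.mem_filter] at hπ
          rw [← hexpL, ← Real.exp_nat_mul, Real.exp_le_exp]
          exact mul_le_mul_of_nonneg_right hπ.2.le hLg0) (mgf_up hn S T r hr0.le)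
      refine h1.trans ?_
      rw [mul_assoc, ← Real.exp_add]
      refine mul_le_mul_of_nonneg_left ?_ hfac.le
      rw [Real.exp_le_exp]
      have h2 := mul_le_mul_of_nonneg_left (up_ineq r hr0.le) hM0
      rw [← hLg] at h2
      have h3 : r * M + -((M + t) * Lg) = M * (r - (1 + r) * Lg) := by rw [← hMr]; ring
      have h4 : M * -(r / 2 * Lg) = -(t / 2 * Lg) := by rw [← hMr]; ring
      rw [h4] at h2
      rw [h3]
      exact h2
    have hLc : (L.card : ℝ) ≤ (n.factorial : ℝ) ^ (D ^ 8) * Real.exp (-(t / 2 * Lg)) := by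
      rcases le_or_gt 1 r with hr1 | hr1
      · have hemp : L = ∅ := by
          rw [hL, Finset.filter_eq_empty_iff]
          intro π _
          rw [not_lt]
          have h3 : (0 : ℝ) ≤ (ee π S T : ℝ) := Nat.cast_nonneg _
          have h4 : M ≤ t := by
            rw [← hMr]
            nlinarith
          linarith
        rw [hemp, Finset.card_empty, Nat.cast_zero]
        positivity
      · set y : ℝ := r / (1 + r) with hy
        have hy0 : 0 ≤ y := by positivity
        have hy1 : y < 1 := by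
          rw [hy, div_lt_one (by linarith)]
          linarith
        have h1y : 1 - y = Real.exp (-Lg) := by
          rw [Real.exp_neg, hexpL, hy]
          field_simp
          ring
        have h1 := markov L (fun π => (1 - y) ^ (ee π S T))
          (fun π => by rw [h1y]; positivity)
          (c := -((M - t) * Lg)) (fun π hπ => by
            rw [hL, Finset.mem_filter] at hπ
            rw [h1y, ← Real.exp_nat_mul, Real.exp_le_exp]
            have := mul_le_mul_of_nonneg_right hπ.2.le hLg0
            linarith) (mgf_low hn S T y hy0 hy1)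
        refine h1.trans ?_
        rw [mul_assoc, ← Real.exp_add]
        refine mul_le_mul_of_nonneg_left ?_ hfac.le
        rw [Real.exp_le_exp]
        have h2 := mul_le_mul_of_nonneg_left (low_ineq r hr0.le hr1.le) hM0
        rw [← hLg] at h2
        have h3 : -(y * M) + - -((M - t) * Lg) = M * (-(r / (1 + r)) + (1 - r) * Lg) := by
          rw [← hMr, hy]; ring
        have h4 : M * -(r / 2 * Lg) = -(t / 2 * Lg) := by rw [← hMr]; ring
        rw [h4] at h2
        rw [h3]
        exact h2
    have hfin : Real.exp (-(t / 2 * Lg)) ≤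
        Real.exp (-(3 * (ph n S.card + ph n T.card))) := by
      rw [Real.exp_le_exp]
      linarith
    have hc1 : ((Finset.univ.filter (fun π : Fin (D ^ 8) → Equiv.Perm (Fin n) =>
        t < |(ee π S T : ℝ) - M|)).card : ℝ) ≤ U.card + L.card := by
      have := (Finset.card_le_card hsub).trans (Finset.card_union_le U L)
      exact_mod_cast this
    refine hc1.trans ?_
    have h5 := mul_le_mul_of_nonneg_left hfin hfac.le
    linarith

end Pool.Agent.Lib.P325z
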